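set_option autoImplicit false

namespace Pool.Agent.MP_5cfbf6_gt.P7.AA

/-- affine form with three noise symbols, fixed point with scale `2 ^ 32` -/
structure AF where
  c : Int
  a : Int
  b : Int
  d : Int
  r : Nat

def sr (x : Int) : Int := Int.shiftRight x 32

def nr (x : Nat) : Nat := Nat.shiftRight x 32

def rad (A : AF) : Nat := Nat.add (Nat.add (Nat.add A.a.natAbs A.b.natAbs) A.d.natAbs) A.r

def cst (c : Int) (r : Nat) : AF := ⟨c, 0, 0, 0, r⟩

def add (A B : AF) : AF :=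
  ⟨Int.add A.c B.c, Int.add A.a B.a, Int.add A.b B.b, Int.add A.d B.d, Nat.add A.r B.r⟩

def sub (A B : AF) : AF :=
  ⟨Int.sub A.c B.c, Int.sub A.a B.a, Int.sub A.b B.b, Int.sub A.d B.d, Nat.add A.r B.r⟩

/-- `k + A` -/
def addc (k : Int) (A : AF) : AF := ⟨Int.add k A.c, A.a, A.b, A.d, A.r⟩

/-- `k - A` -/
def subc (k : Int) (A : AF) : AF := ⟨Int.sub k A.c, Int.neg A.a, Int.neg A.b, Int.neg A.d, A.r⟩

def mul (A B : AF) : AF :=
  ⟨sr (Int.mul A.c B.c), sr (Int.add (Int.mul A.c B.a) (Int.mul B.c A.a)),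
    sr (Int.add (Int.mul A.c B.b) (Int.mul B.c A.b)),
    sr (Int.add (Int.mul A.c B.d) (Int.mul B.c A.d)),
    Nat.add (nr (Nat.add (Nat.add (Nat.mul A.c.natAbs B.r) (Nat.mul B.c.natAbs A.r))
      (Nat.mul (rad A) (rad B)))) 5⟩

def lin (A : AF) (c k : Int) (e : Nat) : AF :=
  ⟨c, sr (Int.mul k A.a), sr (Int.mul k A.b), sr (Int.mul k A.d),
    Nat.add (Nat.add (nr (Nat.mul k.natAbs A.r)) e) 4⟩

/-- product with a constant known up to `e` -/
def smul (k : Int) (e : Nat) (A : AF) : AF :=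
  lin A (sr (Int.mul k A.c)) k (Nat.add (nr (Nat.mul e (Nat.add A.c.natAbs (rad A)))) 2)

def inv2 (A : AF) (p q k e : Nat) : AF :=
  lin A (Int.ofNat (Nat.add (Nat.div 18446744073709551616 p) e)) (Int.neg (Int.ofNat k))
    (Nat.add (Nat.add e (nr q)) 3)

def inv1 (A : AF) (L p q k : Nat) : AF :=
  inv2 A p q k (Nat.add (Nat.div (Nat.shiftRight (Nat.mul (Nat.add k 1) (Nat.mul q q)) 33)
    (cond (Nat.ble (Nat.add L q) p) (Nat.sub p q) L)) 1)

def inv (A : AF) (L : Nat) : AF :=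
  cond (Nat.ble L A.c.toNat)
    (inv1 A L A.c.toNat (rad A)
      (Nat.div 79228162514264337593543950336 (Nat.mul A.c.toNat A.c.toNat)))
    (cst 0 (Nat.add (Nat.div 18446744073709551616 L) 1))

def relu2 (A : AF) (m : Nat) : AF := ⟨Int.add A.c (Int.ofNat m), A.a, A.b, A.d, Nat.add A.r m⟩

def relu (A : AF) : AF :=
  match A.c with
  | Int.ofNat n => relu2 A (Nat.shiftRight (Nat.add (Nat.sub (rad A) n) 1) 1)
  | Int.negSucc n =>
    cst (Int.ofNat (Nat.shiftRight (Nat.sub (rad A) n) 1)) (Nat.shiftRight (Nat.sub (rad A) n) 1)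

def hn (u c0 c1 c2 c3 c4 : Nat) : Nat :=
  Nat.add c0 (Nat.mul u (Nat.add c1 (Nat.mul u (Nat.add c2 (Nat.mul u (Nat.add c3
    (Nat.mul u c4)))))))

def sinP (w : Nat) : Int :=
  Int.subNatNat
    (hn (Nat.mul w w) (121645100408832000 * 2 ^ 576) (1013709170073600 * 2 ^ 448)
      (335221286400 * 2 ^ 320) (19535040 * 2 ^ 192) (342 * 2 ^ 64))
    (Nat.mul w (hn (Nat.mul w w) (20274183401472000 * 2 ^ 512) (24135932620800 * 2 ^ 384)
      (3047466240 * 2 ^ 256) (93024 * 2 ^ 128) 1))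

def cosP (w : Nat) : Int :=
  Int.subNatNat
    (hn (Nat.mul w w) (6402373705728000 * 2 ^ 576) (266765571072000 * 2 ^ 448)
      (158789030400 * 2 ^ 320) (13366080 * 2 ^ 192) (306 * 2 ^ 64))
    (Nat.mul w (hn (Nat.mul w w) (3201186852864000 * 2 ^ 512) (8892185702400 * 2 ^ 384)
      (1764322560 * 2 ^ 256) (73440 * 2 ^ 128) 1))

def atP (w : Nat) : Int :=
  Int.subNatNat
    (hn (Nat.mul w w) (29993483520 * 2 ^ 448) (5973327360 * 2 ^ 320) (2788065280 * 2 ^ 192)
      (567705600 * 2 ^ 64) 0)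
    (Nat.mul w (hn (Nat.mul w w) (9995905920 * 2 ^ 384) (4128284160 * 2 ^ 256)
      (1543127040 * 2 ^ 128) 98402304 0))

def sq (n : Int) : Nat := Nat.mul n.natAbs n.natAbs

def sinF (n : Int) : Int :=
  Int.ediv (Int.shiftRight (Int.mul n (sinP (sq n))) 576) 121645100408832000

def cosF (n : Int) : Int := Int.ediv (Int.shiftRight (cosP (sq n)) 544) 6402373705728000

def atF (n : Int) : Int := Int.ediv (Int.shiftRight (Int.mul n (atP (sq n))) 448) 29993528565

/-- error of a linearisation with second derivative at most one -/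
def er2 (q : Nat) : Nat :=
  Nat.add (Nat.add (Nat.shiftRight (Nat.mul q q) 33) (nr (Nat.mul q 100))) 102

def asin (A : AF) : AF :=
  cond (Nat.ble A.c.natAbs 14173392076) (lin A (sinF A.c) (cosF A.c) (er2 (rad A)))
    (cst 0 4294967296)

def acos (A : AF) : AF :=
  cond (Nat.ble A.c.natAbs 14173392076) (lin A (cosF A.c) (Int.neg (sinF A.c)) (er2 (rad A)))
    (cst 0 4294967296)

def aatn (A : AF) : AF :=
  cond (Nat.ble A.c.natAbs 4294967296)
    (lin A (atF A.c)
      (Int.ofNat (Nat.div 79228162514264337593543950336 (Nat.add 18446744073709551616 (sq A.c))))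
      (Nat.add (Nat.add (Nat.add (Nat.div (Nat.mul (rad A) (rad A)) 12884901888) (nr (rad A)))
        (Nat.div A.c.natAbs 665857)) 5))
    (cst 0 6746518853)

def one : Int := 4294967296

/-- the part of a side that is multiplied by the common factor -/
def s1 (yh w sn u : AF) : AF :=
  mul (mul sn (subc one (smul 4831838208 0 (relu (add (mul yh u) w)))))
    (inv (subc one (mul yh u)) 171798691)

/-- the angle of a side -/
def s2 (oh a sn u : AF) : AF :=
  add a (aatn (mul (mul oh sn) (inv (subc one (mul oh u)) 858993459)))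

def side (z yh w oh : AF) (l : Int) (e : Nat) (a sn u : AF) : AF :=
  sub (mul z (s1 yh w sn u)) (smul l e (s2 oh a sn u))

def side' (z yh w oh : AF) (l : Int) (e : Nat) (a : AF) : AF :=
  side z yh w oh l e a (asin (add a a)) (addc one (acos (add a a)))

def third (a1 a2 : AF) : AF := sub (sub (cst 6746518852 1) a1) a2

def ev3 (z yh w oh : AF) (l1 l2 : Int) (e : Nat) (a1 a2 : AF) : AF :=
  add (add (side' z yh w oh l1 e a1) (side' z yh w oh l2 e a2)) (side' z yh w oh l2 e (third a1 a2))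

def ev2 (c yh : AF) (l1 l2 : Int) (e : Nat) (a1 a2 : AF) : AF :=
  ev3 (mul yh (inv c 858993459)) yh (sub (smul 6012954214 1 yh) (cst 4638564679 1))
    (smul 2147483648 0 (subc one c)) l1 l2 e a1 a2

def ev (c : AF) (l1 l2 : Int) (e : Nat) (a1 a2 : AF) : AF :=
  ev2 c (smul 2147483648 0 (subc one (mul c c))) l1 l2 e a1 a2

def ge (A : AF) (m : Int) : Bool := decide (Int.add m (Int.ofNat (rad A)) ≤ A.c)

def inb1 (lo hi : Int) (sn v : AF) : Bool :=
  ge (sub sn (smul lo 1 v)) 0 && ge (sub (smul hi 1 v) sn) 0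

def inb (lo hi : Int) (c a : AF) : Bool :=
  inb1 lo hi (asin (add a a)) (mul c (addc one (acos (add a a))))

structure Par where
  l1 : Int
  l2 : Int
  e : Nat
  m : Int
  s : Bool
  i : Bool

def leafF (P : Par) (m1 : Int) (r1 : Nat) (m2 : Int) (r2 : Nat) (m3 : Int) (r3 : Nat) : Bool :=
  ge (ev ⟨m1, Int.ofNat r1, 0, 0, 0⟩ P.l1 P.l2 P.e ⟨m2, 0, Int.ofNat r2, 0, 0⟩
    ⟨m3, 0, 0, Int.ofNat r3, 0⟩) P.m

def leafI (c a1 a2 : AF) : Bool :=
  inb 5699421602 6133213299 c a1 && (inb 3006477107 3238405341 c a2 &&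
    inb 3006477107 3238405341 c (third a1 a2))

def leafP (P : Par) (m2 : Int) (r2 : Nat) (m3 : Int) (r3 : Nat) : Bool :=
  decide (m2 + r2 + m3 + r3 ≤ 0) || (decide (6746518853 < m2 - r2 + 2 * (m3 - r3)) ||
    ((P.s && decide (m3 + r3 < m2 - r2)) || (decide (6746518853 ≤ m2 - r2) ||
      decide (m2 + r2 ≤ -6746518853))))

def hf (r : Nat) : Nat := Nat.shiftRight r 1

def hf' (r : Nat) : Nat := Nat.sub r (Nat.shiftRight r 1)

/-- run the instructions of `t` (digits in base 8); the value is the unused code, `0` for failure -/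
def go (P : Par) : Nat → Nat → Int → Nat → Int → Nat → Int → Nat → Nat
  | 0, _, _, _, _, _, _, _ => 0
  | f + 1, t, m1, r1, m2, r2, m3, r3 =>
    match Nat.land t 7 with
    | 1 => go P f (go P f (Nat.shiftRight t 3) (Int.sub m1 (Int.ofNat (hf r1))) (hf' r1) m2 r2 m3 r3)
        (Int.add m1 (Int.ofNat (hf r1))) (hf' r1) m2 r2 m3 r3
    | 2 => go P f (go P f (Nat.shiftRight t 3) m1 r1 (Int.sub m2 (Int.ofNat (hf r2))) (hf' r2) m3 r3)
        m1 r1 (Int.add m2 (Int.ofNat (hf r2))) (hf' r2) m3 r3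
    | 3 => go P f (go P f (Nat.shiftRight t 3) m1 r1 m2 r2 (Int.sub m3 (Int.ofNat (hf r3))) (hf' r3))
        m1 r1 m2 r2 (Int.add m3 (Int.ofNat (hf r3))) (hf' r3)
    | 4 => cond (leafF P m1 r1 m2 r2 m3 r3) (Nat.shiftRight t 3) 0
    | 5 => cond (leafP P m2 r2 m3 r3) (Nat.shiftRight t 3) 0
    | 6 => cond (P.i && leafI ⟨m1, Int.ofNat r1, 0, 0, 0⟩ ⟨m2, 0, Int.ofNat r2, 0, 0⟩
        ⟨m3, 0, 0, Int.ofNat r3, 0⟩) (Nat.shiftRight t 3) 0
    | _ => 0

def pA : Par := ⟨23741995290, 21714186804, 100, -40301724101, false, true⟩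

def pB0 : Par := ⟨23536420782, 23536420782, 1, -42697987875, true, false⟩

def pB1 : Par := ⟨23536420782, 22591527977, 1, -41309854445, false, false⟩

def pB2 : Par := ⟨21646635172, 22591527977, 1, -39921721015, false, false⟩

def pB3 : Par := ⟨21646635172, 21646635172, 1, -38533587585, true, false⟩

end Pool.Agent.MP_5cfbf6_gt.P7.AA
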