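import Pool.Agent.MP_5cfbf6_gt.Defs

set_option autoImplicit false

namespace Pool.Agent.MP_5cfbf6_gt

/-- The right regular pentagonal prism circumscribed about the unit ball. -/
def prism5 : Set E3 :=
  {x | |x 2| ≤ 1 ∧ ∀ k : Fin 5,
    Real.cos (2 * Real.pi * (k : ℕ) / 5) * x 0 + Real.sin (2 * Real.pi * (k : ℕ) / 5) * x 1 ≤ 1}

end Pool.Agent.MP_5cfbf6_gt
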