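import Pool.Agent.Mg.F5cfbf6.G48ad15
import Pool.Agent.MP_5cfbf6_gt.P7.Def

set_option autoImplicit false
set_option linter.unusedSectionVars false

namespace Pool.Agent.MP_5cfbf6_gt.P7

open Set Filter Topology Real

/-- tangent of the signed half angle of the side `i j` at the vertex `i j k` -/
noncomputable def TT3 {ι : Type} (u : ι → E3) (i j k : ι) : ℝ :=
  (1 + dt (u i) (u j) - dt (u j) (u k) - dt (u k) (u i)) / |det3 (u i) (u j) (u k)|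

/-- squared distance from the point of tangency of face `i` to the line of the edge `i j` -/
noncomputable def xx {ι : Type} (u : ι → E3) (i j : ι) : ℝ :=
  (1 - dt (u i) (u j)) / (1 + dt (u i) (u j))

/-- number of neighbours of a face -/
noncomputable def dg {ι : Type} (Tr : ι → ι → ι → Prop) (i : ι) : ℕ := {j | Adj Tr i j}.ncard

/-- the corrected contribution of a half edge -/
noncomputable def Hh (x T : ℝ) : ℝ :=
  x * T * (1 - 9 / 8 * max 0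
    (x / (1 + x) + 7 / 10 * (x * (1 + T ^ 2) / (1 + x * (1 + T ^ 2))) - 27 / 25))

def e2 (a b c : ℝ) : ℝ := a * b + b * c + c * a

/-- the functional of a vertex -/
noncomputable def Ftri (l1 l2 l3 a b c : ℝ) : ℝ :=
  Hh ((e2 a b c - 1) / (1 + a ^ 2)) a + Hh ((e2 a b c - 1) / (1 + b ^ 2)) b
    + Hh ((e2 a b c - 1) / (1 + c ^ 2)) c - l1 * arctan a - l2 * arctan b - l3 * arctan c

def Dom (a b c : ℝ) : Prop :=
  0 < a + b ∧ 0 < b + c ∧ 0 < c + a ∧ 1 ≤ e2 a b c ∧ e2 a b c ≤ 25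

noncomputable def tau : ℝ := tan (π / 5)

noncomputable def mA : ℝ :=
  3 * tau - (5 + tau ^ 2) * (3 * π / 10) - 2 * (4 + 2 * tau ^ 2) * (π / 5)

noncomputable def alB (p : Bool) : ℝ := if p then 2.52 else 2.74

noncomputable def gaB (p : Bool) : ℝ := if p then -2.9906 else -3.3138

def Unit1 {ι : Type} (u : ι → E3) : Prop := ∀ i, dt (u i) (u i) = 1

/-- no point lies on four of the planes -/
def No4 {ι : Type} (u : ι → E3) (X : Set E3) : Prop :=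
  ∀ x ∈ X, ∀ i j k l, dt (u i) x = 1 → dt (u j) x = 1 → dt (u k) x = 1 → dt (u l) x = 1 →
    i = j ∨ i = k ∨ i = l ∨ j = k ∨ j = l ∨ k = l

def SlabSt : Prop :=
  ∀ (ι : Type) [Fintype ι] [DecidableEq ι] (u : ι → E3) (h : ι → ℝ), Unit1 u →
    Bornology.IsBounded (poly u fun i => h i + 1) → ∀ s : ℝ, ∑ i, ar u h i < s →
    ∀ᶠ ε in 𝓝[>] (0 : ℝ), vol u (fun i => h i + ε) ≤ vol u h + ε * s

def WulffSt : Prop :=
  ∀ (ι : Type) [Fintype ι] [DecidableEq ι] (u : ι → E3) (h : ι → ℝ), Unit1 u →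
    Bornology.IsBounded (poly u h) → (interior (poly u h)).Nonempty →
    Bornology.IsBounded (poly u 1) ∧ 27 * vol u h ^ 2 * vol u 1 ≤ (∑ i, ar u h i) ^ 3

def RepSt : Prop :=
  ∀ R : Set E3, IsPolytope R → ∃ (ι : Type) (_ : Fintype ι) (_ : DecidableEq ι) (u : ι → E3)
    (h : ι → ℝ), Unit1 u ∧ R = poly u h ∧ Fintype.card ι = (twoFaces R).ncard ∧
      surfaceArea R = ∑ i, ar u h i

def CardSt : Prop :=
  ∀ P Q : Set E3, IsPolytope P → IsPolytope Q → SameType P Q →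
    (twoFaces P).ncard = (twoFaces Q).ncard

def SimpleSt : Prop :=
  ∀ (ι : Type) [Fintype ι] [DecidableEq ι] (u : ι → E3), Unit1 u → Function.Injective u →
    Bornology.IsBounded (poly u 1) → No4 u (poly u 1) →
    Sys u 1 fun i j k => det3 (u i) (u j) (u k) ≠ 0 ∧ vx u 1 i j k ∈ poly u 1

def GenSt : Prop :=
  ∀ (ι : Type) [Fintype ι] [DecidableEq ι] (u : ι → E3), Unit1 u → ∀ δ : ℝ, 0 < δ →
    ∃ w : ι → E3, Unit1 w ∧ (∀ i, ‖w i - u i‖ ≤ δ) ∧ Function.Injective w ∧ No4 w univ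

def RedSt : Prop :=
  ∀ V : ℝ, (∀ (u : Fin 7 → E3) (Tr : Fin 7 → Fin 7 → Fin 7 → Prop), Unit1 u → Sys u 1 Tr →
      V ≤ vol u 1) →
    ∀ (ι : Type) [Fintype ι] [DecidableEq ι] (u : ι → E3), Fintype.card ι ≤ 7 → Unit1 u →
      Bornology.IsBounded (poly u 1) → V ≤ vol u 1

def AprSt : Prop :=
  ∀ (ι : Type) [Fintype ι] [DecidableEq ι] (u : ι → E3), Unit1 u →
    Bornology.IsBounded (poly u 1) → ∀ v ∈ poly u 1, 25 ≤ dt v v → 7 * π / 3 ≤ vol u 1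

def TriSt : Prop :=
  ∀ (ι : Type) [Fintype ι] [DecidableEq ι] (u : ι → E3) (Tr : ι → ι → ι → Prop), Unit1 u →
    Sys u 1 Tr → ∀ i j k, Tr i j k →
      0 < TT3 u j k i + TT3 u k i j ∧ 0 < TT3 u k i j + TT3 u i j k ∧
      0 < TT3 u i j k + TT3 u j k i ∧
      e2 (TT3 u j k i) (TT3 u k i j) (TT3 u i j k) = dt (vx u 1 i j k) (vx u 1 i j k) ∧
      1 ≤ e2 (TT3 u j k i) (TT3 u k i j) (TT3 u i j k) ∧ 0 < xx u i j ∧
      xx u i j = (e2 (TT3 u j k i) (TT3 u k i j) (TT3 u i j k) - 1) / (1 + TT3 u i j k ^ 2)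

open Classical in
def AreaSt : Prop :=
  ∀ (ι : Type) [Fintype ι] [DecidableEq ι] (u : ι → E3) (Tr : ι → ι → ι → Prop), Unit1 u →
    Sys u 1 Tr →
      (∀ i j, Adj Tr i j → 0 < TT3 u i j (kp u Tr i j) + TT3 u i j (km u Tr i j)) ∧
      6 * vol u 1 = ∑ i, ∑ j, ∑ k, if Tr i j k then xx u i j * TT3 u i j k else 0

open Classical in
def AngleSt : Prop :=
  ∀ (ι : Type) [Fintype ι] [DecidableEq ι] (u : ι → E3) (Tr : ι → ι → ι → Prop), Unit1 u →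
    Sys u 1 Tr → ∀ i, 2 * π ≤ ∑ j, ∑ k, if Tr i j k then arctan (TT3 u i j k) else 0

def EulerSt : Prop :=
  ∀ (ι : Type) [Fintype ι] [DecidableEq ι] (u : ι → E3) (h : ι → ℝ) (Tr : ι → ι → ι → Prop),
    Sys u h Tr → ∑ i, dg Tr i + 12 ≤ 6 * Fintype.card ι

def BipSt : Prop :=
  ∀ Tr : Fin 7 → Fin 7 → Fin 7 → Prop, (∀ i j k, Tr i j k → Tr j i k) →
    (∀ i j k, Tr i j k → Tr i k j) → (∀ i j k, Tr i j k → i ≠ j) →
    (∀ i j k, Tr i j k → ∃ k', k' ≠ k ∧ Tr i j k' ∧ ∀ l, Tr i j l → l = k ∨ l = k') →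
    (∀ i, 4 ≤ dg Tr i) → ∑ i, dg Tr i ≤ 30 →
    ∃ N S, N ≠ S ∧ ¬ Adj Tr N S ∧
      ∀ i j k, Tr i j k → i = N ∨ i = S ∨ j = N ∨ j = S ∨ k = N ∨ k = S

def HhSt : Prop := ∀ x T T' : ℝ, 0 ≤ x → 0 ≤ T + T' → Hh x T + Hh x T' ≤ x * T + x * T'

def CertSt : Prop :=
  ∀ (ι : Type) [Fintype ι] [DecidableEq ι] (u : ι → E3) (Tr : ι → ι → ι → Prop), Unit1 u →
    Sys u 1 Tr → ∀ al ga : ι → ℝ, (∀ i, 0 ≤ al i) →
    (∀ i j k, Tr i j k → ga i + ga j + ga k ≤ Ftri (al j + al k) (al k + al i) (al i + al j)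
      (TT3 u j k i) (TT3 u k i j) (TT3 u i j k)) →
    ∑ i, (2 * π * al i + dg Tr i * ga i) ≤ 3 * vol u 1

def AnaASt : Prop :=
  ∀ a b c : ℝ, Dom a b c → mA ≤ Ftri (5 + tau ^ 2) (4 + 2 * tau ^ 2) (4 + 2 * tau ^ 2) a b c

def AnaBSt : Prop :=
  ∀ (p q r : Bool) (a b c : ℝ), Dom a b c →
    gaB p + gaB q + gaB r ≤ Ftri (alB q + alB r) (alB r + alB p) (alB p + alB q) a b c

def LowSt : Prop :=
  ∀ (u : Fin 7 → E3) (Tr : Fin 7 → Fin 7 → Fin 7 → Prop), Unit1 u → Sys u 1 Tr →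
    10 * tau ≤ vol u 1

def PrismSt : Prop :=
  ∃ (u : Fin 7 → E3) (Tr : Fin 7 → Fin 7 → Fin 7 → Prop), Unit1 u ∧ Sys u 1 Tr ∧
    prism5 = poly u 1 ∧ vol u 1 ≤ 10 * tau

/-- the inequality near the regular prism -/
def InnerSt : Prop :=
  ∀ a b c : ℝ, a ∈ Icc (1.327 : ℝ) 1.428 → b ∈ Icc (0.7 : ℝ) 0.754 → c ∈ Icc (0.7 : ℝ) 0.754 →
    mA ≤ (e2 a b c - 1) * (a / (1 + a ^ 2) + b / (1 + b ^ 2) + c / (1 + c ^ 2))
      - (5 + tau ^ 2) * arctan a - (4 + 2 * tau ^ 2) * arctan b - (4 + 2 * tau ^ 2) * arctan c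

/-- convexity near the regular prism, in the angle variables -/
def HessSt : Prop :=
  ∀ a b c : ℝ, a ∈ Icc (1.327 : ℝ) 1.428 → b ∈ Icc (0.7 : ℝ) 0.754 → c ∈ Icc (0.7 : ℝ) 0.754 →
    ∀ x y z : ℝ, 0 ≤
      (2 * (a * ((b + c) * (1 + a ^ 2)) * x ^ 2 + b * ((c + a) * (1 + b ^ 2)) * y ^ 2
          + c * ((a + b) * (1 + c ^ 2)) * z ^ 2)
        + 2 * ((1 + a ^ 2) * (1 + b ^ 2) * (x * y) + (1 + b ^ 2) * (1 + c ^ 2) * (y * z)
          + (1 + c ^ 2) * (1 + a ^ 2) * (z * x)))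
        * (a / (1 + a ^ 2) + b / (1 + b ^ 2) + c / (1 + c ^ 2))
      + 2 * ((b + c) * (1 + a ^ 2) * x + (c + a) * (1 + b ^ 2) * y + (a + b) * (1 + c ^ 2) * z)
        * ((1 - a ^ 2) / (1 + a ^ 2) * x + (1 - b ^ 2) / (1 + b ^ 2) * y
          + (1 - c ^ 2) / (1 + c ^ 2) * z)
      - 4 * (e2 a b c - 1)
        * (a / (1 + a ^ 2) * x ^ 2 + b / (1 + b ^ 2) * y ^ 2 + c / (1 + c ^ 2) * z ^ 2)

noncomputable def yy (c a : ℝ) : ℝ := (1 - c ^ 2) / 2 * (1 + cos (2 * a))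

/-- one side of a vertex in polar form -/
noncomputable def fr (l c a : ℝ) : ℝ :=
  (1 - c ^ 2) / 2 / c * (sin (2 * a) * (1 - 9 / 8 * max 0 (yy c a + 7 / 10 * (1 - c ^ 2) - 27 / 25))
      / (1 - yy c a))
    - l * (a + arctan ((1 - c) / 2 * sin (2 * a) / (1 - (1 - c) / 2 * (1 + cos (2 * a)))))

noncomputable def Fr (l1 l2 l3 c a1 a2 : ℝ) : ℝ :=
  fr l1 c a1 + fr l2 c a2 + fr l3 c (π / 2 - a1 - a2)

def DomP (c a1 a2 : ℝ) : Prop :=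
  1 / 5 ≤ c ∧ c ≤ 1 ∧ |a1| < π / 2 ∧ |a2| < π / 2 ∧ |π / 2 - a1 - a2| < π / 2

def ParamSt : Prop :=
  ∀ a b d : ℝ, Dom a b d → ∃ c a1 a2 : ℝ, DomP c a1 a2 ∧ a = tan a1 / c ∧ b = tan a2 / c ∧
    d = tan (π / 2 - a1 - a2) / c ∧ ∀ l1 l2 l3 : ℝ, Ftri l1 l2 l3 a b d = Fr l1 l2 l3 c a1 a2

def InB (lo hi c a : ℝ) : Prop :=
  lo * (c * (1 + cos (2 * a))) ≤ sin (2 * a) ∧ sin (2 * a) ≤ hi * (c * (1 + cos (2 * a)))

def BBASt : Prop :=
  ∀ c a1 a2 : ℝ, DomP c a1 a2 → a2 ≤ π / 2 - a1 - a2 →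
    mA ≤ Fr (5 + tau ^ 2) (4 + 2 * tau ^ 2) (4 + 2 * tau ^ 2) c a1 a2 ∨
      (InB 1.327 1.428 c a1 ∧ InB 0.7 0.754 c a2 ∧ InB 0.7 0.754 c (π / 2 - a1 - a2))

def BBBSt : Prop :=
  ∀ c a1 a2 : ℝ, DomP c a1 a2 → a2 ≤ π / 2 - a1 - a2 →
    (a1 ≤ a2 → -9.9414 ≤ Fr 5.48 5.48 5.48 c a1 a2) ∧ -9.6182 ≤ Fr 5.48 5.26 5.26 c a1 a2 ∧
      -9.295 ≤ Fr 5.04 5.26 5.26 c a1 a2 ∧ (a1 ≤ a2 → -8.9718 ≤ Fr 5.04 5.04 5.04 c a1 a2)

lemma tau_sq : tau ^ 2 = 5 - 2 * √5 := by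
  have h5 : √5 ^ 2 = 5 := Real.sq_sqrt (by norm_num)
  have hc : cos (π / 5) = (1 + √5) / 4 := cos_pi_div_five
  have hp : 0 < √5 := by positivity
  have h1 := sin_sq_add_cos_sq (π / 5)
  rw [tau, tan_eq_sin_div_cos, div_pow, div_eq_iff (by rw [hc]; positivity)]
  rw [hc] at h1 ⊢
  nlinarith

lemma tau_pos : 0 < tau := tan_pos_of_pos_of_lt_pi_div_two (by positivity) (by linarith [pi_pos])

lemma tau_sq_bd : 0.52786404 < tau ^ 2 ∧ tau ^ 2 < 0.52786405 := by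
  have h1 : (2.236067975 : ℝ) < √5 := Real.lt_sqrt_of_sq_lt (by norm_num)
  have h2 : √5 < (2.23606798 : ℝ) := (Real.sqrt_lt' (by norm_num)).2 (by norm_num)
  rw [tau_sq]
  constructor <;> linarith

lemma tau_bd : 0.72654252 < tau ∧ tau < 0.72654254 := by
  have h := tau_sq_bd
  have := tau_pos
  constructor <;> nlinarith [h.1, h.2]

lemma e2_rot (a b c : ℝ) : e2 b c a = e2 a b c := by unfold e2; ring

lemma e2_swap (a b c : ℝ) : e2 a c b = e2 a b c := by unfold e2; ring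

lemma Ftri_rot (l1 l2 l3 a b c : ℝ) : Ftri l2 l3 l1 b c a = Ftri l1 l2 l3 a b c := by
  unfold Ftri; rw [e2_rot]; ring

lemma Ftri_swap (l1 l2 l3 a b c : ℝ) : Ftri l1 l3 l2 a c b = Ftri l1 l2 l3 a b c := by
  unfold Ftri; rw [e2_swap]; ring

lemma Dom.rot {a b c : ℝ} (h : Dom a b c) : Dom b c a :=
  ⟨h.2.1, h.2.2.1, h.1, e2_rot a b c ▸ h.2.2.2.1, e2_rot a b c ▸ h.2.2.2.2⟩

lemma Dom.swap {a b c : ℝ} (h : Dom a b c) : Dom a c b :=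
  ⟨add_comm c a ▸ h.2.2.1, add_comm b c ▸ h.2.1, add_comm a b ▸ h.1, e2_swap a b c ▸ h.2.2.2.1,
    e2_swap a b c ▸ h.2.2.2.2⟩

section

variable {ι : Type} [Fintype ι] [DecidableEq ι] {u : ι → E3} {h : ι → ℝ} {Tr : ι → ι → ι → Prop}

lemma TT3_swap (u : ι → E3) (i j k : ι) : TT3 u j i k = TT3 u i j k := by
  unfold TT3
  rw [det3_swap12, abs_neg, dt_comm (u j) (u i), dt_comm (u i) (u k), dt_comm (u k) (u j)]
  ring

lemma xx_swap (u : ι → E3) (i j : ι) : xx u j i = xx u i j := by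
  unfold xx
  rw [dt_comm]

lemma tr_iff (S : Sys u h Tr) {i j : ι} (A : Adj Tr i j) (k : ι) :
    Tr i j k ↔ k = kp u Tr i j ∨ k = km u Tr i j := by
  refine ⟨fun T => ?_, ?_⟩
  · rcases lt_or_gt_of_ne (S.det _ _ _ T) with d | d
    exacts [Or.inr (S.eq_km T d), Or.inl (S.eq_kp T d)]
  · rintro (rfl | rfl)
    exacts [(S.kp_spec A).1, (S.km_spec A).1]

open Classical in
lemma sum_tr (S : Sys u h Tr) (i j : ι) (f : ι → ℝ) :
    (∑ k, if Tr i j k then f k else 0) =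
      if Adj Tr i j then f (kp u Tr i j) + f (km u Tr i j) else 0 := by
  by_cases A : Adj Tr i j
  · rw [if_pos A, ← Finset.sum_filter, ← Finset.sum_pair (S.kp_ne_km A)]
    congr 1
    ext k
    simp [tr_iff S A]
  · rw [if_neg A]
    exact Finset.sum_eq_zero fun k _ => if_neg fun T => A ⟨k, T⟩

open Classical in
lemma dg_eq (Tr : ι → ι → ι → Prop) (i : ι) :
    (dg Tr i : ℝ) = ∑ j, if Adj Tr i j then (1 : ℝ) else 0 := by
  rw [dg, Finset.sum_boole, ← Set.ncard_coe_finset]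
  congr 2
  ext j
  simp

/-- the two faces through an edge, in the form used by `BipSt` -/
lemma two_tr (S : Sys u h Tr) {i j k : ι} (T : Tr i j k) :
    ∃ k', k' ≠ k ∧ Tr i j k' ∧ ∀ l, Tr i j l → l = k ∨ l = k' := by
  have A : Adj Tr i j := ⟨k, T⟩
  rcases (tr_iff S A k).1 T with rfl | rfl
  · exact ⟨_, (S.kp_ne_km A).symm, (S.km_spec A).1, fun l hl => (tr_iff S A l).1 hl⟩
  · exact ⟨_, S.kp_ne_km A, (S.kp_spec A).1, fun l hl => ((tr_iff S A l).1 hl).symm⟩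

/-- position of a vertex on the line of an edge -/
lemma dt_vx_cr (S : Sys u 1 Tr) (hu : Unit1 u) {i j k : ι} (T : Tr i j k) :
    dt (vx u 1 i j k) (cr (u i) (u j)) * det3 (u i) (u j) (u k) =
      (1 - dt (u i) (u j)) * (1 + dt (u i) (u j) - dt (u j) (u k) - dt (u k) (u i)) := by
  have hd := S.det _ _ _ T
  have h1 := hu i
  have h2 := hu j
  rw [dt_comm, vx, dt_sol, mul_comm, ← mul_assoc, mul_inv_cancel₀ hd, one_mul]
  simp only [det3, dt, cr_0, cr_1, cr_2, Pi.one_apply] at h1 h2 ⊢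
  linear_combination (u j 0 * u j 0 + u j 1 * u j 1 + u j 2 * u j 2
    - (u j 0 * u k 0 + u j 1 * u k 1 + u j 2 * u k 2)) * h1
    + (1 - (u k 0 * u i 0 + u k 1 * u i 1 + u k 2 * u i 2)) * h2

lemma T_kp (S : Sys u 1 Tr) (hu : Unit1 u) {i j : ι} (A : Adj Tr i j) :
    dt (ep u Tr 1 i j) (cr (u i) (u j)) = (1 - dt (u i) (u j)) * TT3 u i j (kp u Tr i j) := by
  obtain ⟨T, d⟩ := S.kp_spec A
  rw [TT3, abs_of_pos d, ← mul_div_assoc, eq_div_iff d.ne', ep, dt_vx_cr S hu T]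

lemma T_km (S : Sys u 1 Tr) (hu : Unit1 u) {i j : ι} (A : Adj Tr i j) :
    dt (em u Tr 1 i j) (cr (u i) (u j)) = -((1 - dt (u i) (u j)) * TT3 u i j (km u Tr i j)) := by
  obtain ⟨T, d⟩ := S.km_spec A
  rw [TT3, abs_of_neg d, div_neg, mul_neg, neg_neg, ← mul_div_assoc, eq_div_iff d.ne, em,
    dt_vx_cr S hu T]

end

end Pool.Agent.MP_5cfbf6_gt.P7
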