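import Pool.Agent.MP_5cfbf6_gt.P7.AAS
import Pool.Agent.MP_5cfbf6_gt.P7.Base

set_option autoImplicit false

namespace Pool.Agent.MP_5cfbf6_gt.P7.AA

open Real Set

variable {E : Eps}

lemma Enc.cg {x y : ℝ} {A : AF} (h : Enc E x A) (e : y = x) : Enc E y A := e ▸ h

lemma enc_side {c a l : ℝ} {Z YH W OH A : AF} {k : ℤ} {e : ℕ} (hc : 1 / 5 ≤ c) (hc1 : c ≤ 1)
    (hz : Enc E (1 / 2 * (1 - c * c) * c⁻¹) Z) (hyh : Enc E (1 / 2 * (1 - c * c)) YH)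
    (hw : Enc E (7 / 5 * (1 / 2 * (1 - c * c)) - 27 / 25) W) (hoh : Enc E (1 / 2 * (1 - c)) OH)
    (hl : |l * 4294967296 - k| ≤ e) (ha : Enc E a A) :
    Enc E (fr l c a) (side' Z YH W OH k e A) := by
  have hs := (ha.add ha).sin
  have hu := (ha.add ha).cos.addc
  have u0 := neg_one_le_cos (a + a)
  have u1 := cos_le_one (a + a)
  have c2 : 1 / 25 ≤ c * c := by nlinarith
  have c3 : c * c ≤ 1 := by nlinarith
  have i1 := (hyh.mul hu).subc.inv (L := 171798691) (by norm_num) (by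
    push_cast
    nlinarith [mul_nonneg (sub_nonneg.2 c3) (sub_nonneg.2 u1)])
  have i2 := (hoh.mul hu).subc.inv (L := 858993459) (by norm_num) (by
    push_cast
    nlinarith [mul_nonneg (sub_nonneg.2 hc1) (sub_nonneg.2 u1)])
  have h1 := (hs.mul ((((hyh.mul hu).add hw).relu.smul (l := 9 / 8) (k := 4831838208) (e := 0)
    (by norm_num)).subc)).mul i1
  have h2 := ha.add ((hoh.mul hs).mul i2).atn
  refine ((hz.mul h1).sub (h2.smul hl)).cg ?_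
  have e1 : yy c a = 1 / 2 * (1 - c * c) * (1 + cos (a + a)) := by
    rw [yy, two_mul]; ring
  have e2 : yy c a + 7 / 10 * (1 - c ^ 2) - 27 / 25 =
      1 / 2 * (1 - c * c) * (1 + cos (a + a)) + (7 / 5 * (1 / 2 * (1 - c * c)) - 27 / 25) := by
    rw [e1]; ring
  have e3 : (1 - c) / 2 = 1 / 2 * (1 - c) := by ring
  rw [fr, e2, e1, two_mul a, e3, div_eq_mul_inv (1 / 2 * (1 - c) * sin (a + a))]
  ring

lemma enc_third {a1 a2 : ℝ} {A1 A2 : AF} (h1 : Enc E a1 A1) (h2 : Enc E a2 A2) :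
    Enc E (π / 2 - a1 - a2) (third A1 A2) := by
  refine ((enc_cst ?_).sub h1).sub h2
  have := pi_gt_d20
  have := pi_lt_d20
  rw [abs_le]
  constructor <;> norm_num at * <;> linarith

lemma enc_ev {c a1 a2 l1 l2 : ℝ} {C A1 A2 : AF} {k1 k2 : ℤ} {e : ℕ} (hc : 1 / 5 ≤ c) (hc1 : c ≤ 1)
    (h1 : |l1 * 4294967296 - k1| ≤ e) (h2 : |l2 * 4294967296 - k2| ≤ e) (hC : Enc E c C)
    (ha1 : Enc E a1 A1) (ha2 : Enc E a2 A2) :
    Enc E (Fr l1 l2 l2 c a1 a2) (ev C k1 k2 e A1 A2) := by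
  have hyh := (hC.mul hC).subc.smul (l := 1 / 2) (k := 2147483648) (e := 0) (by norm_num)
  have hoh := hC.subc.smul (l := 1 / 2) (k := 2147483648) (e := 0) (by norm_num)
  have hz := hyh.mul (hC.inv (L := 858993459) (by norm_num) (by push_cast; linarith))
  have hw := (hyh.smul (l := 7 / 5) (k := 6012954214) (e := 1) (by norm_num [abs_le])).sub
    (enc_cst (x := 27 / 25) (c := 4638564679) (r := 1) (by norm_num [abs_le]))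
  exact ((enc_side hc hc1 hz hyh hw hoh h1 ha1).add (enc_side hc hc1 hz hyh hw hoh h2 ha2)).add
    (enc_side hc hc1 hz hyh hw hoh h2 (enc_third ha1 ha2))

lemma enc_inb {c a lo hi : ℝ} {C A : AF} {k1 k2 : ℤ} (h1 : |lo * 4294967296 - k1| ≤ (1 : ℕ))
    (h2 : |hi * 4294967296 - k2| ≤ (1 : ℕ)) (hC : Enc E c C) (ha : Enc E a A)
    (H : inb k1 k2 C A = true) : InB lo hi c a := by
  have hs := (ha.add ha).sin
  have hv := hC.mul (ha.add ha).cos.addc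
  simp only [inb, inb1, Bool.and_eq_true] at H
  have g1 := (hs.sub (hv.smul h1)).ge H.1
  have g2 := ((hv.smul h2).sub hs).ge H.2
  rw [InB, two_mul]
  push_cast at g1 g2
  constructor <;> linarith

lemma eps_ex {X m : ℝ} {r : ℕ} (h : |X - m| ≤ r) : ∃ e : ℝ, |e| ≤ 1 ∧ X = m + r * e := by
  rcases Nat.eq_zero_or_pos r with rfl | hr
  · refine ⟨0, by simp, ?_⟩
    simp only [Nat.cast_zero, abs_nonpos_iff] at h
    simp only [mul_zero]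
    linarith
  · have : (0 : ℝ) < r := by exact_mod_cast hr
    refine ⟨(X - m) / r, ?_, by field_simp; ring⟩
    rwa [abs_div, abs_of_pos this, div_le_one this]

lemma box_enc {c a1 a2 : ℝ} {m1 m2 m3 : ℤ} {r1 r2 r3 : ℕ} (h1 : |c * 4294967296 - m1| ≤ r1)
    (h2 : |a1 * 4294967296 - m2| ≤ r2) (h3 : |a2 * 4294967296 - m3| ≤ r3) :
    ∃ E : Eps, Enc E c ⟨m1, Int.ofNat r1, 0, 0, 0⟩ ∧ Enc E a1 ⟨m2, 0, Int.ofNat r2, 0, 0⟩ ∧
      Enc E a2 ⟨m3, 0, 0, Int.ofNat r3, 0⟩ := by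
  obtain ⟨x, hx, ex⟩ := eps_ex h1
  obtain ⟨y, hy, ey⟩ := eps_ex h2
  obtain ⟨z, hz, ez⟩ := eps_ex h3
  refine ⟨⟨x, y, z, hx, hy, hz⟩, ?_, ?_, ?_⟩
  · simp [Enc, ex]
  · simp [Enc, ey]
  · simp [Enc, ez]

def Goal (P : Par) (l1 l2 c a1 a2 : ℝ) : Prop :=
  (P.m : ℝ) ≤ Fr l1 l2 l2 c a1 a2 * 4294967296 ∨
    (P.i = true ∧ InB 1.327 1.428 c a1 ∧ InB 0.7 0.754 c a2 ∧ InB 0.7 0.754 c (π / 2 - a1 - a2))

def Ok (P : Par) (m1 : ℤ) (r1 : ℕ) (m2 : ℤ) (r2 : ℕ) (m3 : ℤ) (r3 : ℕ) : Prop :=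
  ∀ l1 l2 c a1 a2 : ℝ, |l1 * 4294967296 - P.l1| ≤ P.e → |l2 * 4294967296 - P.l2| ≤ P.e →
    DomP c a1 a2 → a2 ≤ π / 2 - a1 - a2 → (P.s = true → a1 ≤ a2) →
    |c * 4294967296 - m1| ≤ r1 → |a1 * 4294967296 - m2| ≤ r2 → |a2 * 4294967296 - m3| ≤ r3 →
    Goal P l1 l2 c a1 a2

def spl (m : ℤ) (r : ℕ) (ml mr : ℤ) (s : ℕ) : Prop :=
  ml - s ≤ m - r ∧ mr - s ≤ ml + s ∧ m + r ≤ mr + s

instance (m : ℤ) (r : ℕ) (ml mr : ℤ) (s : ℕ) : Decidable (spl m r ml mr s) := by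
  unfold spl; infer_instance

lemma spl.cases {m ml mr : ℤ} {r s : ℕ} (h : spl m r ml mr s) {X : ℝ} (hX : |X - m| ≤ r) :
    |X - ml| ≤ s ∨ |X - mr| ≤ s := by
  obtain ⟨h1, h2, h3⟩ := h
  have h1 : (ml : ℝ) - s ≤ m - r := by exact_mod_cast h1
  have h2 : (mr : ℝ) - s ≤ ml + s := by exact_mod_cast h2
  have h3 : (m : ℝ) + r ≤ mr + s := by exact_mod_cast h3
  rw [abs_le] at hX
  rcases le_total X (ml + s) with h | h
  · exact Or.inl (abs_le.2 ⟨by linarith [hX.1], by linarith⟩)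
  · exact Or.inr (abs_le.2 ⟨by linarith, by linarith [hX.2]⟩)

lemma spl_hf (m : ℤ) (r : ℕ) :
    spl m r (Int.sub m (Int.ofNat (hf r))) (Int.add m (Int.ofNat (hf r))) (hf' r) := by
  have e : Nat.shiftRight r 1 = r / 2 ^ 1 := Nat.shiftRight_eq_div_pow r 1
  simp only [spl, hf, hf', isub, Int.add_def, Int.ofNat_eq_natCast, Nat.sub_eq, e]
  omega

variable {P : Par} {m1 m2 m3 : ℤ} {r1 r2 r3 : ℕ}

lemma Ok.s1 (ml mr : ℤ) (s : ℕ) (h : spl m1 r1 ml mr s) (h1 : Ok P ml s m2 r2 m3 r3)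
    (h2 : Ok P mr s m2 r2 m3 r3) : Ok P m1 r1 m2 r2 m3 r3 :=
  fun l1 l2 c a1 a2 p1 p2 p3 p4 p5 b1 b2 b3 => (h.cases b1).elim
    (fun b => h1 l1 l2 c a1 a2 p1 p2 p3 p4 p5 b b2 b3)
    (fun b => h2 l1 l2 c a1 a2 p1 p2 p3 p4 p5 b b2 b3)

lemma Ok.s2 (ml mr : ℤ) (s : ℕ) (h : spl m2 r2 ml mr s) (h1 : Ok P m1 r1 ml s m3 r3)
    (h2 : Ok P m1 r1 mr s m3 r3) : Ok P m1 r1 m2 r2 m3 r3 :=
  fun l1 l2 c a1 a2 p1 p2 p3 p4 p5 b1 b2 b3 => (h.cases b2).elim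
    (fun b => h1 l1 l2 c a1 a2 p1 p2 p3 p4 p5 b1 b b3)
    (fun b => h2 l1 l2 c a1 a2 p1 p2 p3 p4 p5 b1 b b3)

lemma Ok.s3 (ml mr : ℤ) (s : ℕ) (h : spl m3 r3 ml mr s) (h1 : Ok P m1 r1 m2 r2 ml s)
    (h2 : Ok P m1 r1 m2 r2 mr s) : Ok P m1 r1 m2 r2 m3 r3 :=
  fun l1 l2 c a1 a2 p1 p2 p3 p4 p5 b1 b2 b3 => (h.cases b3).elim
    (fun b => h1 l1 l2 c a1 a2 p1 p2 p3 p4 p5 b1 b2 b)
    (fun b => h2 l1 l2 c a1 a2 p1 p2 p3 p4 p5 b1 b2 b)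

lemma ok_F (H : leafF P m1 r1 m2 r2 m3 r3 = true) : Ok P m1 r1 m2 r2 m3 r3 :=
  fun l1 l2 c a1 a2 p1 p2 p3 _ _ b1 b2 b3 => by
    obtain ⟨E, e1, e2, e3⟩ := box_enc b1 b2 b3
    exact Or.inl ((enc_ev p3.1 p3.2.1 p1 p2 e1 e2 e3).ge H)

lemma ok_I (H : (P.i && leafI ⟨m1, Int.ofNat r1, 0, 0, 0⟩ ⟨m2, 0, Int.ofNat r2, 0, 0⟩
    ⟨m3, 0, 0, Int.ofNat r3, 0⟩) = true) : Ok P m1 r1 m2 r2 m3 r3 :=
  fun l1 l2 c a1 a2 _ _ _ _ _ b1 b2 b3 => by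
    obtain ⟨E, e1, e2, e3⟩ := box_enc b1 b2 b3
    simp only [leafI, Bool.and_eq_true] at H
    exact Or.inr ⟨H.1, enc_inb (by norm_num [abs_le]) (by norm_num [abs_le]) e1 e2 H.2.1,
      enc_inb (by norm_num [abs_le]) (by norm_num [abs_le]) e1 e3 H.2.2.1,
      enc_inb (by norm_num [abs_le]) (by norm_num [abs_le]) e1 (enc_third e2 e3) H.2.2.2⟩

lemma ok_P (H : leafP P m2 r2 m3 r3 = true) : Ok P m1 r1 m2 r2 m3 r3 :=
  fun l1 l2 c a1 a2 _ _ p3 p4 p5 _ b2 b3 => by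
    exfalso
    obtain ⟨-, -, d1, -, d3⟩ := p3
    have hp := pi_lt_d20
    norm_num at hp
    rw [abs_le] at b2 b3
    rw [abs_lt] at d1 d3
    simp only [leafP, Bool.or_eq_true, Bool.and_eq_true, decide_eq_true_eq] at H
    rcases H with H | H | ⟨s, H⟩ | H | H
    · have H : (m2 : ℝ) + r2 + m3 + r3 ≤ 0 := by exact_mod_cast H
      linarith [b2.2, b3.2, d3.2]
    · have H : (6746518853 : ℝ) < m2 - r2 + 2 * (m3 - r3) := by exact_mod_cast H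
      linarith [b2.1, b3.1]
    · have H : (m3 : ℝ) + r3 < m2 - r2 := by exact_mod_cast H
      linarith [b2.1, b3.2, p5 s]
    · have H : (6746518853 : ℝ) ≤ m2 - r2 := by exact_mod_cast H
      linarith [b2.1, d1.2]
    · have H : (m2 : ℝ) + r2 ≤ -6746518853 := by exact_mod_cast H
      linarith [b2.2, d1.1]

lemma go_zero (f : ℕ) : go P f 0 m1 r1 m2 r2 m3 r3 = 0 := by
  cases f <;> rfl

lemma cond_ne {b : Bool} {t : ℕ} (h : cond b t 0 ≠ 0) : b = true := by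
  cases b
  · exact absurd rfl h
  · rfl

lemma go_ne {f t : ℕ} (h : go P f t m1 r1 m2 r2 m3 r3 ≠ 0) : t ≠ 0 := by
  rintro rfl
  exact h (go_zero f)

theorem go_ok (f : ℕ) : ∀ (t : ℕ) (m1 : ℤ) (r1 : ℕ) (m2 : ℤ) (r2 : ℕ) (m3 : ℤ) (r3 : ℕ),
    go P f t m1 r1 m2 r2 m3 r3 ≠ 0 → Ok P m1 r1 m2 r2 m3 r3 := by
  induction f with
  | zero => exact fun t m1 r1 m2 r2 m3 r3 h => absurd rfl h
  | succ f ih =>
    intro t m1 r1 m2 r2 m3 r3 h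
    rw [go] at h
    split at h
    · exact Ok.s1 _ _ _ (spl_hf m1 r1) (ih _ _ _ _ _ _ _ (go_ne h)) (ih _ _ _ _ _ _ _ h)
    · exact Ok.s2 _ _ _ (spl_hf m2 r2) (ih _ _ _ _ _ _ _ (go_ne h)) (ih _ _ _ _ _ _ _ h)
    · exact Ok.s3 _ _ _ (spl_hf m3 r3) (ih _ _ _ _ _ _ _ (go_ne h)) (ih _ _ _ _ _ _ _ h)
    · exact ok_F (cond_ne h)
    · exact ok_P (cond_ne h)
    · exact ok_I (cond_ne h)
    · exact absurd rfl h

lemma ok_go {t : ℕ} (h : go P 60 t m1 r1 m2 r2 m3 r3 = 1) : Ok P m1 r1 m2 r2 m3 r3 :=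
  go_ok 60 t _ _ _ _ _ _ (by rw [h]; exact one_ne_zero)

/-- the whole domain lies in the first box -/
lemma Ok.root (h : Ok P 2576980378 1717986919 0 6845104128 0 6845104128) {l1 l2 c a1 a2 : ℝ}
    (p1 : |l1 * 4294967296 - P.l1| ≤ P.e) (p2 : |l2 * 4294967296 - P.l2| ≤ P.e)
    (p3 : DomP c a1 a2) (p4 : a2 ≤ π / 2 - a1 - a2) (p5 : P.s = true → a1 ≤ a2) :
    Goal P l1 l2 c a1 a2 := by
  have hp := pi_lt_d2
  have ⟨c1, c2, d1, d2, _⟩ := p3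
  rw [abs_lt] at d1 d2
  refine h l1 l2 c a1 a2 p1 p2 p3 p4 p5 ?_ ?_ ?_ <;> rw [abs_le] <;> push_cast <;>
    constructor <;> linarith [d1.1, d1.2, d2.1, d2.2]

end Pool.Agent.MP_5cfbf6_gt.P7.AA
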