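import Pool.Agent.MP_5cfbf6_gt.P7.AAE
import Pool.Agent.MP_5cfbf6_gt.P7.K00
import Pool.Agent.MP_5cfbf6_gt.P7.K01
import Pool.Agent.MP_5cfbf6_gt.P7.K02
import Pool.Agent.MP_5cfbf6_gt.P7.K03
import Pool.Agent.MP_5cfbf6_gt.P7.K04
import Pool.Agent.MP_5cfbf6_gt.P7.K05
import Pool.Agent.MP_5cfbf6_gt.P7.K06
import Pool.Agent.MP_5cfbf6_gt.P7.K07
import Pool.Agent.MP_5cfbf6_gt.P7.K08
import Pool.Agent.MP_5cfbf6_gt.P7.K09
import Pool.Agent.MP_5cfbf6_gt.P7.K10
import Pool.Agent.MP_5cfbf6_gt.P7.K11

set_option autoImplicit false

namespace Pool.Agent.MP_5cfbf6_gt.P7.AA

theorem okA : Ok pA 2576980378 1717986919 0 6845104128 0 6845104128 :=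
  (.s2 (-3422552064) 3422552064 3422552064 (by decide)
   (.s3 (-3422552064) 3422552064 3422552064 (by decide)
    (ok_go cA_1)
    (.s1 1717986919 3435973837 858993460 (by decide)
     (.s2 (-5133828096) (-1711276032) 1711276032 (by decide)
      (ok_go cA_2)
      (.s3 1711276032 5133828096 1711276032 (by decide)
       (.s1 1288490189 2147483649 429496730 (by decide)
        (ok_go cA_3)
        (ok_go cA_4))
       (ok_go cA_5)))
     (ok_go cA_6)))
   (.s3 (-3422552064) 3422552064 3422552064 (by decide)
    (.s1 1717986919 3435973837 858993460 (by decide)
     (.s2 1711276032 5133828096 1711276032 (by decide)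
      (.s3 (-5133828096) (-1711276032) 1711276032 (by decide)
       (ok_go cA_7)
       (.s1 1288490189 2147483649 429496730 (by decide)
        (.s2 855638016 2566914048 855638016 (by decide)
         (ok_go cA_8)
         (.s3 (-2566914048) (-855638016) 855638016 (by decide)
          (ok_go cA_9)
          (.s1 1073741824 1503238554 214748365 (by decide)
           (ok_go cA_10)
           (ok_go cA_11))))
        (.s2 855638016 2566914048 855638016 (by decide)
         (ok_go cA_12)
         (.s3 (-2566914048) (-855638016) 855638016 (by decide)
          (ok_go cA_13)
          (ok_go cA_14)))))
      (.s3 (-5133828096) (-1711276032) 1711276032 (by decide)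
       (ok_go cA_15)
       (.s1 1288490189 2147483649 429496730 (by decide)
        (.s2 4278190080 5989466112 855638016 (by decide)
         (.s3 (-2566914048) (-855638016) 855638016 (by decide)
          (ok_go cA_16)
          (.s1 1073741824 1503238554 214748365 (by decide)
           (.s2 3850371072 4706009088 427819008 (by decide)
            (ok_go cA_17)
            (ok_go cA_18))
           (ok_go cA_19)))
         (.s3 (-2566914048) (-855638016) 855638016 (by decide)
          (ok_go cA_20)
          (.s1 1073741824 1503238554 214748365 (by decide)
           (.s2 5561647104 6417285120 427819008 (by decide)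
            (.s3 (-1283457024) (-427819008) 427819008 (by decide)
             (ok_go cA_21)
             (ok_go cA_22))
            (.s3 (-1283457024) (-427819008) 427819008 (by decide)
             (ok_go cA_23)
             (ok_go cA_24)))
           (ok_go cA_25))))
        (.s2 4278190080 5989466112 855638016 (by decide)
         (.s3 (-2566914048) (-855638016) 855638016 (by decide)
          (ok_go cA_26)
          (.s1 1932735284 2362232014 214748365 (by decide)
           (.s2 3850371072 4706009088 427819008 (by decide)
            (ok_go cA_27)
            (ok_go cA_28))
           (.s3 (-1283457024) (-427819008) 427819008 (by decide)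
            (ok_go cA_29)
            (.s2 3850371072 4706009088 427819008 (by decide)
             (.s3 (-641728512) (-213909504) 213909504 (by decide)
              (ok_go cA_30)
              (ok_go cA_31))
             (ok_go cA_32)))))
         (.s3 (-2566914048) (-855638016) 855638016 (by decide)
          (ok_go cA_33)
          (ok_go cA_34))))))
     (.s2 1711276032 5133828096 1711276032 (by decide)
      (ok_go cA_35)
      (ok_go cA_36)))
    (.s1 1717986919 3435973837 858993460 (by decide)
     (.s2 1711276032 5133828096 1711276032 (by decide)
      (.s3 1711276032 5133828096 1711276032 (by decide)
       (.s1 1288490189 2147483649 429496730 (by decide)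
        (.s2 855638016 2566914048 855638016 (by decide)
         (ok_go cA_37)
         (ok_go cA_38))
        (.s2 855638016 2566914048 855638016 (by decide)
         (ok_go cA_39)
         (.s3 855638016 2566914048 855638016 (by decide)
          (.s1 1932735284 2362232014 214748365 (by decide)
           (ok_go cA_40)
           (.s3 427819008 1283457024 427819008 (by decide)
            (ok_go cA_41)
            (ok_go cA_42)))
          (ok_go cA_43))))
       (ok_go cA_44))
      (.s3 1711276032 5133828096 1711276032 (by decide)
       (.s1 1288490189 2147483649 429496730 (by decide)
        (.s2 4278190080 5989466112 855638016 (by decide)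
         (ok_go cA_45)
         (ok_go cA_46))
        (.s2 4278190080 5989466112 855638016 (by decide)
         (.s3 855638016 2566914048 855638016 (by decide)
          (.s1 1932735284 2362232014 214748365 (by decide)
           (.s2 3850371072 4706009088 427819008 (by decide)
            (ok_go cA_47)
            (ok_go cA_48))
           (.s2 3850371072 4706009088 427819008 (by decide)
            (.s3 427819008 1283457024 427819008 (by decide)
             (.s3 213909504 641728512 213909504 (by decide)
              (ok_go cA_49)
              (ok_go cA_50))
             (ok_go cA_51))
            (ok_go cA_52)))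
          (ok_go cA_53))
         (ok_go cA_54)))
       (ok_go cA_55)))
     (.s2 1711276032 5133828096 1711276032 (by decide)
      (.s3 1711276032 5133828096 1711276032 (by decide)
       (.s1 3006477107 3865470567 429496730 (by decide)
        (.s2 855638016 2566914048 855638016 (by decide)
         (ok_go cA_56)
         (.s3 855638016 2566914048 855638016 (by decide)
          (.s1 2791728742 3221225472 214748365 (by decide)
           (.s3 427819008 1283457024 427819008 (by decide)
            (ok_go cA_57)
            (.s2 2139095040 2994733056 427819008 (by decide)
             (ok_go cA_58)
             (.s3 1069547520 1497366528 213909504 (by decide)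
              (ok_go cA_59)
              (.s2 2780823552 3208642560 213909504 (by decide)
               (ok_go cA_60)
               (.s1 2684354560 2899102924 107374183 (by decide)
                (.s3 1390411776 1604321280 106954752 (by decide)
                 (ok_go cA_61)
                 (.s2 3101687808 3315597312 106954752 (by decide)
                  (.s1 2630667469 2738041651 53687092 (by decide)
                   (ok_go cA_62)
                   (ok_go cA_63))
                  (ok_go cA_64)))
                (ok_go cA_65))))))
           (ok_go cA_66))
          (.s3 2139095040 2994733056 427819008 (by decide)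
           (.s2 2139095040 2994733056 427819008 (by decide)
            (ok_go cA_67)
            (.s3 1925185536 2353004544 213909504 (by decide)
             (.s1 2791728742 3221225472 214748365 (by decide)
              (.s2 2780823552 3208642560 213909504 (by decide)
               (.s1 2684354560 2899102924 107374183 (by decide)
                (.s3 1818230784 2032140288 106954752 (by decide)
                 (.s2 2673868800 2887778304 106954752 (by decide)
                  (ok_go cA_68)
                  (.s1 2630667469 2738041651 53687092 (by decide)
                   (ok_go cA_69)
                   (ok_go cA_70)))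
                 (ok_go cA_71))
                (ok_go cA_72))
               (.s3 1818230784 2032140288 106954752 (by decide)
                (.s1 2684354560 2899102924 107374183 (by decide)
                 (.s2 3101687808 3315597312 106954752 (by decide)
                  (.s1 2630667469 2738041651 53687092 (by decide)
                   (ok_go cA_73)
                   (.s3 1764753408 1871708160 53477376 (by decide)
                    (.s2 3048210432 3155165184 53477376 (by decide)
                     (.s1 2711198105 2764885197 26843546 (by decide)
                      (.s3 1738014720 1791492096 26738688 (by decide)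
                       (ok_go cA_74)
                       (ok_go cA_75))
                      (ok_go cA_76))
                     (ok_go cA_77))
                    (ok_go cA_78)))
                  (ok_go cA_79))
                 (ok_go cA_80))
                (ok_go cA_81)))
              (ok_go cA_82))
             (ok_go cA_83)))
           (ok_go cA_84))))
        (ok_go cA_85))
       (ok_go cA_86))
      (.s3 1711276032 5133828096 1711276032 (by decide)
       (.s1 3006477107 3865470567 429496730 (by decide)
        (.s2 4278190080 5989466112 855638016 (by decide)
         (.s3 855638016 2566914048 855638016 (by decide)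
          (.s3 427819008 1283457024 427819008 (by decide)
           (ok_go cA_87)
           (ok_go cA_88))
          (ok_go cA_89))
         (ok_go cA_90))
        (ok_go cA_91))
       (ok_go cA_92))))))

theorem okB0 : Ok pB0 2576980378 1717986919 0 6845104128 0 6845104128 :=
  (.s2 (-3422552064) 3422552064 3422552064 (by decide)
   (.s3 (-3422552064) 3422552064 3422552064 (by decide)
    (ok_go cB0_1)
    (.s1 1717986919 3435973837 858993460 (by decide)
     (.s2 (-5133828096) (-1711276032) 1711276032 (by decide)
      (ok_go cB0_2)
      (.s3 1711276032 5133828096 1711276032 (by decide)
       (.s1 1288490189 2147483649 429496730 (by decide)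
        (.s2 (-2566914048) (-855638016) 855638016 (by decide)
         (ok_go cB0_3)
         (.s3 855638016 2566914048 855638016 (by decide)
          (ok_go cB0_4)
          (ok_go cB0_5)))
        (ok_go cB0_6))
       (ok_go cB0_7)))
     (ok_go cB0_8)))
   (.s3 (-3422552064) 3422552064 3422552064 (by decide)
    (ok_go cB0_9)
    (.s1 1717986919 3435973837 858993460 (by decide)
     (.s2 1711276032 5133828096 1711276032 (by decide)
      (.s3 1711276032 5133828096 1711276032 (by decide)
       (.s1 1288490189 2147483649 429496730 (by decide)
        (.s2 855638016 2566914048 855638016 (by decide)
         (.s3 855638016 2566914048 855638016 (by decide)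
          (ok_go cB0_10)
          (ok_go cB0_11))
         (ok_go cB0_12))
        (.s2 855638016 2566914048 855638016 (by decide)
         (.s3 855638016 2566914048 855638016 (by decide)
          (ok_go cB0_13)
          (.s1 1932735284 2362232014 214748365 (by decide)
           (ok_go cB0_14)
           (ok_go cB0_15)))
         (ok_go cB0_16)))
       (ok_go cB0_17))
      (ok_go cB0_18))
     (.s2 1711276032 5133828096 1711276032 (by decide)
      (.s3 1711276032 5133828096 1711276032 (by decide)
       (.s1 3006477107 3865470567 429496730 (by decide)
        (.s2 855638016 2566914048 855638016 (by decide)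
         (ok_go cB0_19)
         (ok_go cB0_20))
        (ok_go cB0_21))
       (ok_go cB0_22))
      (ok_go cB0_23)))))

theorem okB1 : Ok pB1 2576980378 1717986919 0 6845104128 0 6845104128 :=
  (.s2 (-3422552064) 3422552064 3422552064 (by decide)
   (.s3 (-3422552064) 3422552064 3422552064 (by decide)
    (ok_go cB1_1)
    (.s1 1717986919 3435973837 858993460 (by decide)
     (.s2 (-5133828096) (-1711276032) 1711276032 (by decide)
      (ok_go cB1_2)
      (.s3 1711276032 5133828096 1711276032 (by decide)
       (.s1 1288490189 2147483649 429496730 (by decide)
        (.s2 (-2566914048) (-855638016) 855638016 (by decide)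
         (ok_go cB1_3)
         (.s3 855638016 2566914048 855638016 (by decide)
          (ok_go cB1_4)
          (ok_go cB1_5)))
        (ok_go cB1_6))
       (ok_go cB1_7)))
     (ok_go cB1_8)))
   (.s3 (-3422552064) 3422552064 3422552064 (by decide)
    (.s1 1717986919 3435973837 858993460 (by decide)
     (.s2 1711276032 5133828096 1711276032 (by decide)
      (.s3 (-5133828096) (-1711276032) 1711276032 (by decide)
       (ok_go cB1_9)
       (.s1 1288490189 2147483649 429496730 (by decide)
        (.s2 855638016 2566914048 855638016 (by decide)
         (ok_go cB1_10)
         (.s3 (-2566914048) (-855638016) 855638016 (by decide)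
          (ok_go cB1_11)
          (.s1 1073741824 1503238554 214748365 (by decide)
           (ok_go cB1_12)
           (ok_go cB1_13))))
        (ok_go cB1_14)))
      (.s3 (-5133828096) (-1711276032) 1711276032 (by decide)
       (ok_go cB1_15)
       (.s1 1288490189 2147483649 429496730 (by decide)
        (.s2 4278190080 5989466112 855638016 (by decide)
         (.s3 (-2566914048) (-855638016) 855638016 (by decide)
          (ok_go cB1_16)
          (.s1 1073741824 1503238554 214748365 (by decide)
           (ok_go cB1_17)
           (ok_go cB1_18)))
         (.s3 (-2566914048) (-855638016) 855638016 (by decide)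
          (ok_go cB1_19)
          (.s1 1073741824 1503238554 214748365 (by decide)
           (.s2 5561647104 6417285120 427819008 (by decide)
            (ok_go cB1_20)
            (ok_go cB1_21))
           (ok_go cB1_22))))
        (.s2 4278190080 5989466112 855638016 (by decide)
         (.s3 (-2566914048) (-855638016) 855638016 (by decide)
          (ok_go cB1_23)
          (ok_go cB1_24))
         (ok_go cB1_25)))))
     (ok_go cB1_26))
    (.s1 1717986919 3435973837 858993460 (by decide)
     (.s2 1711276032 5133828096 1711276032 (by decide)
      (.s3 1711276032 5133828096 1711276032 (by decide)
       (.s1 1288490189 2147483649 429496730 (by decide)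
        (.s2 855638016 2566914048 855638016 (by decide)
         (.s3 855638016 2566914048 855638016 (by decide)
          (ok_go cB1_27)
          (ok_go cB1_28))
         (.s3 855638016 2566914048 855638016 (by decide)
          (ok_go cB1_29)
          (ok_go cB1_30)))
        (.s2 855638016 2566914048 855638016 (by decide)
         (.s3 855638016 2566914048 855638016 (by decide)
          (ok_go cB1_31)
          (ok_go cB1_32))
         (.s3 855638016 2566914048 855638016 (by decide)
          (.s1 1932735284 2362232014 214748365 (by decide)
           (ok_go cB1_33)
           (.s3 427819008 1283457024 427819008 (by decide)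
            (ok_go cB1_34)
            (ok_go cB1_35)))
          (.s1 1932735284 2362232014 214748365 (by decide)
           (ok_go cB1_36)
           (ok_go cB1_37)))))
       (ok_go cB1_38))
      (.s3 1711276032 5133828096 1711276032 (by decide)
       (.s1 1288490189 2147483649 429496730 (by decide)
        (.s2 4278190080 5989466112 855638016 (by decide)
         (ok_go cB1_39)
         (ok_go cB1_40))
        (.s2 4278190080 5989466112 855638016 (by decide)
         (.s3 855638016 2566914048 855638016 (by decide)
          (.s1 1932735284 2362232014 214748365 (by decide)
           (ok_go cB1_41)
           (ok_go cB1_42))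
          (ok_go cB1_43))
         (ok_go cB1_44)))
       (ok_go cB1_45)))
     (.s2 1711276032 5133828096 1711276032 (by decide)
      (.s3 1711276032 5133828096 1711276032 (by decide)
       (.s1 3006477107 3865470567 429496730 (by decide)
        (.s2 855638016 2566914048 855638016 (by decide)
         (ok_go cB1_46)
         (.s3 855638016 2566914048 855638016 (by decide)
          (.s1 2791728742 3221225472 214748365 (by decide)
           (ok_go cB1_47)
           (ok_go cB1_48))
          (.s3 2139095040 2994733056 427819008 (by decide)
           (.s2 2139095040 2994733056 427819008 (by decide)
            (ok_go cB1_49)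
            (ok_go cB1_50))
           (ok_go cB1_51))))
        (ok_go cB1_52))
       (ok_go cB1_53))
      (ok_go cB1_54)))))

theorem okB2 : Ok pB2 2576980378 1717986919 0 6845104128 0 6845104128 :=
  (.s2 (-3422552064) 3422552064 3422552064 (by decide)
   (.s3 (-3422552064) 3422552064 3422552064 (by decide)
    (ok_go cB2_1)
    (.s1 1717986919 3435973837 858993460 (by decide)
     (.s2 (-5133828096) (-1711276032) 1711276032 (by decide)
      (ok_go cB2_2)
      (.s3 1711276032 5133828096 1711276032 (by decide)
       (.s1 1288490189 2147483649 429496730 (by decide)
        (.s2 (-2566914048) (-855638016) 855638016 (by decide)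
         (ok_go cB2_3)
         (.s3 855638016 2566914048 855638016 (by decide)
          (ok_go cB2_4)
          (.s1 1073741824 1503238554 214748365 (by decide)
           (.s2 (-1283457024) (-427819008) 427819008 (by decide)
            (ok_go cB2_5)
            (ok_go cB2_6))
           (ok_go cB2_7))))
        (.s2 (-2566914048) (-855638016) 855638016 (by decide)
         (ok_go cB2_8)
         (.s3 855638016 2566914048 855638016 (by decide)
          (ok_go cB2_9)
          (.s1 1932735284 2362232014 214748365 (by decide)
           (ok_go cB2_10)
           (.s2 (-1283457024) (-427819008) 427819008 (by decide)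
            (ok_go cB2_11)
            (.s3 2139095040 2994733056 427819008 (by decide)
             (ok_go cB2_12)
             (ok_go cB2_13)))))))
       (.s1 1288490189 2147483649 429496730 (by decide)
        (.s2 (-2566914048) (-855638016) 855638016 (by decide)
         (ok_go cB2_14)
         (ok_go cB2_15))
        (.s2 (-2566914048) (-855638016) 855638016 (by decide)
         (ok_go cB2_16)
         (.s3 4278190080 5989466112 855638016 (by decide)
          (.s1 1932735284 2362232014 214748365 (by decide)
           (ok_go cB2_17)
           (ok_go cB2_18))
          (ok_go cB2_19))))))
     (ok_go cB2_20)))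
   (.s3 (-3422552064) 3422552064 3422552064 (by decide)
    (.s1 1717986919 3435973837 858993460 (by decide)
     (.s2 1711276032 5133828096 1711276032 (by decide)
      (.s3 (-5133828096) (-1711276032) 1711276032 (by decide)
       (ok_go cB2_21)
       (.s1 1288490189 2147483649 429496730 (by decide)
        (.s2 855638016 2566914048 855638016 (by decide)
         (ok_go cB2_22)
         (ok_go cB2_23))
        (ok_go cB2_24)))
      (.s3 (-5133828096) (-1711276032) 1711276032 (by decide)
       (ok_go cB2_25)
       (.s1 1288490189 2147483649 429496730 (by decide)
        (.s2 4278190080 5989466112 855638016 (by decide)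
         (.s3 (-2566914048) (-855638016) 855638016 (by decide)
          (ok_go cB2_26)
          (ok_go cB2_27))
         (.s3 (-2566914048) (-855638016) 855638016 (by decide)
          (ok_go cB2_28)
          (.s1 1073741824 1503238554 214748365 (by decide)
           (ok_go cB2_29)
           (ok_go cB2_30))))
        (ok_go cB2_31))))
     (ok_go cB2_32))
    (.s1 1717986919 3435973837 858993460 (by decide)
     (.s2 1711276032 5133828096 1711276032 (by decide)
      (.s3 1711276032 5133828096 1711276032 (by decide)
       (.s1 1288490189 2147483649 429496730 (by decide)
        (.s2 855638016 2566914048 855638016 (by decide)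
         (.s3 855638016 2566914048 855638016 (by decide)
          (ok_go cB2_33)
          (ok_go cB2_34))
         (ok_go cB2_35))
        (.s2 855638016 2566914048 855638016 (by decide)
         (.s3 855638016 2566914048 855638016 (by decide)
          (ok_go cB2_36)
          (.s1 1932735284 2362232014 214748365 (by decide)
           (ok_go cB2_37)
           (.s2 427819008 1283457024 427819008 (by decide)
            (.s3 2139095040 2994733056 427819008 (by decide)
             (ok_go cB2_38)
             (.s2 213909504 641728512 213909504 (by decide)
              (ok_go cB2_39)
              (ok_go cB2_40)))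
            (ok_go cB2_41))))
         (.s3 855638016 2566914048 855638016 (by decide)
          (.s1 1932735284 2362232014 214748365 (by decide)
           (ok_go cB2_42)
           (ok_go cB2_43))
          (ok_go cB2_44))))
       (ok_go cB2_45))
      (.s3 1711276032 5133828096 1711276032 (by decide)
       (.s1 1288490189 2147483649 429496730 (by decide)
        (ok_go cB2_46)
        (ok_go cB2_47))
       (ok_go cB2_48)))
     (.s2 1711276032 5133828096 1711276032 (by decide)
      (.s3 1711276032 5133828096 1711276032 (by decide)
       (.s1 3006477107 3865470567 429496730 (by decide)
        (.s2 855638016 2566914048 855638016 (by decide)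
         (.s3 855638016 2566914048 855638016 (by decide)
          (ok_go cB2_49)
          (.s1 2791728742 3221225472 214748365 (by decide)
           (.s2 427819008 1283457024 427819008 (by decide)
            (ok_go cB2_50)
            (.s3 2139095040 2994733056 427819008 (by decide)
             (ok_go cB2_51)
             (ok_go cB2_52)))
           (ok_go cB2_53)))
         (.s3 855638016 2566914048 855638016 (by decide)
          (ok_go cB2_54)
          (.s3 2139095040 2994733056 427819008 (by decide)
           (.s2 2139095040 2994733056 427819008 (by decide)
            (ok_go cB2_55)
            (ok_go cB2_56))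
           (ok_go cB2_57))))
        (ok_go cB2_58))
       (ok_go cB2_59))
      (ok_go cB2_60)))))

theorem okB3 : Ok pB3 2576980378 1717986919 0 6845104128 0 6845104128 :=
  (.s2 (-3422552064) 3422552064 3422552064 (by decide)
   (.s3 (-3422552064) 3422552064 3422552064 (by decide)
    (ok_go cB3_1)
    (.s1 1717986919 3435973837 858993460 (by decide)
     (.s2 (-5133828096) (-1711276032) 1711276032 (by decide)
      (ok_go cB3_2)
      (.s3 1711276032 5133828096 1711276032 (by decide)
       (.s1 1288490189 2147483649 429496730 (by decide)
        (.s2 (-2566914048) (-855638016) 855638016 (by decide)
         (ok_go cB3_3)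
         (.s3 855638016 2566914048 855638016 (by decide)
          (ok_go cB3_4)
          (ok_go cB3_5)))
        (ok_go cB3_6))
       (ok_go cB3_7)))
     (ok_go cB3_8)))
   (.s3 (-3422552064) 3422552064 3422552064 (by decide)
    (ok_go cB3_9)
    (.s1 1717986919 3435973837 858993460 (by decide)
     (.s2 1711276032 5133828096 1711276032 (by decide)
      (.s3 1711276032 5133828096 1711276032 (by decide)
       (.s1 1288490189 2147483649 429496730 (by decide)
        (ok_go cB3_10)
        (.s2 855638016 2566914048 855638016 (by decide)
         (.s3 855638016 2566914048 855638016 (by decide)
          (ok_go cB3_11)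
          (ok_go cB3_12))
         (ok_go cB3_13)))
       (ok_go cB3_14))
      (ok_go cB3_15))
     (.s2 1711276032 5133828096 1711276032 (by decide)
      (.s3 1711276032 5133828096 1711276032 (by decide)
       (.s1 3006477107 3865470567 429496730 (by decide)
        (.s2 855638016 2566914048 855638016 (by decide)
         (ok_go cB3_16)
         (ok_go cB3_17))
        (ok_go cB3_18))
       (ok_go cB3_19))
      (ok_go cB3_20)))))

end Pool.Agent.MP_5cfbf6_gt.P7.AA
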