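import Mathlib

set_option autoImplicit false

namespace Pool.Agent.MP_5cfbf6_gt.P7.AA

open Real Set

/-- first order Taylor bound for a function with Lipschitz derivative -/
lemma taylor_right {f g : ℝ → ℝ} {M a : ℝ} (hf : ∀ t, HasDerivAt f (g t) t)
    (hg : ∀ t, |g t - g a| ≤ M * |t - a|) {x : ℝ} (hx : a ≤ x) :
    |f x - f a - g a * (x - a)| ≤ M / 2 * (x - a) ^ 2 := by
  have h1 : ∀ t, HasDerivAt (fun t => f t - f a - g a * (t - a)) (g t - g a) t := fun t =>
    (((hf t).sub_const (f a)).sub (((hasDerivAt_id t).sub_const a).const_mul (g a))).congr_deriv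
      (by rw [mul_one])
  have h2 : ∀ t, HasDerivAt (fun t => M / 2 * (t - a) ^ 2) (M * (t - a)) t := fun t => by
    have := (((hasDerivAt_id t).sub_const a).pow 2).const_mul (M / 2)
    refine this.congr_deriv ?_
    simp only [id, Nat.cast_ofNat, Nat.add_one_sub_one, pow_one, mul_one]
    ring
  have := image_norm_le_of_norm_deriv_right_le_deriv_boundary (a := a) (b := x)
    (f := fun t => f t - f a - g a * (t - a)) (f' := fun t => g t - g a)
    (fun t _ => (h1 t).continuousAt.continuousWithinAt) (fun t _ => (h1 t).hasDerivWithinAt)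
    (B := fun t => M / 2 * (t - a) ^ 2) (B' := fun t => M * (t - a)) (by simp) h2
    (fun t ht => by
      have := hg t
      rwa [abs_of_nonneg (sub_nonneg.2 ht.1)] at this) ⟨hx, le_rfl⟩
  simpa using this

lemma taylor {f g : ℝ → ℝ} {M a : ℝ} (hf : ∀ t, HasDerivAt f (g t) t)
    (hg : ∀ t, |g t - g a| ≤ M * |t - a|) (x : ℝ) :
    |f x - f a - g a * (x - a)| ≤ M / 2 * (x - a) ^ 2 := by
  rcases le_total a x with h | h
  · exact taylor_right hf hg h
  · have := taylor_right (f := fun t => f (-t)) (g := fun t => -g (-t)) (M := M) (a := -a)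
      (fun t => ((hf (-t)).comp t (hasDerivAt_neg t)).congr_deriv (by ring))
      (fun t => by
        have := hg (-t)
        rw [neg_neg, ← abs_neg, show -(-g (-t) - -g a) = g (-t) - g a by ring, ← abs_neg (t - -a),
          show -(t - -a) = -t - a by ring]
        exact this) (x := -x) (neg_le_neg h)
    simp only [neg_neg] at this
    rw [show -g a * (-x - -a) = g a * (x - a) by ring,
      show (-x - -a) ^ 2 = (x - a) ^ 2 by ring] at this
    exact this

lemma sin_lin (a x : ℝ) : |sin x - sin a - cos a * (x - a)| ≤ 1 / 2 * (x - a) ^ 2 :=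
  taylor hasDerivAt_sin (fun t => by simpa using abs_cos_sub_cos_le t a) x

lemma cos_lin (a x : ℝ) : |cos x - cos a - -sin a * (x - a)| ≤ 1 / 2 * (x - a) ^ 2 :=
  taylor (g := fun t => -sin t) hasDerivAt_cos (fun t => by
    rw [← abs_neg, show -(-sin t - -sin a) = sin t - sin a by ring, one_mul]
    exact abs_sin_sub_sin_le t a) x

lemma atn_lip (s t : ℝ) : |1 / (1 + t ^ 2) - 1 / (1 + s ^ 2)| ≤ 2 / 3 * |t - s| := by
  have h1 : 0 < 1 + t ^ 2 := by positivity
  have h2 : 0 < 1 + s ^ 2 := by positivity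
  have e : 1 / (1 + t ^ 2) - 1 / (1 + s ^ 2) = (-(s + t) / ((1 + t ^ 2) * (1 + s ^ 2))) * (t - s) := by
    field_simp
    ring
  rw [e, abs_mul]
  refine mul_le_mul_of_nonneg_right ?_ (abs_nonneg _)
  rw [abs_div, abs_of_pos (mul_pos h1 h2), div_le_iff₀ (mul_pos h1 h2), abs_le]
  constructor
  · nlinarith [sq_nonneg (s * t - 1 / 3), sq_nonneg (s - t), sq_nonneg (s + t - 9 / 8)]
  · nlinarith [sq_nonneg (s * t - 1 / 3), sq_nonneg (s - t), sq_nonneg (s + t + 9 / 8)]

lemma atn_lin (a x : ℝ) :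
    |arctan x - arctan a - 1 / (1 + a ^ 2) * (x - a)| ≤ 1 / 3 * (x - a) ^ 2 := by
  have := taylor (M := 2 / 3) hasDerivAt_arctan (fun t => atn_lip a t) x
  rwa [show (2 / 3 / 2 : ℝ) = 1 / 3 by norm_num] at this

noncomputable def sT (x : ℝ) : ℝ :=
  x * (121645100408832000 - 20274183401472000 * x ^ 2 + 1013709170073600 * x ^ 4
    - 24135932620800 * x ^ 6 + 335221286400 * x ^ 8 - 3047466240 * x ^ 10 + 19535040 * x ^ 12
    - 93024 * x ^ 14 + 342 * x ^ 16 - x ^ 18) / 121645100408832000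

noncomputable def cT (x : ℝ) : ℝ :=
  (6402373705728000 - 3201186852864000 * x ^ 2 + 266765571072000 * x ^ 4
    - 8892185702400 * x ^ 6 + 158789030400 * x ^ 8 - 1764322560 * x ^ 10 + 13366080 * x ^ 12
    - 73440 * x ^ 14 + 306 * x ^ 16 - x ^ 18) / 6402373705728000

noncomputable def aT (x : ℝ) : ℝ :=
  x * (29993483520 - 9995905920 * x ^ 2 + 5973327360 * x ^ 4 - 4128284160 * x ^ 6
    + 2788065280 * x ^ 8 - 1543127040 * x ^ 10 + 567705600 * x ^ 12 - 98402304 * x ^ 14)
    / 29993528565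

lemma exp_T {x : ℝ} (hx : |x| ≤ 3.3) :
    |cos x - cT x| ≤ 98 / 4294967296 ∧ |sin x - sT x| ≤ 98 / 4294967296 := by
  have hn : ‖(x : ℂ) * Complex.I‖ = |x| := by simp
  have h := Complex.exp_bound' (x := x * Complex.I) (n := 20) (by rw [hn]; norm_num; linarith)
  have e : ∑ m ∈ Finset.range 20, ((x : ℂ) * Complex.I) ^ m / (m.factorial : ℂ) =
      (cT x : ℂ) + (sT x : ℂ) * Complex.I := by
    simp only [Finset.sum_range_succ, Finset.sum_range_zero, mul_pow, Nat.factorial, cT, sT]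
    push_cast
    norm_num [Complex.I_pow_eq_pow_mod]
    rw [Complex.I_sq, Complex.I_pow_three]
    ring
  have b : ‖(x : ℂ) * Complex.I‖ ^ 20 / ((20 : ℕ).factorial : ℝ) * 2 ≤ 98 / 4294967296 := by
    rw [hn]
    have := pow_le_pow_left₀ (abs_nonneg x) hx 20
    norm_num [Nat.factorial] at this ⊢
    linarith
  rw [e] at h
  have h1 := (Complex.abs_re_le_norm _).trans (h.trans b)
  have h2 := (Complex.abs_im_le_norm _).trans (h.trans b)
  simp only [Complex.sub_re, Complex.exp_ofReal_mul_I_re, Complex.add_re, Complex.ofReal_re,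
    Complex.mul_re, Complex.I_re, mul_zero, Complex.ofReal_im, Complex.I_im, mul_one, sub_self,
    add_zero, Complex.sub_im, Complex.exp_ofReal_mul_I_im, Complex.add_im, Complex.mul_im,
    zero_add] at h1 h2
  exact ⟨h1, h2⟩

lemma atn_T {x : ℝ} (hx : |x| ≤ 1) : |arctan x - aT x| ≤ |x| / 665857 := by
  have hd : ∀ t, HasDerivAt (fun t => arctan t - aT t)
      ((2 * (2 * (2 * (2 * t ^ 2 - 1) ^ 2 - 1) ^ 2 - 1) ^ 2 - 1) / 665857 / (1 + t ^ 2)) t :=
    fun t => by
    have h1 : HasDerivAt aT ((665856 - 665728 * t ^ 2 + 663040 * t ^ 4 - 641536 * t ^ 6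
        + 557056 * t ^ 8 - 376832 * t ^ 10 + 163840 * t ^ 12 - 32768 * t ^ 14) / 665857) t := by
      have e : aT = fun x => (29993483520 * x ^ 1 - 9995905920 * x ^ 3 + 5973327360 * x ^ 5
          - 4128284160 * x ^ 7 + 2788065280 * x ^ 9 - 1543127040 * x ^ 11 + 567705600 * x ^ 13
          - 98402304 * x ^ 15) / 29993528565 := by
        funext x
        unfold aT
        ring
      rw [e]
      have p := fun (n : ℕ) (c : ℝ) => (hasDerivAt_pow n t).const_mul c
      refine (((((((((p 1 _).sub (p 3 _)).add (p 5 _)).sub (p 7 _)).add (p 9 _)).sub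
        (p 11 _)).add (p 13 _)).sub (p 15 _)).div_const _).congr_deriv ?_
      norm_num
      ring
    refine ((hasDerivAt_arctan t).sub h1).congr_deriv ?_
    have : 0 < 1 + t ^ 2 := by positivity
    field_simp
    ring
  have hb : ∀ t ∈ Icc (-1 : ℝ) 1,
      ‖(2 * (2 * (2 * (2 * t ^ 2 - 1) ^ 2 - 1) ^ 2 - 1) ^ 2 - 1) / 665857 / (1 + t ^ 2)‖
        ≤ 1 / 665857 := fun t ht => by
    have st : ∀ s : ℝ, |s| ≤ 1 → |2 * s ^ 2 - 1| ≤ 1 := fun s hs => by
      have := abs_le.1 hs
      rw [abs_le]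
      constructor <;> nlinarith [this.1, this.2]
    have h4 := st _ (st _ (st _ (st t (abs_le.2 ht))))
    have h1 : 1 ≤ 1 + t ^ 2 := by nlinarith
    rw [Real.norm_eq_abs, abs_div, abs_div, abs_of_pos (by positivity : (0 : ℝ) < 1 + t ^ 2),
      abs_of_pos (by norm_num : (0 : ℝ) < 665857)]
    exact (div_le_self (by positivity) h1).trans (by gcongr)
  have := (convex_Icc (-1 : ℝ) 1).norm_image_sub_le_of_norm_hasDerivWithin_le
    (fun t _ => (hd t).hasDerivWithinAt) hb (x := 0) (y := x) (by simp) (abs_le.1 hx)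
  simp only [arctan_zero, aT, zero_mul, zero_div, sub_zero, Real.norm_eq_abs] at this
  rw [aT]
  linarith

end Pool.Agent.MP_5cfbf6_gt.P7.AA
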