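import Pool.Agent.MP_5cfbf6_gt.P7.AAD
import Pool.Agent.MP_5cfbf6_gt.P7.AAT

set_option autoImplicit false

namespace Pool.Agent.MP_5cfbf6_gt.P7.AA

open Real Set

structure Eps where
  x : ℝ
  y : ℝ
  z : ℝ
  hx : |x| ≤ 1
  hy : |y| ≤ 1
  hz : |z| ≤ 1

def Enc (E : Eps) (x : ℝ) (A : AF) : Prop :=
  |x * 4294967296 - (A.c + (A.a * E.x + A.b * E.y + A.d * E.z))| ≤ A.r

lemma idiv (x : ℤ) {d : ℤ} (hd : 0 < d) :
    ∃ t : ℝ, 0 ≤ t ∧ t ≤ 1 ∧ ((x / d : ℤ) : ℝ) = x / d - t := by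
  have h0 : (0 : ℝ) < d := by exact_mod_cast hd
  have h1 : ((d * (x / d) + x % d : ℤ) : ℝ) = x := by rw [Int.mul_ediv_add_emod]
  have h2 : (0 : ℝ) ≤ (x % d : ℤ) := by exact_mod_cast Int.emod_nonneg x hd.ne'
  have h3 : ((x % d : ℤ) : ℝ) ≤ d := by exact_mod_cast (Int.emod_lt_of_pos x hd).le
  refine ⟨(x % d : ℤ) / d, by positivity, (div_le_one h0).2 h3, ?_⟩
  push_cast at h1
  field_simp
  linarith

lemma ishift (x : ℤ) (n : ℕ) :
    ∃ t : ℝ, 0 ≤ t ∧ t ≤ 1 ∧ ((Int.shiftRight x n : ℤ) : ℝ) = x / 2 ^ n - t := by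
  obtain ⟨t, h1, h2, h3⟩ := idiv x (d := ((2 ^ n : ℕ) : ℤ)) (by positivity)
  refine ⟨t, h1, h2, ?_⟩
  rw [← Int.shiftRight_eq, Int.shiftRight_eq_div_pow, h3]
  push_cast
  rfl

lemma sr_spec (x : ℤ) : ∃ t : ℝ, 0 ≤ t ∧ t ≤ 1 ∧ ((sr x : ℤ) : ℝ) = x / 4294967296 - t := by
  obtain ⟨t, h1, h2, h3⟩ := ishift x 32
  exact ⟨t, h1, h2, by rw [sr, h3]; norm_num⟩

lemma ndiv (x : ℕ) {d : ℕ} (hd : 0 < d) :
    ((Nat.div x d : ℕ) : ℝ) ≤ x / d ∧ (x : ℝ) / d ≤ (Nat.div x d : ℕ) + 1 := by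
  obtain ⟨t, h1, h2, h3⟩ := idiv x (d := d) (by exact_mod_cast hd)
  have : ((Nat.div x d : ℕ) : ℝ) = (((x : ℤ) / (d : ℤ) : ℤ) : ℝ) := by
    rw [← Int.natCast_div]
    rfl
  rw [this, h3]
  push_cast
  constructor <;> linarith

lemma nshift (x n : ℕ) : (x : ℝ) / 2 ^ n ≤ (Nat.shiftRight x n : ℕ) + 1 := by
  have := (ndiv x (d := 2 ^ n) (by positivity)).2
  rw [show Nat.shiftRight x n = Nat.div x (2 ^ n) from Nat.shiftRight_eq_div_pow x n]
  exact_mod_cast this

lemma nr_spec (x : ℕ) : (x : ℝ) / 4294967296 ≤ (nr x : ℕ) + 1 := by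
  have := nshift x 32
  norm_num at this
  exact this

lemma cast_natAbs (x : ℤ) : ((x.natAbs : ℕ) : ℝ) = |(x : ℝ)| := by
  rw [Nat.cast_natAbs, Int.cast_abs]

variable {E : Eps} {x y : ℝ} {A B : AF}

lemma abs_mul_eps {a e : ℝ} (he : |e| ≤ 1) : |a * e| ≤ |a| := by
  rw [abs_mul]
  exact mul_le_of_le_one_right (abs_nonneg _) he

lemma th_eps {t e : ℝ} (h0 : 0 ≤ t) (h1 : t ≤ 1) (he : |e| ≤ 1) : |t * e| ≤ 1 :=
  (abs_mul_eps he).trans (by rwa [abs_of_nonneg h0])

lemma Enc.rad (h : Enc E x A) : |x * 4294967296 - A.c| ≤ rad A := by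
  have h1 := abs_le.1 (abs_mul_eps (a := A.a) E.hx)
  have h2 := abs_le.1 (abs_mul_eps (a := A.b) E.hy)
  have h3 := abs_le.1 (abs_mul_eps (a := A.d) E.hz)
  have h4 := abs_le.1 h
  simp only [AA.rad, Nat.add_eq, Nat.cast_add, cast_natAbs]
  rw [abs_le]
  constructor <;> linarith [h1.1, h1.2, h2.1, h2.2, h3.1, h3.2, h4.1, h4.2]

lemma enc_cst {c : ℤ} {r : ℕ} (h : |x * 4294967296 - c| ≤ r) : Enc E x (cst c r) := by
  simpa [Enc, cst] using h

lemma Enc.add (h : Enc E x A) (h' : Enc E y B) : Enc E (x + y) (add A B) := by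
  have h1 := abs_le.1 h
  have h2 := abs_le.1 h'
  simp only [Enc, AA.add, Int.add_def, Nat.add_eq, Nat.cast_add, Int.cast_add]
  rw [abs_le]
  constructor <;> linarith [h1.1, h1.2, h2.1, h2.2]

lemma isub (a b : ℤ) : Int.sub a b = a - b := rfl

lemma ineg (a : ℤ) : Int.neg a = -a := rfl

lemma Enc.sub (h : Enc E x A) (h' : Enc E y B) : Enc E (x - y) (sub A B) := by
  have h1 := abs_le.1 h
  have h2 := abs_le.1 h'
  simp only [Enc, AA.sub, isub, Nat.add_eq, Nat.cast_add, Int.cast_sub]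
  rw [abs_le]
  constructor <;> linarith [h1.1, h1.2, h2.1, h2.2]

lemma Enc.addc (h : Enc E x A) : Enc E (1 + x) (addc one A) := by
  have h1 := abs_le.1 h
  simp only [Enc, AA.addc, one, Int.add_def, Int.cast_add, Int.cast_ofNat]
  rw [abs_le]
  constructor <;> linarith [h1.1, h1.2]

lemma Enc.subc (h : Enc E x A) : Enc E (1 - x) (subc one A) := by
  have h1 := abs_le.1 h
  simp only [Enc, AA.subc, one, isub, ineg, Int.cast_sub, Int.cast_neg, Int.cast_ofNat]
  rw [abs_le]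
  constructor <;> linarith [h1.1, h1.2]

lemma Enc.mul (h : Enc E x A) (h' : Enc E y B) : Enc E (x * y) (mul A B) := by
  obtain ⟨t0, a0, b0, e0⟩ := sr_spec (Int.mul A.c B.c)
  obtain ⟨t1, a1, b1, e1⟩ := sr_spec (Int.add (Int.mul A.c B.a) (Int.mul B.c A.a))
  obtain ⟨t2, a2, b2, e2⟩ := sr_spec (Int.add (Int.mul A.c B.b) (Int.mul B.c A.b))
  obtain ⟨t3, a3, b3, e3⟩ := sr_spec (Int.add (Int.mul A.c B.d) (Int.mul B.c A.d))
  have n := nr_spec (Nat.add (Nat.add (Nat.mul A.c.natAbs B.r) (Nat.mul B.c.natAbs A.r))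
      (Nat.mul (AA.rad A) (AA.rad B)))
  have p1 : |(A.c : ℝ) * (y * 4294967296 - (B.c + (B.a * E.x + B.b * E.y + B.d * E.z)))|
      ≤ |(A.c : ℝ)| * B.r := by
    rw [abs_mul]; exact mul_le_mul_of_nonneg_left h' (abs_nonneg _)
  have p2 : |(B.c : ℝ) * (x * 4294967296 - (A.c + (A.a * E.x + A.b * E.y + A.d * E.z)))|
      ≤ |(B.c : ℝ)| * A.r := by
    rw [abs_mul]; exact mul_le_mul_of_nonneg_left h (abs_nonneg _)
  have p3 : |(x * 4294967296 - A.c) * (y * 4294967296 - B.c)| ≤ (AA.rad A : ℝ) * AA.rad B := by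
    rw [abs_mul]; exact mul_le_mul h.rad h'.rad (abs_nonneg _) (Nat.cast_nonneg _)
  have q1 := abs_le.1 (th_eps a1 b1 E.hx)
  have q2 := abs_le.1 (th_eps a2 b2 E.hy)
  have q3 := abs_le.1 (th_eps a3 b3 E.hz)
  simp only [Enc, AA.mul]
  rw [e0, e1, e2, e3]
  simp only [Int.add_def, Int.mul_def, Nat.add_eq, Nat.mul_eq, Nat.cast_add, Nat.cast_mul,
    Int.cast_add, Int.cast_mul, cast_natAbs, Nat.cast_ofNat] at n ⊢
  rw [abs_le] at p1 p2 p3 ⊢
  constructor <;> linarith [p1.1, p1.2, p2.1, p2.2, p3.1, p3.2, q1.1, q1.2, q2.1, q2.2, q3.1, q3.2]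

lemma Enc.lin (h : Enc E x A) {c k : ℤ} {e : ℕ}
    (H : |y * 4294967296 - c - k / 4294967296 * (x * 4294967296 - A.c)| ≤ e) :
    Enc E y (lin A c k e) := by
  obtain ⟨t1, a1, b1, e1⟩ := sr_spec (Int.mul k A.a)
  obtain ⟨t2, a2, b2, e2⟩ := sr_spec (Int.mul k A.b)
  obtain ⟨t3, a3, b3, e3⟩ := sr_spec (Int.mul k A.d)
  have n := nr_spec (Nat.mul k.natAbs A.r)
  have p1 : |(k : ℝ) * (x * 4294967296 - (A.c + (A.a * E.x + A.b * E.y + A.d * E.z)))|
      ≤ |(k : ℝ)| * A.r := by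
    rw [abs_mul]; exact mul_le_mul_of_nonneg_left h (abs_nonneg _)
  have q1 := abs_le.1 (th_eps a1 b1 E.hx)
  have q2 := abs_le.1 (th_eps a2 b2 E.hy)
  have q3 := abs_le.1 (th_eps a3 b3 E.hz)
  simp only [Enc, AA.lin]
  rw [e1, e2, e3]
  simp only [Int.mul_def, Nat.add_eq, Nat.mul_eq, Nat.cast_add, Nat.cast_mul,
    Int.cast_mul, cast_natAbs, Nat.cast_ofNat] at n ⊢
  rw [abs_le] at p1 H ⊢
  constructor <;> linarith [p1.1, p1.2, H.1, H.2, q1.1, q1.2, q2.1, q2.2, q3.1, q3.2]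

lemma Enc.smul (h : Enc E x A) {l : ℝ} {k : ℤ} {e : ℕ} (H : |l * 4294967296 - k| ≤ e) :
    Enc E (l * x) (smul k e A) := by
  refine h.lin ?_
  obtain ⟨t, a, b, e1⟩ := sr_spec (Int.mul k A.c)
  have n := nr_spec (Nat.mul e (Nat.add A.c.natAbs (AA.rad A)))
  have h1 : |x * 4294967296| ≤ |(A.c : ℝ)| + AA.rad A := by
    have := abs_add_le (A.c : ℝ) (x * 4294967296 - A.c)
    rw [add_sub_cancel] at this
    linarith [h.rad]
  have p : |(l * 4294967296 - k) * (x * 4294967296)| ≤ e * (|(A.c : ℝ)| + AA.rad A) := by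
    rw [abs_mul]; exact mul_le_mul H h1 (abs_nonneg _) (Nat.cast_nonneg _)
  rw [e1]
  simp only [Int.mul_def, Nat.add_eq, Nat.mul_eq, Nat.cast_add, Nat.cast_mul,
    Int.cast_mul, cast_natAbs, Nat.cast_ofNat] at n ⊢
  rw [abs_le] at p ⊢
  constructor <;> linarith [p.1, p.2]

lemma inv_core {X p q k lo e c n : ℝ} (hlo : 0 < lo) (hX : lo ≤ X) (hp : 0 < p)
    (hq : |X - p| ≤ q) (hk1 : k ≤ 4294967296 ^ 3 / (p * p))
    (hk2 : 4294967296 ^ 3 / (p * p) ≤ k + 1) (he : (k + 1) * (q * q) / 2 ^ 33 / lo ≤ e)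
    (hc1 : c ≤ 4294967296 ^ 2 / p) (hc2 : 4294967296 ^ 2 / p ≤ c + 1)
    (hn : q / 4294967296 ≤ n + 1) :
    |4294967296 ^ 2 / X - (c + e) - -k / 4294967296 * (X - p)| ≤ e + n + 3 := by
  have hX0 : 0 < X := hlo.trans_le hX
  have e1 : 4294967296 ^ 2 / X = 4294967296 ^ 2 / p
      - 4294967296 ^ 3 / (p * p) / 4294967296 * (X - p)
      + 4294967296 ^ 3 / (p * p) * ((X - p) * (X - p)) / 4294967296 / X := by
    field_simp
    ring
  have r0 : 0 ≤ 4294967296 ^ 3 / (p * p) * ((X - p) * (X - p)) / 4294967296 / X := by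
    have := mul_self_nonneg (X - p)
    positivity
  have r1 : 4294967296 ^ 3 / (p * p) * ((X - p) * (X - p)) / 4294967296 / X ≤ 2 * e := by
    have h1 : (X - p) * (X - p) ≤ q * q := by
      rw [← abs_mul_abs_self]
      exact mul_self_le_mul_self (abs_nonneg _) hq
    have h2 : 4294967296 ^ 3 / (p * p) * ((X - p) * (X - p)) ≤ (k + 1) * (q * q) :=
      mul_le_mul hk2 h1 (mul_self_nonneg _) (le_trans (by positivity) hk2)
    have h0 : 0 ≤ (k + 1) * (q * q) := le_trans (mul_nonneg (by positivity) (mul_self_nonneg _)) h2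
    calc _ ≤ (k + 1) * (q * q) / 4294967296 / lo := by gcongr
      _ = 2 * ((k + 1) * (q * q) / 2 ^ 33 / lo) := by ring
      _ ≤ 2 * e := by linarith
  have r2 : |(4294967296 ^ 3 / (p * p) - k) * (X - p)| ≤ 1 * q := by
    rw [abs_mul]
    exact mul_le_mul (abs_le.2 ⟨by linarith, by linarith⟩) hq (abs_nonneg _) zero_le_one
  rw [e1]
  rw [abs_le] at r2 ⊢
  constructor <;> linarith [r2.1, r2.2]

lemma Enc.inv (h : Enc E x A) {L : ℕ} (hL : 0 < L) (hx : (L : ℝ) ≤ x * 4294967296) :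
    Enc E x⁻¹ (inv A L) := by
  have hL' : (0 : ℝ) < L := by exact_mod_cast hL
  have hx0 : 0 < x := by nlinarith
  have ex : x⁻¹ * 4294967296 = 4294967296 ^ 2 / (x * 4294967296) := by field_simp
  unfold AA.inv
  cases hb : Nat.ble L A.c.toNat
  · refine enc_cst ?_
    have := (ndiv 18446744073709551616 hL).2
    have h2 : 4294967296 ^ 2 / (x * 4294967296) ≤ (4294967296 : ℝ) ^ 2 / L := by gcongr
    rw [ex, Int.cast_zero, sub_zero, abs_of_pos (by positivity)]
    simp only [Nat.add_eq, Nat.cast_add, Nat.cast_one]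
    norm_num at this h2 ⊢
    linarith
  · have hp : L ≤ A.c.toNat := Nat.le_of_ble_eq_true hb
    have hp0 : 0 < A.c.toNat := hL.trans_le hp
    have hc : ((A.c.toNat : ℕ) : ℝ) = A.c := by
      have : ((A.c.toNat : ℕ) : ℤ) = A.c := Int.toNat_of_nonneg (by omega)
      exact_mod_cast this
    have hr := h.rad
    rw [← hc] at hr
    simp only [cond_true, inv1, inv2]
    refine h.lin ?_
    rw [← hc, ex]
    generalize A.c.toNat = p at *
    generalize AA.rad A = q at *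
    obtain ⟨k1, k2⟩ := ndiv 79228162514264337593543950336 (d := Nat.mul p p) (Nat.mul_pos hp0 hp0)
    generalize Nat.div 79228162514264337593543950336 (Nat.mul p p) = k at *
    obtain ⟨c1, c2⟩ := ndiv 18446744073709551616 hp0
    have hl : 0 < cond (Nat.ble (Nat.add L q) p) (Nat.sub p q) L ∧
        ((cond (Nat.ble (Nat.add L q) p) (Nat.sub p q) L : ℕ) : ℝ) ≤ x * 4294967296 := by
      cases hb' : Nat.ble (Nat.add L q) p
      · exact ⟨hL, hx⟩
      · have h1 : L + q ≤ p := Nat.le_of_ble_eq_true hb'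
        refine ⟨by simp only [cond_true, Nat.sub_eq]; omega, ?_⟩
        simp only [cond_true, Nat.sub_eq]
        rw [Nat.cast_sub (by omega)]
        linarith [(abs_le.1 hr).1]
    generalize cond (Nat.ble (Nat.add L q) p) (Nat.sub p q) L = lo at *
    have s1 := nshift (Nat.mul (Nat.add k 1) (Nat.mul q q)) 33
    have hlo : (0 : ℝ) < lo := by exact_mod_cast hl.1
    have s3 : ((Nat.mul (Nat.add k 1) (Nat.mul q q) : ℕ) : ℝ) / 2 ^ 33 / lo ≤
        (Nat.div (Nat.shiftRight (Nat.mul (Nat.add k 1) (Nat.mul q q)) 33) lo : ℕ) + 1 := by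
      have e : Nat.div (Nat.shiftRight (Nat.mul (Nat.add k 1) (Nat.mul q q)) 33) lo =
          Nat.div (Nat.mul (Nat.add k 1) (Nat.mul q q)) (2 ^ 33 * lo) := by
        rw [show Nat.shiftRight (Nat.mul (Nat.add k 1) (Nat.mul q q)) 33 = _ from
          Nat.shiftRight_eq_div_pow _ 33]
        exact Nat.div_div_eq_div_mul _ _ _
      have := (ndiv (Nat.mul (Nat.add k 1) (Nat.mul q q)) (d := 2 ^ 33 * lo)
        (Nat.mul_pos (by norm_num) hl.1)).2
      rw [e, div_div]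
      exact_mod_cast this
    generalize Nat.div (Nat.shiftRight (Nat.mul (Nat.add k 1) (Nat.mul q q)) 33) lo = e at *
    have := inv_core (k := k) (e := e + 1) (c := (Nat.div 18446744073709551616 p : ℕ))
      (n := (nr q : ℕ)) hlo hl.2 (by exact_mod_cast hp0) hr
      (by simp only [Nat.mul_eq, Nat.cast_mul] at k1; norm_num at k1 ⊢; exact k1)
      (by simp only [Nat.mul_eq, Nat.cast_mul] at k2; norm_num at k2 ⊢; exact k2)
      (by simpa only [Nat.mul_eq, Nat.add_eq, Nat.cast_mul, Nat.cast_add, Nat.cast_one] using s3)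
      (by norm_num at c1 ⊢; exact c1) (by norm_num at c2 ⊢; exact c2) (nr_spec q)
    simpa only [Nat.add_eq, Nat.cast_add, Nat.cast_one, Nat.cast_ofNat, ineg, Int.ofNat_eq_natCast,
      Int.cast_natCast, Int.cast_neg, Int.cast_add, Int.cast_one] using this

lemma half_ge (n : ℕ) : (n : ℝ) ≤ 2 * (Nat.shiftRight n 1 : ℕ) + 1 := by
  have : n ≤ 2 * Nat.shiftRight n 1 + 1 := by
    rw [show Nat.shiftRight n 1 = n / 2 ^ 1 from Nat.shiftRight_eq_div_pow n 1]
    omega
  exact_mod_cast this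

lemma sub_ge (a b : ℕ) : (a : ℝ) - b ≤ (Nat.sub a b : ℕ) := by
  have : a ≤ Nat.sub a b + b := by simp only [Nat.sub_eq]; omega
  have : (a : ℝ) ≤ (Nat.sub a b : ℕ) + b := by exact_mod_cast this
  linarith

lemma Enc.relu (h : Enc E x A) : Enc E (max 0 x) (relu A) := by
  have hr := abs_le.1 h.rad
  have h1 := abs_le.1 h
  unfold AA.relu
  split
  · rename_i n hn
    have a1 := half_ge (Nat.add (Nat.sub (AA.rad A) n) 1)
    have a2 := sub_ge (AA.rad A) n
    have hc : (A.c : ℝ) = n := by rw [hn]; simp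
    generalize Nat.shiftRight (Nat.add (Nat.sub (AA.rad A) n) 1) 1 = m at *
    have m0 : (0 : ℝ) ≤ m := Nat.cast_nonneg m
    simp only [Enc, relu2, Int.add_def, Nat.add_eq, Nat.cast_add, Int.cast_add,
      Int.ofNat_eq_natCast, Int.cast_natCast, Nat.cast_one] at a1 ⊢
    rw [abs_le]
    rcases le_total 0 x with hx | hx
    · rw [max_eq_right hx]
      constructor <;> linarith [h1.1, h1.2]
    · rw [max_eq_left hx]
      constructor <;> linarith [h1.1, h1.2, hr.1]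
  · rename_i n hn
    refine enc_cst ?_
    have a1 := half_ge (Nat.sub (AA.rad A) n)
    have a2 := sub_ge (AA.rad A) n
    have hc : (A.c : ℝ) = -(n + 1) := by rw [hn]; simp [Int.negSucc_eq]
    generalize Nat.shiftRight (Nat.sub (AA.rad A) n) 1 = m at *
    have m0 : (0 : ℝ) ≤ m := Nat.cast_nonneg m
    simp only [Int.ofNat_eq_natCast, Int.cast_natCast]
    rw [abs_le]
    rcases le_total 0 x with hx | hx
    · rw [max_eq_right hx]
      constructor <;> linarith [hr.2]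
    · rw [max_eq_left hx]
      constructor <;> linarith

lemma cast_sq (n : ℤ) : ((sq n : ℕ) : ℝ) = (n : ℝ) ^ 2 := by
  simp only [sq, Nat.mul_eq, Nat.cast_mul, cast_natAbs, abs_mul_abs_self]
  ring

lemma two_div (N : ℤ) (s : ℕ) {d : ℤ} (hd : 1 ≤ d) :
    |((Int.ediv (Int.shiftRight N s) d : ℤ) : ℝ) - N / 2 ^ s / d| ≤ 2 := by
  obtain ⟨t, a, b, e⟩ := ishift N s
  obtain ⟨t', a', b', e'⟩ := idiv (Int.shiftRight N s) (d := d) (by omega)
  have hd' : (1 : ℝ) ≤ d := by exact_mod_cast hd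
  have h1 : t / d ≤ 1 := (div_le_self a hd').trans b
  have h2 : 0 ≤ t / d := by positivity
  rw [show Int.ediv (Int.shiftRight N s) d = Int.shiftRight N s / d from rfl, e', e, sub_div,
    abs_le]
  constructor <;> linarith

set_option exponentiation.threshold 600 in
lemma sinF_spec {n : ℤ} (hn : n.natAbs ≤ 14173392076) :
    |sin (n / 4294967296) * 4294967296 - sinF n| ≤ 100 ∧
      |cos (n / 4294967296) * 4294967296 - cosF n| ≤ 100 := by
  have h0 : |(n : ℝ)| ≤ 14173392076 := by rw [← cast_natAbs]; exact_mod_cast hn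
  obtain ⟨h1, h2⟩ := exp_T (x := n / 4294967296) (by
    rw [abs_div, abs_of_pos (by norm_num : (0 : ℝ) < 4294967296)]; linarith)
  have a1 := two_div (Int.mul n (sinP (sq n))) 576 (d := 121645100408832000) (by norm_num)
  have a2 := two_div (cosP (sq n)) 544 (d := 6402373705728000) (by norm_num)
  have e1 : ((Int.mul n (sinP (sq n)) : ℤ) : ℝ) / 2 ^ 576 / ((121645100408832000 : ℤ) : ℝ) =
      sT (n / 4294967296) * 4294967296 := by
    simp only [sinP, AA.hn, Int.subNatNat_eq_coe, Int.mul_def, Nat.add_eq, Nat.mul_eq, sT]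
    push_cast
    rw [cast_sq]
    ring
  have e2 : ((cosP (sq n) : ℤ) : ℝ) / 2 ^ 544 / ((6402373705728000 : ℤ) : ℝ) =
      cT (n / 4294967296) * 4294967296 := by
    simp only [cosP, AA.hn, Int.subNatNat_eq_coe, Nat.add_eq, Nat.mul_eq, cT]
    push_cast
    rw [cast_sq]
    ring
  rw [e1] at a1
  rw [e2] at a2
  unfold sinF cosF
  rw [abs_le] at h1 h2 a1 a2
  constructor <;> rw [abs_le] <;> constructor <;>
    linarith [h1.1, h1.2, h2.1, h2.2, a1.1, a1.2, a2.1, a2.2]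

lemma lin_core {f f0 g0 X c F G q : ℝ}
    (h : |f - f0 - g0 * (X / 4294967296 - c / 4294967296)| ≤
      1 / 2 * (X / 4294967296 - c / 4294967296) ^ 2)
    (hF : |f0 * 4294967296 - F| ≤ 100) (hG : |g0 * 4294967296 - G| ≤ 100) (hq : |X - c| ≤ q) :
    |f * 4294967296 - F - G / 4294967296 * (X - c)| ≤
      q * q / 2 ^ 33 + q * 100 / 4294967296 + 100 := by
  have h1 : (X - c) * (X - c) ≤ q * q := by
    rw [← abs_mul_abs_self]
    exact mul_self_le_mul_self (abs_nonneg _) hq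
  have h2 : |(g0 * 4294967296 - G) * (X - c)| ≤ 100 * q := by
    rw [abs_mul]; exact mul_le_mul hG hq (abs_nonneg _) (by norm_num)
  rw [abs_le] at h hF h2 ⊢
  constructor <;> nlinarith [h.1, h.2, hF.1, hF.2, h2.1, h2.2]

lemma er2_spec (q : ℕ) : (q : ℝ) * q / 2 ^ 33 + q * 100 / 4294967296 + 100 ≤ er2 q := by
  have h1 := nshift (Nat.mul q q) 33
  have h2 := nr_spec (Nat.mul q 100)
  simp only [er2, Nat.add_eq, Nat.mul_eq, Nat.cast_add, Nat.cast_mul, Nat.cast_ofNat] at *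
  linarith

lemma Enc.sin (h : Enc E x A) : Enc E (sin x) (asin A) := by
  unfold asin
  cases hb : Nat.ble A.c.natAbs 14173392076
  · refine enc_cst ?_
    rw [Int.cast_zero, sub_zero, abs_mul]
    norm_num
    exact abs_sin_le_one x
  · obtain ⟨h1, h2⟩ := sinF_spec (Nat.le_of_ble_eq_true hb)
    refine h.lin ((lin_core ?_ h1 h2 h.rad).trans (er2_spec _))
    rw [mul_div_cancel_right₀ x (by norm_num)]
    exact sin_lin _ _

lemma Enc.cos (h : Enc E x A) : Enc E (cos x) (acos A) := by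
  unfold acos
  cases hb : Nat.ble A.c.natAbs 14173392076
  · refine enc_cst ?_
    rw [Int.cast_zero, sub_zero, abs_mul]
    norm_num
    exact abs_cos_le_one x
  · obtain ⟨h1, h2⟩ := sinF_spec (Nat.le_of_ble_eq_true hb)
    refine h.lin ((lin_core (g0 := -Real.sin (A.c / 4294967296)) ?_ h2 ?_ h.rad).trans
      (er2_spec _))
    · rw [mul_div_cancel_right₀ x (by norm_num)]
      exact cos_lin _ _
    · rw [← abs_neg, ineg, Int.cast_neg]
      refine le_of_eq_of_le (congrArg _ ?_) h1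
      ring

set_option exponentiation.threshold 600 in
lemma Enc.atn (h : Enc E x A) : Enc E (arctan x) (aatn A) := by
  unfold aatn
  cases hb : Nat.ble A.c.natAbs 4294967296
  · refine enc_cst ?_
    have h1 := arctan_lt_pi_div_two x
    have h2 := neg_pi_div_two_lt_arctan x
    have := pi_lt_d20
    rw [Int.cast_zero, sub_zero, abs_le]
    constructor <;> norm_num at this ⊢ <;> linarith
  · refine h.lin ?_
    have hn : A.c.natAbs ≤ 4294967296 := Nat.le_of_ble_eq_true hb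
    have h0 : |(A.c : ℝ)| ≤ 4294967296 := by rw [← cast_natAbs]; exact_mod_cast hn
    have hr := h.rad
    generalize A.c = n at *
    generalize AA.rad A = q at *
    have ab : |(n : ℝ) / 4294967296| = |(n : ℝ)| / 4294967296 := by
      rw [abs_div, abs_of_pos (by norm_num : (0 : ℝ) < 4294967296)]
    have t1 := atn_T (x := n / 4294967296) (by rw [ab]; linarith)
    have t2 := atn_lin (n / 4294967296) x
    have a1 := two_div (Int.mul n (atP (sq n))) 448 (d := 29993528565) (by norm_num)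
    have e1 : ((Int.mul n (atP (sq n)) : ℤ) : ℝ) / 2 ^ 448 / ((29993528565 : ℤ) : ℝ) =
        aT (n / 4294967296) * 4294967296 := by
      simp only [atP, AA.hn, Int.subNatNat_eq_coe, Int.mul_def, Nat.add_eq, Nat.mul_eq, aT]
      push_cast
      rw [cast_sq]
      ring
    rw [e1] at a1
    obtain ⟨k1, k2⟩ := ndiv 79228162514264337593543950336
      (d := Nat.add 18446744073709551616 (sq n)) (by simp only [Nat.add_eq]; omega)
    have e2 : ((79228162514264337593543950336 : ℕ) : ℝ) /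
        ((Nat.add 18446744073709551616 (sq n) : ℕ) : ℝ) =
        1 / (1 + ((n : ℝ) / 4294967296) ^ 2) * 4294967296 := by
      simp only [Nat.add_eq, Nat.cast_add, cast_sq, Nat.cast_ofNat]
      field_simp
      norm_num
      ring
    rw [e2] at k1 k2
    generalize Nat.div 79228162514264337593543950336 (Nat.add 18446744073709551616 (sq n)) = k at *
    generalize 1 / (1 + ((n : ℝ) / 4294967296) ^ 2) = g at *
    have b1 := (ndiv (Nat.mul q q) (d := 12884901888) (by norm_num)).2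
    have b2 := nr_spec q
    have b3 := (ndiv n.natAbs (d := 665857) (by norm_num)).2
    have h1 : (x * 4294967296 - n) * (x * 4294967296 - n) ≤ q * q := by
      rw [← abs_mul_abs_self]
      exact mul_self_le_mul_self (abs_nonneg _) hr
    have h2 : |(g * 4294967296 - k) * (x * 4294967296 - n)| ≤ 1 * q := by
      rw [abs_mul]
      exact mul_le_mul (abs_le.2 ⟨by linarith, by linarith⟩) hr (abs_nonneg _) zero_le_one
    unfold atF
    rw [ab] at t1
    simp only [Nat.add_eq, Nat.mul_eq, Nat.cast_add, Nat.cast_mul, Nat.cast_ofNat, cast_natAbs,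
      Int.ofNat_eq_natCast, Int.cast_natCast] at b1 b3 ⊢
    rw [abs_le] at t1 t2 a1 h2 ⊢
    constructor <;> nlinarith [t1.1, t1.2, t2.1, t2.2, a1.1, a1.2, h2.1, h2.2]

lemma Enc.ge (h : Enc E x A) {m : ℤ} (H : ge A m = true) : (m : ℝ) ≤ x * 4294967296 := by
  have h1 : m + (AA.rad A : ℤ) ≤ A.c := of_decide_eq_true H
  have h2 : (m : ℝ) + AA.rad A ≤ A.c := by exact_mod_cast h1
  linarith [(abs_le.1 h.rad).1]

end Pool.Agent.MP_5cfbf6_gt.P7.AA
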