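import Pool.Agent.MP_5cfbf6_gt.P7.Base

set_option autoImplicit false
set_option linter.unusedSectionVars false

namespace Pool.Agent.MP_5cfbf6_gt.P7

open Set Filter Topology Real MeasureTheory

lemma cover_Angle {ι : Type} (J : Finset ι) (c r : ι → ℝ) (hr : ∀ j ∈ J, 0 ≤ r j)
    (H : ∀ th : ℝ, ∃ j ∈ J, ∃ y : ℝ, |y - c j| ≤ r j ∧ ∃ k : ℤ, th - y = 2 * π * k) :
    2 * π ≤ ∑ j ∈ J, 2 * r j := by
  have : Fact (0 < 2 * π) := ⟨by positivity⟩
  have hc : (univ : Set (AddCircle (2 * π))) ⊆
      ⋃ j ∈ J, Metric.closedBall ((c j : ℝ) : AddCircle (2 * π)) (r j) := by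
    intro x _
    obtain ⟨th, rfl⟩ := QuotientAddGroup.mk_surjective x
    obtain ⟨j, hj, y, hy, k, hk⟩ := H th
    refine mem_iUnion₂.2 ⟨j, hj, ?_⟩
    have e : ((th : ℝ) : AddCircle (2 * π)) = ((y : ℝ) : AddCircle (2 * π)) := by
      rw [← sub_eq_zero, ← AddCircle.coe_sub, AddCircle.coe_eq_zero_iff]
      exact ⟨k, by rw [hk, zsmul_eq_mul, mul_comm]⟩
    rw [Metric.mem_closedBall, dist_eq_norm, e, ← AddCircle.coe_sub]
    exact QuotientAddGroup.norm_mk_le_norm.trans hy
  have h1 := (measure_mono (μ := volume) hc).trans (measure_biUnion_finset_le _ _)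
  rw [AddCircle.measure_univ] at h1
  have h2 : ∑ j ∈ J, volume (Metric.closedBall ((c j : ℝ) : AddCircle (2 * π)) (r j))
      ≤ ∑ j ∈ J, ENNReal.ofReal (2 * r j) := Finset.sum_le_sum fun j _ => by
    rw [AddCircle.volume_closedBall]
    exact ENNReal.ofReal_le_ofReal (min_le_right _ _)
  have h3 := h1.trans h2
  rw [← ENNReal.ofReal_sum_of_nonneg fun j hj => by linarith [hr j hj]] at h3
  exact (ENNReal.ofReal_le_ofReal_iff (Finset.sum_nonneg fun j hj => by linarith [hr j hj])).1 h3

lemma arg_Angle {a T : ℝ} (hc : 0 < cos a) (hs : sin a = T * cos a) :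
    ∃ k : ℤ, a - arctan T = 2 * π * k := by
  have h0 : 0 < √(1 + T ^ 2) := by positivity
  have h1 : √(1 + T ^ 2) ^ 2 = 1 + T ^ 2 := Real.sq_sqrt (by positivity)
  have h2 : cos a * √(1 + T ^ 2) = 1 := by
    have h3 : (cos a * √(1 + T ^ 2)) ^ 2 = 1 ^ 2 := by
      have := sin_sq_add_cos_sq a
      rw [hs] at this
      rw [mul_pow, h1]
      linarith
    exact (sq_eq_sq₀ (by positivity) zero_le_one).1 h3
  have h4 : cos a = cos (arctan T) := by
    rw [cos_arctan, eq_div_iff h0.ne', h2]
  have h5 : sin a = sin (arctan T) := by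
    rw [sin_arctan, eq_div_iff h0.ne', hs, mul_assoc, h2, mul_one]
  exact Real.Angle.angle_eq_iff_two_pi_dvd_sub.1 (Real.Angle.cos_sin_inj h4 h5)

lemma polar_Angle (p q : ℝ) :
    ∃ s : ℝ, 0 ≤ s ∧ p = s * cos (Complex.arg ⟨p, q⟩) ∧ q = s * sin (Complex.arg ⟨p, q⟩) :=
  ⟨‖(⟨p, q⟩ : ℂ)‖, norm_nonneg _, (Complex.norm_mul_cos_arg ⟨p, q⟩).symm,
    (Complex.norm_mul_sin_arg ⟨p, q⟩).symm⟩

lemma lt_one_Angle {ι : Type} [Fintype ι] [DecidableEq ι] {u : ι → E3} {Tr : ι → ι → ι → Prop}
    (S : Sys u 1 Tr) (hu : Unit1 u) {i j : ι} (A : Adj Tr i j) : 0 < 1 - dt (u i) (u j) := by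
  have h := S.cr_pos A
  rw [dt_cr_cr, hu i, hu j] at h
  nlinarith

lemma sum_pos_Angle {ι : Type} [Fintype ι] [DecidableEq ι] {u : ι → E3} {Tr : ι → ι → ι → Prop}
    (S : Sys u 1 Tr) (hu : Unit1 u) {i j : ι} (A : Adj Tr i j) :
    0 ≤ TT3 u i j (kp u Tr i j) + TT3 u i j (km u Tr i j) := by
  have e := congrArg (fun x => dt x (cr (u i) (u j))) (S.ep_sub A 1)
  simp only [sub_dt, smul_dt] at e
  rw [T_kp S hu A, T_km S hu A] at e
  have h1 := mul_pos (S.mu_pos A) (S.cr_pos A)
  have h2 := lt_one_Angle S hu A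
  by_contra hc
  push Not at hc
  nlinarith

open Classical in
theorem angle_st : AngleSt := by
  intro ι _ _ u Tr hu S i
  obtain ⟨e, he, hne⟩ := exists_frame (n := u i)
  have hn := hu i
  have hf : dt (cr (u i) e) (cr (u i) e) = 1 := dt_cr_unit hn he hne
  have hmem : u i ∈ poly u 1 := fun l => by
    have := dt_sq_le (u l) (u i)
    rw [hu l, hu i] at this
    show dt (u l) (u i) ≤ 1
    nlinarith
  have key := cover_Angle (Finset.univ.filter fun j => Adj Tr i j)
    (fun j => Complex.arg ⟨dt e (u j), dt (cr (u i) e) (u j)⟩ +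
      (arctan (TT3 u i j (kp u Tr i j)) - arctan (TT3 u i j (km u Tr i j))) / 2)
    (fun j => (arctan (TT3 u i j (kp u Tr i j)) + arctan (TT3 u i j (km u Tr i j))) / 2)
    (fun j hj => by
      have A : Adj Tr i j := (Finset.mem_filter.1 hj).2
      have h1 := sum_pos_Angle S hu A
      have h2 : arctan (-TT3 u i j (km u Tr i j)) ≤ arctan (TT3 u i j (kp u Tr i j)) :=
        arctan_mono (by linarith)
      rw [arctan_neg] at h2
      linarith)
    (fun th => by
      set d : E3 := cos th • e + sin th • cr (u i) e with hd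
      have hd1 : dt d d = 1 := by
        have h2 := dt_cr_right (u i) e
        simp only [hd, dt_add, add_dt, dt_smul, smul_dt, he, hf, h2, dt_comm (cr (u i) e) e]
        linarith [sin_sq_add_cos_sq th]
      have hd0 : d ≠ 0 := fun h => by rw [h, dt_zero] at hd1; exact zero_ne_one hd1
      have hnd : dt (u i) d = 0 := by
        simp only [hd, dt_add, dt_smul, hne, dt_cr_left]; ring
      obtain ⟨j, t, h1, h2, h3⟩ := FlagX.ray S hmem hd0
      have hij : i ≠ j := by
        rintro rfl
        rw [hnd] at h1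
        exact lt_irrefl _ h1
      obtain ⟨A, l, l0, l1, hx⟩ := S.edge_pt hij h2
        (by rw [dt_add, dt_smul, hnd, hn]; simp) h3
      refine ⟨j, Finset.mem_filter.2 ⟨Finset.mem_univ _, A⟩, ?_⟩
      obtain ⟨s, s0, hp, hq⟩ := polar_Angle (dt e (u j)) (dt (cr (u i) e) (u j))
      set ph := Complex.arg ⟨dt e (u j), dt (cr (u i) e) (u j)⟩
      set Tp := TT3 u i j (kp u Tr i j) with hTp
      set Tm := TT3 u i j (km u Tr i j) with hTm
      have hz := lt_one_Angle S hu A
      have hsum : 0 ≤ Tp + Tm := sum_pos_Angle S hu A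
      have e1 : dt (u j) d = s * cos (th - ph) := by
        rw [hd, dt_add, dt_smul, dt_smul, dt_comm (u j) e, dt_comm (u j) (cr (u i) e), cos_sub]
        linear_combination cos th * hp + sin th * hq
      have e2 : dt d (cr (u i) (u j)) = s * sin (th - ph) := by
        have a1 : dt e (cr (u i) (u j)) = -dt (cr (u i) e) (u j) := by simp [dt]; ring
        have a2 : dt (cr (u i) e) (cr (u i) (u j))
            = dt (u i) (u i) * dt e (u j) - dt (u i) e * dt (u i) (u j) := by simp [dt]; ring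
        rw [hd, add_dt, smul_dt, smul_dt, a1, a2, hn, hne, sin_sub]
        linear_combination sin th * hp - cos th * hq
      have e3 : t * (s * cos (th - ph)) = 1 - dt (u i) (u j) := by
        rw [dt_add, dt_smul, e1, dt_comm (u j) (u i)] at h3
        have : (1 : ι → ℝ) j = 1 := rfl
        linarith
      have e4 : t * (s * sin (th - ph)) = (1 - dt (u i) (u j)) * (l * Tp - (1 - l) * Tm) := by
        have := congrArg (fun x => dt x (cr (u i) (u j))) hx
        simp only [add_dt, smul_dt] at this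
        rw [T_kp S hu A, T_km S hu A, e2, dt_cr_left] at this
        linear_combination this
      rw [e1] at h1
      have t0 : 0 < t := by
        by_contra hc
        push Not at hc
        nlinarith
      have s1 : 0 < s := by
        rcases s0.lt_or_eq with h | h
        · exact h
        · rw [← h, zero_mul] at h1; exact absurd h1 (lt_irrefl _)
      have c0 : 0 < cos (th - ph) := (mul_pos_iff_of_pos_left s1).1 h1
      have e5 : sin (th - ph) = (l * Tp - (1 - l) * Tm) * cos (th - ph) := by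
        have h4 : t * s ≠ 0 := (mul_pos t0 s1).ne'
        apply mul_left_cancel₀ h4
        rw [← e3] at e4
        linear_combination e4
      obtain ⟨k, hk⟩ := arg_Angle c0 e5
      refine ⟨ph + arctan (l * Tp - (1 - l) * Tm), ?_, k, by linarith⟩
      have b1 : arctan (l * Tp - (1 - l) * Tm) ≤ arctan Tp := arctan_mono (by nlinarith)
      have b2 : arctan (-Tm) ≤ arctan (l * Tp - (1 - l) * Tm) := arctan_mono (by nlinarith)
      rw [arctan_neg] at b2
      rw [abs_le]
      constructor <;> linarith)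
  refine key.trans (le_of_eq ?_)
  rw [Finset.sum_filter]
  refine Finset.sum_congr rfl fun j _ => ?_
  rw [sum_tr S i j fun k => arctan (TT3 u i j k)]
  split_ifs
  · ring
  · rfl

end Pool.Agent.MP_5cfbf6_gt.P7
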