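import Pool.Agent.MP_5cfbf6_gt.P7.Base

set_option autoImplicit false
set_option linter.unusedSectionVars false

namespace Pool.Agent.MP_5cfbf6_gt.P7

open Set Filter Topology Real MeasureTheory

/-- volume of a body of revolution -/
lemma rev_Apr {n : E3} (hn : dt n n = 1) {a b : ℝ} (hab : a ≤ b) {g : ℝ → ℝ} (hg : Continuous g)
    (h0 : ∀ t ∈ Icc a b, 0 ≤ g t) :
    volume {x : E3 | dt n x ∈ Icc a b ∧ dt x x - dt n x ^ 2 ≤ g (dt n x)}
      = ENNReal.ofReal (∫ t in a..b, π * g t) := by
  obtain ⟨e, he, hne⟩ := exists_frame (n := n)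
  have hv : n ≠ 0 := by
    rintro rfl
    simp at hn
  have hn1 : ‖n‖ = 1 := by
    rw [dt_self] at hn
    nlinarith [norm_nonneg n]
  set X : Set E3 := {x : E3 | dt n x ∈ Icc a b ∧ dt x x - dt n x ^ 2 ≤ g (dt n x)} with hX
  have hm : MeasurableSet X := by
    refine IsClosed.measurableSet (IsClosed.inter ?_ ?_)
    · exact isClosed_Icc.preimage (f := fun x => dt n x) (by fun_prop)
    · exact isClosed_le (f := fun x => dt x x - dt n x ^ 2) (g := fun x => g (dt n x))
        (by fun_prop) (by fun_prop)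
  have h1 := EuclideanGeometry.euclideanHausdorffMeasure_eq_lintegral (0 : E3) hv hm
  have h2 : ∀ t : ℝ, μHE[2] (X ∩ AffineSubspace.mk' (t • n +ᵥ (0 : E3))
      (Submodule.orthogonal (ℝ ∙ n))) =
      (Icc a b).indicator (fun t => ENNReal.ofReal (π * g t)) t := by
    intro t
    have h3 : ∀ x : E3, x ∈ (AffineSubspace.mk' (t • n +ᵥ (0 : E3))
        (Submodule.orthogonal (ℝ ∙ n)) : Set E3) ↔ dt n x = t := fun x => by
      rw [SetLike.mem_coe, AffineSubspace.mem_mk', ← perp, mem_perp, vadd_eq_add, add_zero,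
        vsub_eq_sub, dt_sub, dt_smul, hn, mul_one, sub_eq_zero]
    by_cases ht : t ∈ Icc a b
    · rw [indicator_of_mem ht, area_pl (b := t • n) hn he hne
        (fun x hx => by rw [(h3 x).1 hx.2, dt_smul, hn, mul_one])]
      have h4 : pl (t • n) e (cr n e) ⁻¹' (X ∩ AffineSubspace.mk' (t • n +ᵥ (0 : E3))
          (Submodule.orthogonal (ℝ ∙ n))) = Metric.closedBall (0 : ℂ) √(g t) := by
        ext z
        have c1 := dt_cr_left n e
        have c2 := dt_cr_right n e
        have c3 := dt_cr_unit hn he hne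
        have d1 : dt n (pl (t • n) e (cr n e) z) = t := by
          simp only [pl, dt_add, dt_smul, hn, hne, c1]; ring
        have d2 : dt (pl (t • n) e (cr n e) z) (pl (t • n) e (cr n e) z) = t ^ 2 + ‖z‖ ^ 2 := by
          rw [Complex.sq_norm, Complex.normSq_apply]
          simp only [pl, dt_add, add_dt, dt_smul, smul_dt, hn, hne, he, c1, c2, c3, dt_comm e n,
            dt_comm (cr n e) n, dt_comm (cr n e) e]
          ring
        rw [mem_preimage, mem_inter_iff, h3, hX, mem_ofPred_eq, d1, d2, mem_closedBall_zero_iff,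
          Real.le_sqrt (norm_nonneg z) (h0 t ht)]
        constructor
        · rintro ⟨⟨-, h⟩, -⟩
          linarith
        · exact fun h => ⟨⟨ht, by linarith⟩, rfl⟩
      rw [h4, Complex.volume_closedBall, ← ENNReal.ofReal_pow (Real.sqrt_nonneg _),
        Real.sq_sqrt (h0 t ht), mul_comm π, ENNReal.ofReal_mul (h0 t ht)]
      congr 1
      exact (ENNReal.ofReal_coe_nnreal (p := NNReal.pi)).symm
    · rw [indicator_of_notMem ht]
      exact measure_mono_null (fun x hx => (ht (((h3 x).1 hx.2) ▸ hx.1.1)).elim) measure_empty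
  rw [InnerProductSpace.euclideanHausdorffMeasure_eq_volume, finrank_euclideanSpace_fin] at h1
  simp only [show 3 - 1 = 2 from rfl, h2] at h1
  have hf : Continuous fun t => π * g t := by fun_prop
  rw [h1, ← ofReal_norm, hn1, ENNReal.ofReal_one, one_mul,
    lintegral_indicator measurableSet_Icc, intervalIntegral.integral_of_le hab,
    ← integral_Icc_eq_integral_Ioc, ofReal_integral_eq_lintegral_ofReal
      (hf.continuousOn.integrableOn_Icc) ((ae_restrict_iff' measurableSet_Icc).2
        (Eventually.of_forall fun t ht => mul_nonneg pi_pos.le (h0 t ht)))]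

/-- squared radius of the slices -/
noncomputable def g_Apr (t : ℝ) : ℝ := (1 - max t 0 / 5) ^ 2 - min t 0 ^ 2

lemma cont_Apr : Continuous g_Apr := by unfold g_Apr; fun_prop

lemma g_neg_Apr {t : ℝ} (h : t ≤ 0) : g_Apr t = 1 - t ^ 2 := by
  rw [g_Apr, max_eq_right h, min_eq_left h]; ring

lemma g_pos_Apr {t : ℝ} (h : 0 ≤ t) : g_Apr t = (1 - t / 5) ^ 2 := by
  rw [g_Apr, max_eq_left h, min_eq_right h]; ring

lemma int_Apr : ∫ t in (-1 : ℝ)..5, π * g_Apr t = 7 * π / 3 := by
  have hf : Continuous fun t => π * g_Apr t := by have := cont_Apr; fun_prop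
  rw [← intervalIntegral.integral_add_adjacent_intervals (b := 0) (hf.intervalIntegrable _ _)
    (hf.intervalIntegrable _ _)]
  have e1 : ∫ t in (-1 : ℝ)..0, π * g_Apr t = ∫ t in (-1 : ℝ)..0, π * (1 - t ^ 2) := by
    refine intervalIntegral.integral_congr fun t ht => ?_
    rw [uIcc_of_le (by norm_num)] at ht
    simp only [g_neg_Apr ht.2]
  have e2 : ∫ t in (0 : ℝ)..5, π * g_Apr t = ∫ t in (0 : ℝ)..5, π * (1 - t / 5) ^ 2 := by
    refine intervalIntegral.integral_congr fun t ht => ?_
    rw [uIcc_of_le (by norm_num)] at ht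
    simp only [g_pos_Apr ht.1]
  have d1 : ∀ t : ℝ, HasDerivAt (fun t : ℝ => π * (t - t ^ 3 / 3)) (π * (1 - t ^ 2)) t := by
    intro t
    have := ((hasDerivAt_id t).sub ((hasDerivAt_pow 3 t).div_const 3)).const_mul π
    exact this.congr_deriv (by simp)
  have d2 : ∀ t : ℝ, HasDerivAt (fun t : ℝ => π * (t - t ^ 2 / 5 + t ^ 3 / 75))
      (π * (1 - t / 5) ^ 2) t := by
    intro t
    have := (((hasDerivAt_id t).sub ((hasDerivAt_pow 2 t).div_const 5)).add
      ((hasDerivAt_pow 3 t).div_const 75)).const_mul π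
    exact this.congr_deriv (by simp; ring)
  rw [e1, e2, intervalIntegral.integral_eq_sub_of_hasDerivAt (fun t _ => d1 t)
      (Continuous.intervalIntegrable (by fun_prop) _ _),
    intervalIntegral.integral_eq_sub_of_hasDerivAt (fun t _ => d2 t)
      (Continuous.intervalIntegrable (by fun_prop) _ _)]
  ring

theorem apr_st : AprSt := by
  intro ι _ _ u hu hb v hv h25
  have hv0 : 5 ≤ ‖v‖ := by
    rw [dt_self] at h25
    nlinarith [norm_nonneg v]
  have hvp : 0 < ‖v‖ := by linarith
  set n : E3 := ‖v‖⁻¹ • v with hnd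
  have hn : dt n n = 1 := by
    rw [hnd, dt_smul, smul_dt, dt_self]
    field_simp
  have h5 : ∀ i, 5 * dt (u i) n ≤ 1 := by
    intro i
    have h1 : dt (u i) v ≤ 1 := hv i
    rw [hnd, dt_smul, ← mul_assoc, ← div_eq_mul_inv, div_mul_eq_mul_div, div_le_one hvp]
    nlinarith
  have h0 : ∀ t ∈ Icc (-1 : ℝ) 5, 0 ≤ g_Apr t := by
    intro t ht
    rcases le_total t 0 with h | h
    · rw [g_neg_Apr h]; nlinarith [ht.1]
    · rw [g_pos_Apr h]; positivity
  have hsub : {x : E3 | dt n x ∈ Icc (-1 : ℝ) 5 ∧ dt x x - dt n x ^ 2 ≤ g_Apr (dt n x)}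
      ⊆ poly u 1 := by
    rintro x ⟨ht, hx⟩ i
    show dt (u i) x ≤ 1
    rcases le_total (dt n x) 0 with h | h
    · rw [g_neg_Apr h] at hx
      have := dt_sq_le (u i) x
      rw [hu i] at this
      nlinarith
    · rw [g_pos_Apr h] at hx
      have h1 := dt_sq_le (u i) (x - dt n x • n)
      have h2 : dt (x - dt n x • n) (x - dt n x • n) = dt x x - dt n x ^ 2 := by
        simp only [dt_sub, sub_dt, dt_smul, smul_dt, hn, dt_comm x n]; ring
      rw [hu i, h2, dt_sub, dt_smul] at h1
      have h3 : dt (u i) x - dt n x * dt (u i) n ≤ 1 - dt n x / 5 :=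
        le_of_sq_le_sq (by linarith) (by linarith [ht.2])
      nlinarith [h5 i]
  have h1 := measure_mono (μ := volume) hsub
  rw [rev_Apr hn (by norm_num) cont_Apr h0, int_Apr] at h1
  exact (ENNReal.ofReal_le_iff_le_toReal hb.measure_lt_top.ne).1 h1

end Pool.Agent.MP_5cfbf6_gt.P7
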