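import Pool.Agent.MP_5cfbf6_gt.P7.AAK

set_option autoImplicit false

namespace Pool.Agent.MP_5cfbf6_gt.P7

open Real Set AA

theorem bba_st : BBASt := by
  intro c a1 a2 hD h
  obtain ⟨t1, t2⟩ := tau_sq_bd
  have t3 := tau_bd.2
  have hp := pi_gt_d20
  have := okA.root (l1 := 5 + tau ^ 2) (l2 := 4 + 2 * tau ^ 2)
    (by simp only [pA]; rw [abs_le]; push_cast; constructor <;> linarith)
    (by simp only [pA]; rw [abs_le]; push_cast; constructor <;> linarith) hD h
    (fun h => absurd h (by decide))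
  refine this.imp (fun h => ?_) fun h => h.2
  simp only [pA] at h
  push_cast at h
  have h2 : 0.52786404 * 3.14159265358979323846 ≤ tau ^ 2 * π :=
    mul_le_mul t1.le hp.le (by norm_num) (sq_nonneg _)
  unfold mA
  norm_num at h2 hp t3 ⊢
  linarith

lemma goal_B {P : Par} {l1 l2 c a1 a2 m : ℝ} (h : Goal P l1 l2 c a1 a2) (hi : P.i = false)
    (hm : m * 4294967296 ≤ P.m) : m ≤ Fr l1 l2 l2 c a1 a2 := by
  rcases h with h | h
  · linarith
  · rw [hi] at h
    exact absurd h.1 (by decide)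

theorem bbb_st : BBBSt := by
  intro c a1 a2 hD h
  refine ⟨fun s => goal_B (okB0.root ?_ ?_ hD h fun _ => s) rfl ?_,
    goal_B (okB1.root ?_ ?_ hD h fun h => absurd h (by decide)) rfl ?_,
    goal_B (okB2.root ?_ ?_ hD h fun h => absurd h (by decide)) rfl ?_,
    fun s => goal_B (okB3.root ?_ ?_ hD h fun _ => s) rfl ?_⟩ <;>
  norm_num [pB0, pB1, pB2, pB3, abs_le]

end Pool.Agent.MP_5cfbf6_gt.P7
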