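import Pool.Agent.MP_5cfbf6_gt.P7.Base

set_option autoImplicit false
set_option linter.unusedSectionVars false

namespace Pool.Agent.MP_5cfbf6_gt.P7

open Set Filter Topology Real

noncomputable def mx_Cert (x T : ℝ) : ℝ :=
  max 0 (x / (1 + x) + 7 / 10 * (x * (1 + T ^ 2) / (1 + x * (1 + T ^ 2))) - 27 / 25)

lemma mx_nonneg_Cert (x T : ℝ) : 0 ≤ mx_Cert x T := le_max_left _ _

lemma mx_mono_Cert {x T T' : ℝ} (hx : 0 ≤ x) (h : T ^ 2 ≤ T' ^ 2) :
    mx_Cert x T ≤ mx_Cert x T' := by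
  unfold mx_Cert
  apply max_le_max le_rfl
  have h1 : 0 < 1 + x * (1 + T ^ 2) := by positivity
  have h2 : 0 < 1 + x * (1 + T' ^ 2) := by positivity
  have : x * (1 + T ^ 2) / (1 + x * (1 + T ^ 2)) ≤ x * (1 + T' ^ 2) / (1 + x * (1 + T' ^ 2)) := by
    rw [div_le_div_iff₀ h1 h2]
    nlinarith [mul_le_mul_of_nonneg_left h hx]
  linarith

lemma key_Cert {x A B : ℝ} (hx : 0 ≤ x) (h : 0 ≤ A + B) (hB : B ≤ A) :
    0 ≤ A * mx_Cert x A + B * mx_Cert x B := by
  have hA : 0 ≤ A := by linarith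
  have h2 : B ^ 2 ≤ A ^ 2 := by nlinarith
  have h3 := mul_le_mul_of_nonneg_left (mx_mono_Cert hx h2) hA
  have h4 := mul_nonneg h (mx_nonneg_Cert x B)
  linarith [add_mul A B (mx_Cert x B)]

theorem hh_st : HhSt := by
  intro x T T' hx hT
  have e : ∀ t, Hh x t = x * t * (1 - 9 / 8 * mx_Cert x t) := fun t => rfl
  have k : 0 ≤ T * mx_Cert x T + T' * mx_Cert x T' := by
    rcases le_total T' T with h | h
    · exact key_Cert hx hT h
    · have := key_Cert hx (show 0 ≤ T' + T by linarith) h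
      linarith
  have k2 := mul_nonneg hx k
  rw [e, e]
  nlinarith

section

variable {ι : Type} [Fintype ι] [DecidableEq ι] {u : ι → E3} {h : ι → ℝ} {Tr : ι → ι → ι → Prop}

open Classical in
noncomputable def Sg_Cert (Tr : ι → ι → ι → Prop) (f : ι → ι → ι → ℝ) : ℝ :=
  ∑ i, ∑ j, ∑ k, if Tr i j k then f i j k else 0

open Classical in
lemma Sg_s12_Cert (S : Sys u h Tr) (f : ι → ι → ι → ℝ) :
    Sg_Cert Tr (fun i j k => f j i k) = Sg_Cert Tr f := by
  unfold Sg_Cert
  rw [Finset.sum_comm]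
  refine Finset.sum_congr rfl fun i _ => Finset.sum_congr rfl fun j _ =>
    Finset.sum_congr rfl fun k _ => ?_
  exact if_congr ⟨S.s12 _ _ _, S.s12 _ _ _⟩ rfl rfl

open Classical in
lemma Sg_s23_Cert (S : Sys u h Tr) (f : ι → ι → ι → ℝ) :
    Sg_Cert Tr (fun i j k => f i k j) = Sg_Cert Tr f := by
  unfold Sg_Cert
  refine Finset.sum_congr rfl fun i _ => ?_
  rw [Finset.sum_comm]
  refine Finset.sum_congr rfl fun j _ => Finset.sum_congr rfl fun k _ => ?_
  exact if_congr ⟨S.s23 _ _ _, S.s23 _ _ _⟩ rfl rfl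

lemma Sg_rot_Cert (S : Sys u h Tr) (f : ι → ι → ι → ℝ) :
    Sg_Cert Tr (fun i j k => f j k i) = Sg_Cert Tr f :=
  (Sg_s12_Cert S fun i j k => f i k j).trans (Sg_s23_Cert S f)

lemma Sg_add_Cert (f g : ι → ι → ι → ℝ) :
    Sg_Cert Tr (fun i j k => f i j k + g i j k) = Sg_Cert Tr f + Sg_Cert Tr g := by
  unfold Sg_Cert
  simp only [← Finset.sum_add_distrib]
  refine Finset.sum_congr rfl fun i _ => Finset.sum_congr rfl fun j _ =>
    Finset.sum_congr rfl fun k _ => ?_
  split_ifs <;> simp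

lemma Sg_mono_Cert {f g : ι → ι → ι → ℝ} (H : ∀ i j k, Tr i j k → f i j k ≤ g i j k) :
    Sg_Cert Tr f ≤ Sg_Cert Tr g := by
  unfold Sg_Cert
  refine Finset.sum_le_sum fun i _ => Finset.sum_le_sum fun j _ => Finset.sum_le_sum fun k _ => ?_
  split_ifs with T
  exacts [H i j k T, le_rfl]

/-- the sum over the three rotations -/
lemma Sg_three_Cert (S : Sys u h Tr) (f : ι → ι → ι → ℝ) :
    Sg_Cert Tr (fun i j k => f j k i + f k i j + f i j k) = 3 * Sg_Cert Tr f := by
  have h1 := Sg_rot_Cert S f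
  have h2 := Sg_rot_Cert S fun i j k => f j k i
  rw [Sg_add_Cert (fun i j k => f j k i + f k i j) f,
    Sg_add_Cert (fun i j k => f j k i) fun i j k => f k i j]
  linarith

lemma Sg_ga_Cert (S : Sys u h Tr) (ga : ι → ℝ) :
    Sg_Cert Tr (fun i _ _ => ga i) = 2 * ∑ i, dg Tr i * ga i := by
  unfold Sg_Cert
  rw [Finset.mul_sum]
  refine Finset.sum_congr rfl fun i _ => ?_
  rw [dg_eq, Finset.sum_mul, Finset.mul_sum]
  refine Finset.sum_congr rfl fun j _ => ?_
  rw [sum_tr S i j fun _ => ga i]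
  split_ifs <;> ring

end

theorem cert_st (h1 : TriSt) (h2 : AreaSt) (h3 : AngleSt) : CertSt := by
  intro ι _ _ u Tr hu S al ga hal H
  obtain ⟨ha1, ha2⟩ := h2 ι u Tr hu S
  have hang := h3 ι u Tr hu S
  have htri := h1 ι u Tr hu S
  have eH := Sg_three_Cert S fun i j k => Hh (xx u i j) (TT3 u i j k)
  have eA := Sg_three_Cert S fun i j k => (al i + al j) * arctan (TT3 u i j k)
  have eG := Sg_three_Cert S fun i _ _ => ga i
  have main : Sg_Cert Tr (fun i j k => (ga j + ga k + ga i) +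
      ((al j + al k) * arctan (TT3 u j k i) + (al k + al i) * arctan (TT3 u k i j)
        + (al i + al j) * arctan (TT3 u i j k))) ≤
      Sg_Cert Tr (fun i j k => Hh (xx u j k) (TT3 u j k i) + Hh (xx u k i) (TT3 u k i j)
        + Hh (xx u i j) (TT3 u i j k)) := by
    refine Sg_mono_Cert fun i j k T => ?_
    have t1 := (htri i j k T).2.2.2.2.2.2
    have t2 := (htri j k i (S.rot T)).2.2.2.2.2.2
    have t3 := (htri k i j (S.rot (S.rot T))).2.2.2.2.2.2
    rw [e2_rot] at t2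
    rw [← e2_rot] at t3
    have := H i j k T
    unfold Ftri at this
    rw [← t1, ← t2, ← t3] at this
    linarith
  rw [Sg_add_Cert (fun i j k => ga j + ga k + ga i) fun i j k =>
    (al j + al k) * arctan (TT3 u j k i) + (al k + al i) * arctan (TT3 u k i j)
        + (al i + al j) * arctan (TT3 u i j k), eH, eA, eG, Sg_ga_Cert S] at main
  have bH : Sg_Cert Tr (fun i j k => Hh (xx u i j) (TT3 u i j k)) ≤ 6 * vol u 1 := by
    rw [ha2]
    unfold Sg_Cert
    refine Finset.sum_le_sum fun i _ => Finset.sum_le_sum fun j _ => ?_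
    rw [sum_tr S i j fun k => Hh (xx u i j) (TT3 u i j k),
      sum_tr S i j fun k => xx u i j * TT3 u i j k]
    split_ifs with A
    · exact hh_st _ _ _ (htri i j _ (S.kp_spec A).1).2.2.2.2.2.1.le (ha1 i j A).le
    · exact le_rfl
  have bA0 : ∑ i, 2 * π * al i ≤ Sg_Cert Tr (fun i j k => al i * arctan (TT3 u i j k)) := by
    unfold Sg_Cert
    refine Finset.sum_le_sum fun i _ => ?_
    have := mul_le_mul_of_nonneg_left (hang i) (hal i)
    rw [mul_comm]
    refine this.trans (le_of_eq ?_)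
    rw [Finset.mul_sum]
    refine Finset.sum_congr rfl fun j _ => ?_
    rw [Finset.mul_sum]
    refine Finset.sum_congr rfl fun k _ => ?_
    split_ifs <;> simp
  have bA : Sg_Cert Tr (fun i j k => (al i + al j) * arctan (TT3 u i j k)) =
      2 * Sg_Cert Tr (fun i j k => al i * arctan (TT3 u i j k)) := by
    have s := Sg_s12_Cert S fun i j k => al i * arctan (TT3 u i j k)
    have a := Sg_add_Cert (Tr := Tr) (fun i j k => al i * arctan (TT3 u i j k))
      fun i j k => al j * arctan (TT3 u j i k)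
    rw [s] at a
    rw [two_mul, ← a]
    congr 1
    funext i j k
    rw [TT3_swap u i j k, add_mul]
  rw [Finset.sum_add_distrib]
  linarith

end Pool.Agent.MP_5cfbf6_gt.P7
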