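import Pool.Agent.MP_5cfbf6_gt.P7.Base

set_option autoImplicit false
set_option linter.unusedSectionVars false

namespace Pool.Agent.MP_5cfbf6_gt.P7

open Set Filter Topology MeasureTheory

section

variable {ι : Type} [Fintype ι] [DecidableEq ι] {u : ι → E3} {h : ι → ℝ} {Tr : ι → ι → ι → Prop}

lemma cramer_Euler (a b c w x : E3) : det3 a b c * dt w x =
    det3 w b c * dt a x + det3 a w c * dt b x + det3 a b w * dt c x := by
  simp [det3, dt]; ring

lemma det_neg1_Euler (a b c : E3) : det3 (-a) b c = -det3 a b c := by simp [det3, dt]; ring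
lemma det_neg2_Euler (a b c : E3) : det3 a (-b) c = -det3 a b c := by simp [det3, dt]; ring
lemma det_neg3_Euler (a b c : E3) : det3 a b (-c) = -det3 a b c := by simp [det3, dt]; ring

lemma vx_rot_Euler (u : ι → E3) (h : ι → ℝ) (i j k : ι) : vx u h j k i = vx u h i j k := by
  rw [vx_swap23, vx_swap12]

/-- a direction orthogonal to no edge -/
lemma gen_Euler (S : Sys u h Tr) : ∃ w : E3, ∀ i j k, Tr i j k → det3 (u i) (u j) w ≠ 0 := by
  have H : ∀ᵐ w : E3, ∀ i j k, Tr i j k → det3 (u i) (u j) w ≠ 0 := by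
    simp only [ae_all_iff]
    intro i j k T
    have := vol_plane (cr_ne_zero (S.det _ _ _ T)) 0
    rw [ae_iff]
    convert this using 3
    funext z
    rw [← dt_cr, dt_comm, not_not]
  exact H.exists

/-- the top vertex of a face is unique -/
lemma key_Euler (S : Sys u h Tr) (w : E3) {i j k j' k' : ι} (T : Tr i j k)
    (d : 0 < det3 (u i) (u j) (u k)) (c2 : 0 < det3 (u i) w (u k)) (c3 : 0 < det3 (u i) (u j) w)
    (T' : Tr i j' k') (d' : 0 < det3 (u i) (u j') (u k')) (c2' : 0 < det3 (u i) w (u k'))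
    (c3' : 0 < det3 (u i) (u j') w) : j = j' ∧ k = k' := by
  have e := cramer_Euler (u i) (u j) (u k) w (vx u h i j' k' - vx u h i j k)
  have e' := cramer_Euler (u i) (u j') (u k') w (vx u h i j k - vx u h i j' k')
  simp only [dt_sub, S.vx1 T, S.vx2 T, S.vx3 T, S.vx1 T', S.vx2 T', S.vx3 T', sub_self, mul_zero,
    zero_add] at e e'
  have m1 := sub_nonpos.2 (S.vx_mem T' j)
  have m2 := sub_nonpos.2 (S.vx_mem T' k)
  have m3 := sub_nonpos.2 (S.vx_mem T j')
  have m4 := sub_nonpos.2 (S.vx_mem T k')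
  have p1 := mul_nonpos_of_nonneg_of_nonpos c2.le m1
  have p2 := mul_nonpos_of_nonneg_of_nonpos c3.le m2
  have p3 := mul_nonpos_of_nonneg_of_nonpos c2'.le m3
  have p4 := mul_nonpos_of_nonneg_of_nonpos c3'.le m4
  have q : 0 ≤ dt w (vx u h i j' k') - dt w (vx u h i j k) := by
    by_contra hc
    push Not at hc
    nlinarith
  have q2 := mul_nonneg d.le q
  have z1 : dt (u j) (vx u h i j' k') = h j := by
    have : det3 (u i) w (u k) * (dt (u j) (vx u h i j' k') - h j) = 0 := by linarith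
    exact sub_eq_zero.1 ((mul_eq_zero.1 this).resolve_left c2.ne')
  have z2 : dt (u k) (vx u h i j' k') = h k := by
    have : det3 (u i) (u j) w * (dt (u k) (vx u h i j' k') - h k) = 0 := by linarith
    exact sub_eq_zero.1 ((mul_eq_zero.1 this).resolve_left c3.ne')
  rcases S.vx_act T' z1 with a | a | a
  · exact absurd a.symm (S.ne12 T)
  · rcases S.vx_act T' z2 with b | b | b
    · exact absurd b.symm (S.ne13 T)
    · exact absurd (a.trans b.symm) (S.ne23 T)
    · exact ⟨a, b⟩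
  · rcases S.vx_act T' z2 with b | b | b
    · exact absurd b.symm (S.ne13 T)
    · rw [← a, ← b, det3_swap23] at d'
      linarith
    · exact absurd (a.trans b.symm) (S.ne23 T)

lemma max_Euler (S : Sys u h Tr) (w : E3) {i j k : ι} (T : Tr i j k)
    (d : 0 < det3 (u i) (u j) (u k))
    (M : ∀ a b c, Tr a b c → dt w (vx u h a b c) ≤ dt w (vx u h i j k)) :
    0 ≤ det3 (u i) (u j) w := by
  obtain ⟨k', T', o⟩ := S.exists_opp T
  have hk : k ≠ k' := by
    rintro rfl
    nlinarith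
  have s := S.strict _ _ _ T' k (S.ne13 T).symm (S.ne23 T).symm hk
  have e := cramer_Euler (u i) (u j) (u k) w (vx u h i j k' - vx u h i j k)
  simp only [dt_sub, S.vx1 T, S.vx2 T, S.vx3 T, S.vx1 T', S.vx2 T', sub_self, mul_zero,
    zero_add] at e
  have m := M _ _ _ T'
  by_contra hc
  push Not at hc
  nlinarith [mul_pos_of_neg_of_neg hc (sub_neg.2 s), mul_nonneg d.le (sub_nonneg.2 m)]

open Classical in
/-- positively oriented vertices -/
noncomputable def P_Euler (u : ι → E3) (Tr : ι → ι → ι → Prop) : Finset (ι × ι × ι) :=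
  Finset.univ.filter fun t => Tr t.1 t.2.1 t.2.2 ∧ 0 < det3 (u t.1) (u t.2.1) (u t.2.2)

lemma mem_P_Euler {t : ι × ι × ι} : t ∈ P_Euler u Tr ↔
    Tr t.1 t.2.1 t.2.2 ∧ 0 < det3 (u t.1) (u t.2.1) (u t.2.2) := by
  simp [P_Euler]

lemma dg_le_Euler (S : Sys u h Tr) : ∑ i, dg Tr i ≤ (P_Euler u Tr).card := by
  classical
  have hD : ∑ i, dg Tr i = (Finset.univ.filter fun p : ι × ι => Adj Tr p.1 p.2).card := by
    rw [Finset.card_filter, Fintype.sum_prod_type]
    refine Finset.sum_congr rfl fun i _ => ?_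
    rw [← Finset.card_filter, dg, ← Set.ncard_coe_finset]
    congr 1
    ext j
    simp
  rw [hD]
  refine Finset.card_le_card_of_injOn (fun p => (p.1, p.2, kp u Tr p.1 p.2)) ?_ ?_
  · intro p hp
    have A : Adj Tr p.1 p.2 := by simpa using hp
    exact Finset.mem_coe.2 (mem_P_Euler.2 (S.kp_spec A))
  · intro p _ q _ e
    simp only [Prod.mk.injEq] at e
    exact Prod.ext e.1 e.2.1

def c1_Euler (u : ι → E3) (w : E3) (t : ι × ι × ι) : ℝ := det3 w (u t.2.1) (u t.2.2)
def c2_Euler (u : ι → E3) (w : E3) (t : ι × ι × ι) : ℝ := det3 (u t.1) w (u t.2.2)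
def c3_Euler (u : ι → E3) (w : E3) (t : ι × ι × ι) : ℝ := det3 (u t.1) (u t.2.1) w

open Classical in
lemma A1_Euler (S : Sys u h Tr) (w : E3) : ((P_Euler u Tr).filter fun t =>
    0 < c2_Euler u w t ∧ 0 < c3_Euler u w t).card ≤ Fintype.card ι := by
  refine Finset.card_le_card_of_injOn (t := Finset.univ) (fun t => t.1) (by simp) ?_
  rintro ⟨i, j, k⟩ ht ⟨i', j', k'⟩ ht' e
  simp only [Finset.coe_filter, mem_P_Euler, mem_ofPred_eq, c2_Euler, c3_Euler] at ht ht' e
  subst e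
  obtain ⟨rfl, rfl⟩ := key_Euler S w ht.1.1 ht.1.2 ht.2.1 ht.2.2 ht'.1.1 ht'.1.2 ht'.2.1 ht'.2.2
  rfl

open Classical in
lemma A2_Euler (S : Sys u h Tr) (w : E3) : ((P_Euler u Tr).filter fun t =>
    0 < c3_Euler u w t ∧ 0 < c1_Euler u w t).card ≤ Fintype.card ι := by
  refine Finset.card_le_card_of_injOn (t := Finset.univ) (fun t => t.2.1) (by simp) ?_
  rintro ⟨i, j, k⟩ ht ⟨i', j', k'⟩ ht' e
  simp only [Finset.coe_filter, mem_P_Euler, mem_ofPred_eq, c1_Euler, c3_Euler] at ht ht' e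
  subst e
  obtain ⟨rfl, rfl⟩ := key_Euler S w (S.rot ht.1.1) (by rw [det3_rot]; exact ht.1.2)
    (by rw [det3_rot]; exact ht.2.1) (by rw [det3_rot]; exact ht.2.2)
    (S.rot ht'.1.1) (by rw [det3_rot]; exact ht'.1.2)
    (by rw [det3_rot]; exact ht'.2.1) (by rw [det3_rot]; exact ht'.2.2)
  rfl

open Classical in
lemma A3_Euler (S : Sys u h Tr) (w : E3) : ((P_Euler u Tr).filter fun t =>
    0 < c1_Euler u w t ∧ 0 < c2_Euler u w t).card ≤ Fintype.card ι := by
  refine Finset.card_le_card_of_injOn (t := Finset.univ) (fun t => t.2.2) (by simp) ?_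
  rintro ⟨i, j, k⟩ ht ⟨i', j', k'⟩ ht' e
  simp only [Finset.coe_filter, mem_P_Euler, mem_ofPred_eq, c1_Euler, c2_Euler] at ht ht' e
  subst e
  obtain ⟨rfl, rfl⟩ := key_Euler S w (S.rot (S.rot ht.1.1)) (by rw [← det3_rot]; exact ht.1.2)
    (by rw [← det3_rot]; exact ht.2.1) (by rw [← det3_rot]; exact ht.2.2)
    (S.rot (S.rot ht'.1.1)) (by rw [← det3_rot]; exact ht'.1.2)
    (by rw [← det3_rot]; exact ht'.2.1) (by rw [← det3_rot]; exact ht'.2.2)
  rfl

open Classical in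
lemma B_Euler (S : Sys u h Tr) (w : E3) (hw : ∀ i j k, Tr i j k → det3 (u i) (u j) w ≠ 0) :
    3 ≤ ((P_Euler u Tr).filter fun t =>
      0 < c1_Euler u w t ∧ 0 < c2_Euler u w t ∧ 0 < c3_Euler u w t).card := by
  obtain ⟨i, j, k, T, d, M⟩ : ∃ i j k, Tr i j k ∧ 0 < det3 (u i) (u j) (u k) ∧
      ∀ a b c, Tr a b c → dt w (vx u h a b c) ≤ dt w (vx u h i j k) := by
    obtain ⟨i0, j0, k0, T0⟩ := S.ne
    obtain ⟨⟨i, j, k⟩, ht, M⟩ := Finset.exists_max_image
      (Finset.univ.filter fun t : ι × ι × ι => Tr t.1 t.2.1 t.2.2)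
      (fun t => dt w (vx u h t.1 t.2.1 t.2.2)) ⟨(i0, j0, k0), by simpa using T0⟩
    have T : Tr i j k := by simpa using ht
    have M' : ∀ a b c, Tr a b c → dt w (vx u h a b c) ≤ dt w (vx u h i j k) :=
      fun a b c T' => M (a, b, c) (by simpa using T')
    rcases lt_or_gt_of_ne (S.det _ _ _ T) with d | d
    · refine ⟨j, i, k, S.s12 _ _ _ T, by rw [det3_swap12]; linarith, ?_⟩
      rw [vx_swap12]
      exact M'
    · exact ⟨i, j, k, T, d, M'⟩
  have T2 := S.rot T
  have T3 := S.rot T2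
  have d2 : 0 < det3 (u j) (u k) (u i) := by rw [det3_rot]; exact d
  have d3 : 0 < det3 (u k) (u i) (u j) := by rw [det3_rot]; exact d2
  have a3 := lt_of_le_of_ne (max_Euler S w T d M) (hw _ _ _ T).symm
  have a1 := lt_of_le_of_ne (max_Euler S w T2 d2 (by rw [vx_rot_Euler]; exact M))
    (hw _ _ _ T2).symm
  have a2 := lt_of_le_of_ne (max_Euler S w T3 d3 (by rw [vx_rot_Euler, vx_rot_Euler]; exact M))
    (hw _ _ _ T3).symm
  have r1 : ∀ a b : E3, det3 w a b = det3 a b w := fun a b => (det3_rot _ _ _).symm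
  have r2 : ∀ a b : E3, det3 a w b = det3 b a w := fun a b => det3_rot _ _ _
  have hc : ({(i, j, k), (j, k, i), (k, i, j)} : Finset (ι × ι × ι)).card = 3 := by
    have n1 := S.ne12 T
    have n2 := S.ne13 T
    have n3 := S.ne23 T
    rw [Finset.card_eq_three]
    exact ⟨_, _, _, by simp [n1], by simp [n2], by simp [n3], rfl⟩
  rw [← hc]
  apply Finset.card_le_card
  intro t ht
  simp only [Finset.mem_insert, Finset.mem_singleton] at ht
  rcases ht with rfl | rfl | rfl <;>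
    simp only [Finset.mem_filter, mem_P_Euler, c1_Euler, c2_Euler, c3_Euler, r1, r2]
  · exact ⟨⟨T, d⟩, a1, a2, a3⟩
  · exact ⟨⟨T2, d2⟩, a2, a3, a1⟩
  · exact ⟨⟨T3, d3⟩, a3, a1, a2⟩

open Classical in
lemma ind_Euler {x y z : ℝ} (hx : x ≠ 0) (hy : y ≠ 0) (hz : z ≠ 0) :
    1 + 2 * (if 0 < x ∧ 0 < y ∧ 0 < z then 1 else 0)
      + 2 * (if 0 < -x ∧ 0 < -y ∧ 0 < -z then 1 else 0) ≤
    (if 0 < y ∧ 0 < z then 1 else 0) + (if 0 < z ∧ 0 < x then 1 else 0)
      + (if 0 < x ∧ 0 < y then 1 else 0) + (if 0 < -y ∧ 0 < -z then 1 else 0)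
      + (if 0 < -z ∧ 0 < -x then 1 else 0) + (if 0 < -x ∧ 0 < -y then (1 : ℕ) else 0) := by
  rcases lt_or_gt_of_ne hx with a | a <;> rcases lt_or_gt_of_ne hy with b | b <;>
    rcases lt_or_gt_of_ne hz with c | c <;> simp [a, b, c, a.not_gt, b.not_gt, c.not_gt]

end

theorem euler_st : EulerSt := by
  intro ι _ _ u h Tr S
  classical
  obtain ⟨w, hw⟩ := gen_Euler S
  have hw' : ∀ i j k, Tr i j k → det3 (u i) (u j) (-w) ≠ 0 := fun i j k T => by
    rw [det_neg3_Euler]; exact neg_ne_zero.2 (hw i j k T)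
  have n1 : ∀ t, c1_Euler u (-w) t = -c1_Euler u w t := fun t => det_neg1_Euler _ _ _
  have n2 : ∀ t, c2_Euler u (-w) t = -c2_Euler u w t := fun t => det_neg2_Euler _ _ _
  have n3 : ∀ t, c3_Euler u (-w) t = -c3_Euler u w t := fun t => det_neg3_Euler _ _ _
  have a1 := A1_Euler S w
  have a2 := A2_Euler S w
  have a3 := A3_Euler S w
  have b1 := A1_Euler S (-w)
  have b2 := A2_Euler S (-w)
  have b3 := A3_Euler S (-w)
  have c1 := B_Euler S w hw
  have c2 := B_Euler S (-w) hw'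
  simp only [n1, n2, n3] at b1 b2 b3 c2
  simp only [Finset.card_filter] at a1 a2 a3 b1 b2 b3 c1 c2
  have H := Finset.sum_le_sum (s := P_Euler u Tr) fun t ht =>
    ind_Euler (x := c1_Euler u w t) (y := c2_Euler u w t) (z := c3_Euler u w t)
      (by rw [c1_Euler, ← det3_rot]; exact hw _ _ _ (S.rot (mem_P_Euler.1 ht).1))
      (by rw [c2_Euler, det3_rot]; exact hw _ _ _ (S.rot (S.rot (mem_P_Euler.1 ht).1)))
      (hw _ _ _ (mem_P_Euler.1 ht).1)
  simp only [Finset.sum_add_distrib, ← Finset.mul_sum, Finset.sum_const, smul_eq_mul,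
    mul_one] at H
  have := dg_le_Euler S
  omega

end Pool.Agent.MP_5cfbf6_gt.P7
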