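import Pool.Agent.MP_5cfbf6_gt.P7.Base

set_option autoImplicit false

namespace Pool.Agent.MP_5cfbf6_gt.P7

open Set Filter Topology Real

lemma fin_Gen {α β γ c : ℝ} (h : ¬ (α = 0 ∧ β = 0 ∧ γ = 0)) :
    {t : ℝ | (1 - t ^ 2 - t ^ 4) * α + 2 * t * β + 2 * t ^ 2 * γ =
      c * (1 + t ^ 2 + t ^ 4)}.Finite := by
  let P : Polynomial ℝ := Polynomial.C (α - c) + Polynomial.C (2 * β) * Polynomial.X +
    Polynomial.C (2 * γ - α - c) * Polynomial.X ^ 2 + Polynomial.C (-α - c) * Polynomial.X ^ 4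
  have e : ∀ t, P.eval t = α - c + 2 * β * t + (2 * γ - α - c) * t ^ 2 + (-α - c) * t ^ 4 := by
    intro t
    simp only [P, Polynomial.eval_add, Polynomial.eval_mul, Polynomial.eval_C, Polynomial.eval_X,
      Polynomial.eval_pow]
  have hP : P ≠ 0 := by
    intro h0
    have h1 := e 0
    have h2 := e 1
    have h3 := e (-1)
    have h4 := e 2
    rw [h0, Polynomial.eval_zero] at h1 h2 h3 h4
    exact h ⟨by linarith, by linarith, by linarith⟩
  refine (Polynomial.finite_setOfPred_isRoot hP).subset fun t ht => ?_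
  simp only [mem_ofPred_eq] at ht
  simp only [mem_ofPred_eq, Polynomial.IsRoot.def, e]
  linarith

lemma step_Gen {J : Type} [Finite J] (a : J → E3) (c : J → ℝ) {w : E3} (hw : dt w w = 1) {δ : ℝ}
    (hδ : 0 < δ) : ∃ p : E3, dt p p = 1 ∧ ‖p - w‖ ≤ δ ∧ ∀ j, a j ≠ 0 → dt (a j) p ≠ c j := by
  obtain ⟨e, he, hwe⟩ := exists_frame (n := w)
  have hf := dt_cr_unit hw he hwe
  have h1 := dt_cr_left w e
  have h2 := dt_cr_right w e
  have pos : ∀ t : ℝ, 1 + t ^ 2 + t ^ 4 ≠ 0 := fun t => by positivity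
  let p : ℝ → E3 := fun t =>
    (1 + t ^ 2 + t ^ 4)⁻¹ • ((1 - t ^ 2 - t ^ 4) • w + (2 * t) • e + (2 * t ^ 2) • cr w e)
  have hp : Continuous p := by
    refine Continuous.smul (Continuous.inv₀ (by fun_prop) pos) (by fun_prop)
  have p0 : p 0 = w := by simp [p]
  have hU : {t | ‖p t - w‖ ≤ δ} ∈ 𝓝 (0 : ℝ) := by
    have := hp.continuousAt (x := 0) (Metric.closedBall_mem_nhds (p 0) hδ)
    rw [p0] at this
    filter_upwards [this] with t ht
    exact mem_closedBall_iff_norm.1 ht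
  have hF : (⋃ j, {t | a j ≠ 0 ∧ dt (a j) (p t) = c j}).Finite := by
    refine finite_iUnion fun j => ?_
    by_cases h : a j = 0
    · simp [h]
    refine (fin_Gen (α := dt (a j) w) (β := dt (a j) e) (γ := dt (a j) (cr w e)) (c := c j)
      fun h0 => h ?_).subset fun t ht => ?_
    · rw [frame_expand hw he hwe (a j), dt_comm w, dt_comm e, dt_comm (cr w e), h0.1, h0.2.1,
        h0.2.2]
      simp
    · have h3 := ht.2
      simp only [p, dt_smul, dt_add] at h3
      rw [inv_mul_eq_iff_eq_mul₀ (pos t)] at h3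
      simp only [mem_ofPred_eq]
      linarith
  obtain ⟨t, ht, hn⟩ := (infinite_of_mem_nhds _ hU).exists_notMem_finite hF
  refine ⟨p t, ?_, ht, fun j hj h => hn (mem_iUnion.2 ⟨j, hj, h⟩)⟩
  have := pos t
  simp only [p, dt_smul, smul_dt, dt_add, add_dt, hw, he, hf, hwe, h1, h2, dt_comm e w,
    dt_comm (cr w e) w, dt_comm (cr w e) e]
  field_simp
  ring

lemma col_Gen {x y z : E3} (hx : dt x x = 1) (hy : dt y y = 1) (hz : dt z z = 1) (h1 : x ≠ y)
    (h2 : x ≠ z) (h3 : y ≠ z) : cr (y - x) (z - x) ≠ 0 := by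
  intro h
  obtain ⟨b, rfl⟩ : ∃ b, y = x + b := ⟨y - x, by abel⟩
  obtain ⟨c, rfl⟩ : ∃ c, z = x + c := ⟨z - x, by abel⟩
  rw [add_sub_cancel_left, add_sub_cancel_left] at h
  have hb : b ≠ 0 := fun h0 => h1 (by rw [h0, add_zero])
  have hb' := (dt_self_pos hb).ne'
  have e : dt b b • c - dt b c • b = cr (cr b c) b := by
    apply ext3 <;> simp [dt] <;> ring
  have e0 : cr (0 : E3) b = 0 := by
    apply ext3 <;> simp
  rw [h, e0, sub_eq_zero] at e
  obtain ⟨l, rfl⟩ : ∃ l : ℝ, c = l • b :=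
    ⟨(dt b b)⁻¹ * dt b c, by rw [mul_smul, ← e, inv_smul_smul₀ hb']⟩
  simp only [dt_add, add_dt, dt_smul, smul_dt, hx, dt_comm b x] at hy hz
  have h4 : l * (l - 1) * dt b b = 0 := by linear_combination hz - l * hy
  rcases mul_eq_zero.1 ((mul_eq_zero.1 h4).resolve_right hb') with h5 | h5
  · exact h2 (by rw [h5, zero_smul, add_zero])
  · exact h3 (by rw [sub_eq_zero.1 h5, one_smul])

theorem gen_st : GenSt := by
  intro ι _ _ u hu δ hδ
  have main : ∀ s : Finset ι, ∃ w : ι → E3, Unit1 w ∧ (∀ i, ‖w i - u i‖ ≤ δ) ∧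
      (∀ i ∈ s, ∀ j ∈ s, w i = w j → i = j) ∧ ∀ x, ∀ i ∈ s, ∀ j ∈ s, ∀ k ∈ s, ∀ l ∈ s,
        dt (w i) x = 1 → dt (w j) x = 1 → dt (w k) x = 1 → dt (w l) x = 1 →
          i = j ∨ i = k ∨ i = l ∨ j = k ∨ j = l ∨ k = l := by
    intro s
    induction s using Finset.induction_on with
    | empty => exact ⟨u, hu, fun i => by simp [hδ.le], by simp, by simp⟩
    | insert n s hn ih =>
      obtain ⟨w, w1, w2, w3, w4⟩ := ih
      obtain ⟨p, p1, p2, p3⟩ := step_Gen (J := ι ⊕ ι × ι × ι)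
        (Sum.elim w fun q => cr (w q.2.1 - w q.1) (w q.2.2 - w q.1))
        (Sum.elim (fun _ => 1) fun q => dt (cr (w q.2.1 - w q.1) (w q.2.2 - w q.1)) (w q.1))
        (hu n) hδ
      have ne : ∀ i, w i ≠ p := fun i h => by
        refine p3 (Sum.inl i) (fun h0 => ?_) (by simp only [Sum.elim_inl, h, p1])
        have h1 := w1 i
        simp only [Sum.elim_inl] at h0
        rw [h0, dt_zero] at h1
        exact zero_ne_one h1
      have key : ∀ x, ∀ i ∈ s, ∀ j ∈ s, ∀ k ∈ s, dt (w i) x = 1 → dt (w j) x = 1 →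
          dt (w k) x = 1 → dt p x = 1 → i = j ∨ i = k ∨ j = k := by
        intro x i hi j hj k hk a1 a2 a3 a4
        by_contra hc
        push Not at hc
        have b1 := p3 (Sum.inr (i, j, k)) (col_Gen (w1 i) (w1 j) (w1 k)
          (fun h => hc.1 (w3 i hi j hj h)) (fun h => hc.2.1 (w3 i hi k hk h))
          fun h => hc.2.2 (w3 j hj k hk h))
        simp only [Sum.elim_inr] at b1
        have b2 : det3 (p - w i) (w j - w i) (w k - w i) ≠ 0 := by
          rw [det3, dt_comm, dt_sub]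
          exact sub_ne_zero.2 b1
        have b3 : x = 0 := eq_of_dt3 b2 (by rw [sub_dt, a4, a1, sub_self, dt_zero])
          (by rw [sub_dt, a2, a1, sub_self, dt_zero]) (by rw [sub_dt, a3, a1, sub_self, dt_zero])
        rw [b3, dt_zero] at a4
        exact zero_ne_one a4
      have cs : ∀ i ∈ insert n s, (i = n ∧ Function.update w n p i = p) ∨
          (i ∈ s ∧ Function.update w n p i = w i) := fun i hi => by
        rcases Finset.mem_insert.1 hi with rfl | h
        · exact Or.inl ⟨rfl, Function.update_self ..⟩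
        · exact Or.inr ⟨h, Function.update_of_ne (fun e : i = n => hn (e ▸ h)) _ _⟩
      refine ⟨Function.update w n p, fun i => ?_, fun i => ?_, fun i hi j hj h => ?_,
        fun x i hi j hj k hk l hl a1 a2 a3 a4 => ?_⟩
      · by_cases h : i = n
        · rw [h, Function.update_self]
          exact p1
        · rw [Function.update_of_ne h]
          exact w1 i
      · by_cases h : i = n
        · rw [h, Function.update_self]
          exact p2
        · rw [Function.update_of_ne h]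
          exact w2 i
      · rcases cs i hi with ⟨m1, e1⟩ | ⟨m1, e1⟩ <;> rcases cs j hj with ⟨m2, e2⟩ | ⟨m2, e2⟩ <;>
          rw [e1, e2] at h
        · exact m1.trans m2.symm
        · exact absurd h.symm (ne j)
        · exact absurd h (ne i)
        · exact w3 i m1 j m2 h
      · rcases cs i hi with ⟨m1, e1⟩ | ⟨m1, e1⟩ <;> rcases cs j hj with ⟨m2, e2⟩ | ⟨m2, e2⟩ <;>
          rcases cs k hk with ⟨m3, e3⟩ | ⟨m3, e3⟩ <;> rcases cs l hl with ⟨m4, e4⟩ | ⟨m4, e4⟩ <;>
          rw [e1] at a1 <;> rw [e2] at a2 <;> rw [e3] at a3 <;> rw [e4] at a4 <;>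
          first
            | exact w4 x i m1 j m2 k m3 l m4 a1 a2 a3 a4
            | exact (key x j m2 k m3 l m4 a2 a3 a4 a1).elim (by tauto) (by tauto)
            | exact (key x i m1 k m3 l m4 a1 a3 a4 a2).elim (by tauto) (by tauto)
            | exact (key x i m1 j m2 l m4 a1 a2 a4 a3).elim (by tauto) (by tauto)
            | exact (key x i m1 j m2 k m3 a1 a2 a3 a4).elim (by tauto) (by tauto)
            | simp [m1, m2, m3, m4]
  obtain ⟨w, w1, w2, w3, w4⟩ := main Finset.univ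
  exact ⟨w, w1, w2, fun i j h => w3 i (Finset.mem_univ i) j (Finset.mem_univ j) h,
    fun x _ i j k l => w4 x i (Finset.mem_univ i) j (Finset.mem_univ j) k (Finset.mem_univ k) l
      (Finset.mem_univ l)⟩

end Pool.Agent.MP_5cfbf6_gt.P7
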