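import Pool.Agent.MP_5cfbf6_gt.P7.AAE

set_option autoImplicit false

namespace Pool.Agent.MP_5cfbf6_gt.P7

namespace AA

open Real Set

def hq (a : AF) : AF := addc one (mul a a)

def hr (a : AF) : AF := inv (hq a) 4294967296

def hs (a : AF) : AF := mul a (hr a)

def hc (a : AF) : AF := subc one (add (hr a) (hr a))

def hd (a s p e : AF) : AF :=
  sub (add (mul (mul a (mul s (hq a))) p) (mul s (subc one (mul a a)))) (mul (add e e) (hs a))

def ho (a b s t p : AF) : AF :=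
  sub (sub (mul (mul (hq a) (hq b)) p) (mul (mul s (hq a)) (hc b))) (mul (mul t (hq b)) (hc a))

def ab (A : AF) (m : ℤ) : Bool := ge A (-m) && ge (sub (cst 0 0) A) (-m)

def q2 (h1 q u v w x : AF) : Bool :=
  ge q 773094114 && (ge (add (sub h1 v) u) 4294967296 && (ge (add (add h1 v) u) 12884901888 &&
    (ab (sub w x) 1717986918 && (ab (add w x) 1889785610 && ab (sub h1 u) 3221225472))))

def q1 (h1 h2 h3 h12 h13 h23 : AF) : Bool :=
  q2 h1 (sub (add h2 h3) h23) (smul 2104533975 1 (add (add h2 h3) h23))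
    (smul 3006477107 1 (add h12 h13)) (sub h12 h13) (smul 6012954214 1 (sub h2 h3))

def q0 (a b c p e : AF) : Bool :=
  q1 (hd a (add b c) p e) (hd b (add c a) p e) (hd c (add a b) p e)
    (ho a b (add b c) (add c a) p) (ho a c (add b c) (add a b) p) (ho b c (add c a) (add a b) p)

def chk (a b c : AF) : Bool :=
  q0 a b c (add (add (hs a) (hs b)) (hs c))
    (sub (add (add (mul a b) (mul b c)) (mul c a)) (cst one 0))

lemma chk_true : chk ⟨5916317450, Int.ofNat 216895850, 0, 0, 0⟩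
    ⟨3122441224, 0, Int.ofNat 115964118, 0, 0⟩ ⟨3122441224, 0, 0, Int.ofNat 115964118, 0⟩ = true := by
  decide +kernel

noncomputable def rd (a s p e : ℝ) : ℝ :=
  a * (s * (1 + a * a)) * p + s * (1 - a * a) - (e + e) * (a * (1 + a * a)⁻¹)

noncomputable def ro (a b s t p : ℝ) : ℝ :=
  (1 + a * a) * (1 + b * b) * p - s * (1 + a * a) * (1 - ((1 + b * b)⁻¹ + (1 + b * b)⁻¹))
    - t * (1 + b * b) * (1 - ((1 + a * a)⁻¹ + (1 + a * a)⁻¹))

variable {E : Eps} {a b s t p e : ℝ} {A B S T P D : AF}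

lemma enc_hq (h : Enc E a A) : Enc E (1 + a * a) (hq A) := (h.mul h).addc

lemma enc_hr (h : Enc E a A) : Enc E (1 + a * a)⁻¹ (hr A) :=
  (enc_hq h).inv (by norm_num) (by push_cast; nlinarith [mul_self_nonneg a])

lemma enc_hs (h : Enc E a A) : Enc E (a * (1 + a * a)⁻¹) (hs A) := h.mul (enc_hr h)

lemma enc_hc (h : Enc E a A) : Enc E (1 - ((1 + a * a)⁻¹ + (1 + a * a)⁻¹)) (hc A) :=
  ((enc_hr h).add (enc_hr h)).subc

lemma enc_hd (h : Enc E a A) (h1 : Enc E s S) (h2 : Enc E p P) (h3 : Enc E e D) :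
    Enc E (rd a s p e) (hd A S P D) :=
  (((h.mul (h1.mul (enc_hq h))).mul h2).add (h1.mul (h.mul h).subc)).sub
    ((h3.add h3).mul (enc_hs h))

lemma enc_ho (h : Enc E a A) (h' : Enc E b B) (h1 : Enc E s S) (h2 : Enc E t T) (h3 : Enc E p P) :
    Enc E (ro a b s t p) (ho A B S T P) :=
  ((((enc_hq h).mul (enc_hq h')).mul h3).sub ((h1.mul (enc_hq h)).mul (enc_hc h'))).sub
    ((h2.mul (enc_hq h')).mul (enc_hc h))

lemma Enc.ab (h : Enc E a A) {m : ℤ} (H : ab A m = true) : |a * 4294967296| ≤ m := by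
  simp only [AA.ab, Bool.and_eq_true] at H
  have h1 := h.ge H.1
  have h2 := ((enc_cst (x := 0) (c := 0) (r := 0) (by simp)).sub h).ge H.2
  push_cast at h1 h2
  rw [abs_le]
  constructor <;> linarith

lemma pair_nonneg {q m α β : ℝ} (h : |q * 4294967296| ≤ m) (hα : 0 < α)
    (hm : (m / 4294967296) ^ 2 ≤ 4 * α * β) (x y : ℝ) : 0 ≤ α * x ^ 2 + β * y ^ 2 + q * (x * y) := by
  have h1 : q ^ 2 ≤ (m / 4294967296) ^ 2 := by
    rw [abs_le] at h
    exact sq_le_sq' (by linarith [h.1]) (by linarith [h.2])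
  have h2 : 0 ≤ 4 * α * (α * x ^ 2 + β * y ^ 2 + q * (x * y)) := by
    nlinarith [sq_nonneg (2 * α * x + q * y), mul_nonneg (sub_nonneg.2 (h1.trans hm)) (sq_nonneg y)]
  exact nonneg_of_mul_nonneg_right h2 (by positivity) |> fun h => h

lemma q1_form {d1 d2 d3 o12 o13 o23 : ℝ} {D1 D2 D3 O12 O13 O23 : AF} (h1 : Enc E d1 D1)
    (h2 : Enc E d2 D2) (h3 : Enc E d3 D3) (h12 : Enc E o12 O12) (h13 : Enc E o13 O13)
    (h23 : Enc E o23 O23) (H : q1 D1 D2 D3 O12 O13 O23 = true) (x y z : ℝ) :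
    0 ≤ d1 * x ^ 2 + d2 * y ^ 2 + d3 * z ^ 2 + o12 * (x * y) + o13 * (x * z) + o23 * (y * z) := by
  have hu := ((h2.add h3).add h23).smul (l := 49 / 100) (k := 2104533975) (e := 1)
    (by norm_num [abs_le])
  have hv := (h12.add h13).smul (l := 7 / 10) (k := 3006477107) (e := 1) (by norm_num [abs_le])
  have hx := (h2.sub h3).smul (l := 7 / 5) (k := 6012954214) (e := 1) (by norm_num [abs_le])
  simp only [q1, q2, Bool.and_eq_true] at H
  obtain ⟨H0, H1, H2, H3, H4, H5⟩ := H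
  have g0 := ((h2.add h3).sub h23).ge H0
  have g1 := ((h1.sub hv).add hu).ge H1
  have g2 := ((h1.add hv).add hu).ge H2
  have g3 := ((h12.sub h13).sub hx).ab H3
  have g4 := ((h12.sub h13).add hx).ab H4
  have g5 := (h1.sub hu).ab H5
  obtain ⟨u, v, w, rfl, rfl, rfl⟩ : ∃ u v w : ℝ, x = v + w ∧ y = u + 7 / 10 * (w - v) ∧
      z = -u + 7 / 10 * (w - v) :=
    ⟨(y - z) / 2, x / 2 - 5 / 14 * (y + z), x / 2 + 5 / 14 * (y + z), by ring, by ring, by ring⟩
  have p3 := pair_nonneg g3 (α := 1 / 10) (β := 2 / 5) (by norm_num) (by norm_num) u v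
  have p4 := pair_nonneg g4 (α := 1 / 20) (β := 1) (by norm_num) (by norm_num) u w
  have p5 := pair_nonneg g5 (α := 1 / 4) (β := 3 / 5) (by norm_num) (by norm_num) v w
  push_cast at g0 g1 g2
  have r0 := mul_nonneg (by linarith : 0 ≤ d2 + d3 - o23 - 3 / 20) (sq_nonneg u)
  have r1 := mul_nonneg (by linarith : 0 ≤ d1 - 7 / 10 * (o12 + o13)
    + 49 / 100 * (d2 + d3 + o23) - 9 / 10) (sq_nonneg v)
  have r2 := mul_nonneg (by linarith : 0 ≤ d1 + 7 / 10 * (o12 + o13)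
    + 49 / 100 * (d2 + d3 + o23) - 11 / 5) (sq_nonneg w)
  linarith

end AA

open AA in
theorem hess_st : HessSt := by
  intro a b c ha hb hc x y z
  obtain ⟨E, e1, e2', e3⟩ := box_enc (c := a) (a1 := b) (a2 := c) (m1 := 5916317450)
    (m2 := 3122441224) (m3 := 3122441224) (r1 := 216895850) (r2 := 115964118) (r3 := 115964118)
    (by rw [abs_le]; push_cast; constructor <;> linarith [ha.1, ha.2])
    (by rw [abs_le]; push_cast; constructor <;> linarith [hb.1, hb.2])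
    (by rw [abs_le]; push_cast; constructor <;> linarith [hc.1, hc.2])
  have hp := ((enc_hs e1).add (enc_hs e2')).add (enc_hs e3)
  have he := (((e1.mul e2').add (e2'.mul e3)).add (e3.mul e1)).sub
    (enc_cst (x := 1) (c := one) (r := 0) (by simp [one]))
  have h := q1_form (enc_hd e1 (e2'.add e3) hp he) (enc_hd e2' (e3.add e1) hp he)
    (enc_hd e3 (e1.add e2') hp he) (enc_ho e1 e2' (e2'.add e3) (e3.add e1) hp)
    (enc_ho e1 e3 (e2'.add e3) (e1.add e2') hp) (enc_ho e2' e3 (e3.add e1) (e1.add e2') hp)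
    chk_true x y z
  have k1 : ∀ t : ℝ, (1 + t * t) * (1 + t * t)⁻¹ = 1 := fun t =>
    mul_inv_cancel₀ (by nlinarith [mul_self_nonneg t])
  have k2 : ∀ t : ℝ, (1 - t ^ 2) / (1 + t ^ 2) = 2 * (1 + t * t)⁻¹ - 1 := fun t => by
    rw [div_eq_mul_inv, pow_two]
    linear_combination -k1 t
  have k3 : ∀ t : ℝ, t / (1 + t ^ 2) = t * (1 + t * t)⁻¹ := fun t => by
    rw [div_eq_mul_inv, pow_two]
  rw [k2, k2, k2, k3, k3, k3, e2]
  unfold rd ro at h
  have ka := k1 a
  have kb := k1 b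
  have kc := k1 c
  generalize (1 + a * a)⁻¹ = ra at *
  generalize (1 + b * b)⁻¹ = rb at *
  generalize (1 + c * c)⁻¹ = rc at *
  refine le_of_le_of_eq (mul_nonneg zero_le_two h) ?_
  linear_combination (-4 * (b + c) * x ^ 2) * ka + (-4 * (c + a) * y ^ 2) * kb
    + (-4 * (a + b) * z ^ 2) * kc

end Pool.Agent.MP_5cfbf6_gt.P7
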