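import Pool.Agent.MP_5cfbf6_gt.P7.Base

set_option autoImplicit false

namespace Pool.Agent.MP_5cfbf6_gt.P7

open Set Filter Topology Real

lemma der_Inner {f f' : ℝ → ℝ} {b : ℝ} (hb : 0 ≤ b) (h : ∀ t ∈ Icc 0 b, HasDerivAt f (f' t) t)
    (h0 : ∀ t ∈ Icc 0 b, 0 ≤ f' t) : f 0 ≤ f b := by
  rcases hb.eq_or_lt with rfl | e
  · rfl
  obtain ⟨c, hc, g⟩ := exists_hasDerivAt_eq_slope f f' e
    (fun z hz => (h z hz).continuousAt.continuousWithinAt) fun z hz => h z (Ioo_subset_Icc_self hz)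
  have := h0 c (Ioo_subset_Icc_self hc)
  rw [g, le_div_iff₀ (sub_pos.2 e)] at this
  linarith

lemma path_Inner {lo hi p q t : ℝ} (hp : p ∈ Icc lo hi) (hq : q ∈ Icc lo hi) (ht : t ∈ Icc (0 : ℝ) 1) :
    tan (arctan p + t * (arctan q - arctan p)) ∈ Icc lo hi ∧
      HasDerivAt (fun t => tan (arctan p + t * (arctan q - arctan p)))
        ((1 + tan (arctan p + t * (arctan q - arctan p)) ^ 2) * (arctan q - arctan p)) t := by
  have m := arctan_strictMono.monotone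
  have h1 : arctan lo ≤ arctan p + t * (arctan q - arctan p) := by
    nlinarith [mul_nonneg ht.1 (sub_nonneg.2 (m hq.1)),
      mul_nonneg (sub_nonneg.2 ht.2) (sub_nonneg.2 (m hp.1))]
  have h2 : arctan p + t * (arctan q - arctan p) ≤ arctan hi := by
    nlinarith [mul_nonneg ht.1 (sub_nonneg.2 (m hq.2)),
      mul_nonneg (sub_nonneg.2 ht.2) (sub_nonneg.2 (m hp.2))]
  have h3 := (neg_pi_div_two_lt_arctan lo).trans_le h1
  have h4 := h2.trans_lt (arctan_lt_pi_div_two hi)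
  have h5 := arctan_tan h3 h4
  have h6 := (cos_pos_of_mem_Ioo ⟨h3, h4⟩).ne'
  refine ⟨⟨arctan_strictMono.le_iff_le.1 (by rwa [h5]), arctan_strictMono.le_iff_le.1 (by rwa [h5])⟩,
    ?_⟩
  have d : HasDerivAt (fun t => arctan p + t * (arctan q - arctan p)) (arctan q - arctan p) t := by
    simpa using ((hasDerivAt_id t).mul_const (arctan q - arctan p)).const_add (arctan p)
  refine ((hasDerivAt_tan h6).comp t d).congr_deriv ?_
  rw [← inv_one_add_tan_sq h6, one_div, inv_inv]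

lemma s0_Inner {A : ℝ → ℝ} {x t : ℝ} (h : HasDerivAt A ((1 + A t ^ 2) * x) t) :
    HasDerivAt (fun t => A t / (1 + A t ^ 2)) ((1 - A t ^ 2) / (1 + A t ^ 2) * x) t := by
  have p : 1 + A t ^ 2 ≠ 0 := by positivity
  refine (h.fun_div ((h.fun_pow 2).const_add 1) p).congr_deriv ?_
  push_cast
  field_simp
  ring

lemma s1_Inner {A : ℝ → ℝ} {x t : ℝ} (h : HasDerivAt A ((1 + A t ^ 2) * x) t) :
    HasDerivAt (fun t => (1 - A t ^ 2) / (1 + A t ^ 2) * x) (-4 * (A t / (1 + A t ^ 2) * x ^ 2)) t := by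
  have p : 1 + A t ^ 2 ≠ 0 := by positivity
  refine ((((h.fun_pow 2).const_sub 1).fun_div ((h.fun_pow 2).const_add 1) p).mul_const
    x).congr_deriv ?_
  push_cast
  field_simp
  ring

lemma core_Inner (h1 : HessSt) {A B C : ℝ → ℝ} {x y z : ℝ}
    (hA : ∀ t ∈ Icc (0 : ℝ) 1, A t ∈ Icc (1.327 : ℝ) 1.428 ∧ HasDerivAt A ((1 + A t ^ 2) * x) t)
    (hB : ∀ t ∈ Icc (0 : ℝ) 1, B t ∈ Icc (0.7 : ℝ) 0.754 ∧ HasDerivAt B ((1 + B t ^ 2) * y) t)
    (hC : ∀ t ∈ Icc (0 : ℝ) 1, C t ∈ Icc (0.7 : ℝ) 0.754 ∧ HasDerivAt C ((1 + C t ^ 2) * z) t) :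
    (e2 (A 0) (B 0) (C 0) - 1) * (A 0 / (1 + A 0 ^ 2) + B 0 / (1 + B 0 ^ 2) + C 0 / (1 + C 0 ^ 2)) +
      (((B 0 + C 0) * (1 + A 0 ^ 2) * x + (C 0 + A 0) * (1 + B 0 ^ 2) * y +
          (A 0 + B 0) * (1 + C 0 ^ 2) * z) *
        (A 0 / (1 + A 0 ^ 2) + B 0 / (1 + B 0 ^ 2) + C 0 / (1 + C 0 ^ 2)) +
      (e2 (A 0) (B 0) (C 0) - 1) * ((1 - A 0 ^ 2) / (1 + A 0 ^ 2) * x +
        (1 - B 0 ^ 2) / (1 + B 0 ^ 2) * y + (1 - C 0 ^ 2) / (1 + C 0 ^ 2) * z)) ≤
    (e2 (A 1) (B 1) (C 1) - 1) *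
      (A 1 / (1 + A 1 ^ 2) + B 1 / (1 + B 1 ^ 2) + C 1 / (1 + C 1 ^ 2)) := by
  set E1 : ℝ → ℝ := fun t => (B t + C t) * (1 + A t ^ 2) * x + (C t + A t) * (1 + B t ^ 2) * y +
    (A t + B t) * (1 + C t ^ 2) * z with hE1
  set S0 : ℝ → ℝ := fun t => A t / (1 + A t ^ 2) + B t / (1 + B t ^ 2) + C t / (1 + C t ^ 2)
    with hS0
  set S1 : ℝ → ℝ := fun t => (1 - A t ^ 2) / (1 + A t ^ 2) * x +
    (1 - B t ^ 2) / (1 + B t ^ 2) * y + (1 - C t ^ 2) / (1 + C t ^ 2) * z with hS1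
  have dE : ∀ t ∈ Icc (0 : ℝ) 1, HasDerivAt (fun t => e2 (A t) (B t) (C t) - 1) (E1 t) t :=
    fun t ht => by
      have a := (hA t ht).2
      have b := (hB t ht).2
      have c := (hC t ht).2
      refine ((((a.fun_mul b).fun_add (b.fun_mul c)).fun_add (c.fun_mul a)).sub_const
        1).congr_deriv ?_
      simp only [hE1]
      ring
  have dS0 : ∀ t ∈ Icc (0 : ℝ) 1, HasDerivAt S0 (S1 t) t := fun t ht =>
    ((s0_Inner (hA t ht).2).fun_add (s0_Inner (hB t ht).2)).fun_add (s0_Inner (hC t ht).2)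
  have mono : ∀ s ∈ Icc (0 : ℝ) 1, E1 0 * S0 0 + (e2 (A 0) (B 0) (C 0) - 1) * S1 0 ≤
      E1 s * S0 s + (e2 (A s) (B s) (C s) - 1) * S1 s := fun s hs => by
    have sub : ∀ t ∈ Icc 0 s, t ∈ Icc (0 : ℝ) 1 := fun t ht => ⟨ht.1, ht.2.trans hs.2⟩
    refine der_Inner (f := fun s => E1 s * S0 s + (e2 (A s) (B s) (C s) - 1) * S1 s) hs.1
      (fun t ht => ?_) fun t ht =>
        h1 (A t) (B t) (C t) (hA t (sub t ht)).1 (hB t (sub t ht)).1 (hC t (sub t ht)).1 x y z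
    have a := (hA t (sub t ht)).2
    have b := (hB t (sub t ht)).2
    have c := (hC t (sub t ht)).2
    have d1 := ((((b.fun_add c).fun_mul ((a.fun_pow 2).const_add 1)).mul_const x).fun_add
      (((c.fun_add a).fun_mul ((b.fun_pow 2).const_add 1)).mul_const y)).fun_add
      (((a.fun_add b).fun_mul ((c.fun_pow 2).const_add 1)).mul_const z)
    have d2 := ((s1_Inner a).fun_add (s1_Inner b)).fun_add (s1_Inner c)
    refine ((d1.fun_mul (dS0 t (sub t ht))).fun_add ((dE t (sub t ht)).fun_mul d2)).congr_deriv ?_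
    simp only [hE1, hS0, hS1]
    push_cast
    ring
  have := der_Inner (f := fun s => (e2 (A s) (B s) (C s) - 1) * S0 s -
    s * (E1 0 * S0 0 + (e2 (A 0) (B 0) (C 0) - 1) * S1 0)) zero_le_one
    (fun t ht => ((dE t ht).fun_mul (dS0 t ht)).fun_sub ((hasDerivAt_id t).mul_const _))
    fun t ht => by linarith [mono t ht]
  simp only [hE1, hS0, hS1] at this
  linarith

theorem inner_st (h1 : HessSt) : InnerSt := by
  intro a b c ha hb hc
  have t0 := tau_pos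
  obtain ⟨t1, t2⟩ := tau_bd
  have e1 : arctan tau = π / 5 := arctan_tan (by linarith [pi_pos]) (by linarith [pi_pos])
  have e3 : arctan tau⁻¹ = 3 * π / 10 := by
    rw [arctan_inv_of_pos t0, e1]
    ring
  have m1 : tau⁻¹ ∈ Icc (1.327 : ℝ) 1.428 := by
    constructor
    · rw [le_inv_comm₀ (by norm_num) t0]
      norm_num at t2 ⊢
      linarith
    · rw [inv_le_comm₀ t0 (by norm_num)]
      norm_num at t1 ⊢
      linarith
  have m2 : tau ∈ Icc (0.7 : ℝ) 0.754 := ⟨by linarith, by linarith⟩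
  have := core_Inner h1 (fun t ht => path_Inner m1 ha ht) (fun t ht => path_Inner m2 hb ht)
    fun t ht => path_Inner m2 hc ht
  simp only [zero_mul, add_zero, one_mul, add_sub_cancel, tan_arctan] at this
  rw [e1, e3] at this
  rw [mA]
  generalize arctan a = x at *
  generalize arctan b = y at *
  generalize arctan c = z at *
  refine le_trans (le_of_eq ?_) (sub_le_sub_right (sub_le_sub_right (sub_le_sub_right this _) _) _)
  unfold e2
  field_simp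
  ring

end Pool.Agent.MP_5cfbf6_gt.P7
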