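import Pool.Agent.MP_5cfbf6_gt.P7.Base

set_option autoImplicit false

namespace Pool.Agent.MP_5cfbf6_gt.P7

open Set Filter Topology Real

lemma mA_neg_Low : mA < 0 := by
  have h1 := tau_bd
  have h2 := tau_sq_bd
  have h3 := pi_gt_three
  unfold mA
  nlinarith [h1.1, h1.2, h2.1, h2.2]

lemma dg_le_Low {u : Fin 7 → E3} {Tr : Fin 7 → Fin 7 → Fin 7 → Prop} (S : Sys u 1 Tr)
    {N M : Fin 7} (hne : N ≠ M) (hA : ¬ Adj Tr N M) : dg Tr N ≤ 5 := by
  have hsub : {j | Adj Tr N j} ⊆ ((((Finset.univ : Finset (Fin 7)).erase N).erase M : Finset (Fin 7)) :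
      Set (Fin 7)) := by
    intro j hj
    have hj' : Adj Tr N j := hj
    have h1 : j ≠ N := by
      obtain ⟨k, T⟩ := hj'
      exact (S.ne12 T).symm
    have h2 : j ≠ M := by
      rintro rfl
      exact hA hj'
    simp [h1, h2]
  have h := Set.ncard_le_ncard hsub (Finset.finite_toSet _)
  rw [Set.ncard_coe_finset, Finset.card_erase_of_mem (by simp [hne.symm]),
    Finset.card_erase_of_mem (Finset.mem_univ _)] at h
  simpa [dg] using h

lemma caseA_Low (h1 : CertSt) (h3 : BipSt) (h4 : AnaASt) {u : Fin 7 → E3}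
    {Tr : Fin 7 → Fin 7 → Fin 7 → Prop} (hu : Unit1 u) (S : Sys u 1 Tr)
    (hD : ∀ i j k, Tr i j k → Dom (TT3 u j k i) (TT3 u k i j) (TT3 u i j k))
    (hs : ∑ i, dg Tr i ≤ 30) (h4le : ∀ i, 4 ≤ dg Tr i) : 10 * tau ≤ vol u 1 := by
  obtain ⟨N, M, hne, hA, hP⟩ := h3 Tr S.s12 S.s23 (fun i j k T => S.ne12 T)
    (fun i j k T => two_tr S T) h4le hs
  have hA' : ¬ Adj Tr M N := by
    rintro ⟨k, T⟩
    exact hA ⟨k, S.s12 _ _ _ T⟩
  have hno : ∀ i j k, Tr i j k → (i = N ∨ i = M) → ¬ (j = N ∨ j = M) := by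
    intro i j k T hi hj
    have hij := S.ne12 T
    rcases hi with rfl | rfl <;> rcases hj with rfl | rfl
    · exact hij rfl
    · exact hA ⟨k, T⟩
    · exact hA' ⟨k, T⟩
    · exact hij rfl
  have ht2 : 0 ≤ tau ^ 2 := sq_nonneg _
  have key := h1 (Fin 7) u Tr hu S
    (fun i => if i = N ∨ i = M then (3 + 3 * tau ^ 2) / 2 else (5 + tau ^ 2) / 2)
    (fun i => if i = N ∨ i = M then mA else 0)
    (fun i => by
      by_cases h : i = N ∨ i = M
      · simp only [if_pos h]; positivity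
      · simp only [if_neg h]; positivity)
    (fun i j k T => by
      have D := hD i j k T
      have T2 : Tr j k i := S.rot T
      have T3 : Tr k i j := S.rot T2
      have e1 : (5 + tau ^ 2) / 2 + (5 + tau ^ 2) / 2 = 5 + tau ^ 2 := by ring
      have e2 : (5 + tau ^ 2) / 2 + (3 + 3 * tau ^ 2) / 2 = 4 + 2 * tau ^ 2 := by ring
      have e3 : (3 + 3 * tau ^ 2) / 2 + (5 + tau ^ 2) / 2 = 4 + 2 * tau ^ 2 := by ring
      by_cases hi : i = N ∨ i = M
      · have hj := hno i j k T hi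
        have hk := hno i k j (S.s23 _ _ _ T) hi
        simp only [if_pos hi, if_neg hj, if_neg hk, e1, e2, e3, add_zero]
        exact h4 _ _ _ D
      · by_cases hj : j = N ∨ j = M
        · have hk := hno j k i T2 hj
          simp only [if_pos hj, if_neg hi, if_neg hk, e1, e2, e3, add_zero, zero_add]
          rw [← Ftri_rot]
          exact h4 _ _ _ D.rot
        · have hk : k = N ∨ k = M := by
            have := hP i j k T
            tauto
          simp only [if_pos hk, if_neg hi, if_neg hj, e1, e2, e3, add_zero, zero_add]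
          rw [← Ftri_rot, ← Ftri_rot]
          exact h4 _ _ _ D.rot.rot)
  have hpt : ∀ i : Fin 7,
      2 * π * (if i = N ∨ i = M then (3 + 3 * tau ^ 2) / 2 else (5 + tau ^ 2) / 2)
        + (dg Tr i : ℝ) * (if i = N ∨ i = M then mA else 0)
      = π * (5 + tau ^ 2) + (if i = N then 2 * π * (tau ^ 2 - 1) + dg Tr N * mA else 0)
        + (if i = M then 2 * π * (tau ^ 2 - 1) + dg Tr M * mA else 0) := by
    intro i
    by_cases a : i = N
    · subst a
      simp only [true_or, if_true, if_neg hne]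
      ring
    · by_cases b : i = M
      · subst b
        simp only [or_true, if_true, if_neg a]
        ring
      · simp only [a, b, or_self, if_false]
        ring
  simp only [hpt, Finset.sum_add_distrib, Finset.sum_ite_eq', Finset.mem_univ, if_true,
    Finset.sum_const, Finset.card_univ, Fintype.card_fin, nsmul_eq_mul] at key
  have dN : (dg Tr N : ℝ) ≤ 5 := by exact_mod_cast dg_le_Low S hne hA
  have dM : (dg Tr M : ℝ) ≤ 5 := by exact_mod_cast dg_le_Low S hne.symm hA'
  have hm := mA_neg_Low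
  have b1 : 5 * mA ≤ dg Tr N * mA := by nlinarith
  have b2 : 5 * mA ≤ dg Tr M * mA := by nlinarith
  have hm2 : mA = 3 * tau - (5 + tau ^ 2) * (3 * π / 10) - 2 * (4 + 2 * tau ^ 2) * (π / 5) := rfl
  push_cast at key
  nlinarith

lemma caseB_Low (h1 : CertSt) (h5 : AnaBSt) {u : Fin 7 → E3}
    {Tr : Fin 7 → Fin 7 → Fin 7 → Prop} (hu : Unit1 u) (S : Sys u 1 Tr)
    (hD : ∀ i j k, Tr i j k → Dom (TT3 u j k i) (TT3 u k i j) (TT3 u i j k))
    (hs : ∑ i, dg Tr i ≤ 30) {i0 : Fin 7} (h0 : dg Tr i0 ≤ 3) : 10 * tau ≤ vol u 1 := by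
  have key := h1 (Fin 7) u Tr hu S (fun i => alB (decide (5 ≤ dg Tr i)))
    (fun i => gaB (decide (5 ≤ dg Tr i)))
    (fun i => by unfold alB; split_ifs <;> norm_num)
    (fun i j k T => h5 _ _ _ _ _ _ (hD i j k T))
  have hpi := pi_gt_d6
  have hpt : ∀ i : Fin 7, 3.96072 - 3.0801 * ((dg Tr i : ℝ) - 4) + (if i = i0 then 0.2336 else 0)
      ≤ 2 * π * alB (decide (5 ≤ dg Tr i)) + dg Tr i * gaB (decide (5 ≤ dg Tr i)) := by
    intro i
    by_cases a : 5 ≤ dg Tr i
    · have hi : i ≠ i0 := by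
        rintro rfl
        omega
      have a' : (5 : ℝ) ≤ dg Tr i := by exact_mod_cast a
      simp only [a, decide_true, alB, gaB, if_true, if_neg hi]
      linarith
    · have a' : (dg Tr i : ℝ) ≤ 4 := by exact_mod_cast (by omega : dg Tr i ≤ 4)
      simp only [a, decide_false, alB, gaB, Bool.false_eq_true, if_false]
      by_cases hi : i = i0
      · subst hi
        have a2 : (dg Tr i : ℝ) ≤ 3 := by exact_mod_cast h0
        simp only [if_true]
        linarith
      · simp only [if_neg hi]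
        linarith
  have hsum := Finset.sum_le_sum fun i (_ : i ∈ (Finset.univ : Finset (Fin 7))) => hpt i
  have hs' : ∑ i, (dg Tr i : ℝ) ≤ 30 := by exact_mod_cast hs
  simp only [Finset.sum_add_distrib, Finset.sum_sub_distrib, Finset.sum_ite_eq', Finset.mem_univ,
    if_true, Finset.sum_const, Finset.card_univ, Fintype.card_fin, nsmul_eq_mul,
    ← Finset.mul_sum] at hsum key
  have ht := tau_bd.2
  push_cast at hsum
  linarith

theorem low_st (h1 : CertSt) (h2 : EulerSt) (h3 : BipSt) (h4 : AnaASt) (h5 : AnaBSt) (h6 : AprSt)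
    (h7 : TriSt) : LowSt := by
  intro u Tr hu S
  by_cases hb : ∃ i j k, Tr i j k ∧ 25 ≤ dt (vx u 1 i j k) (vx u 1 i j k)
  · obtain ⟨i, j, k, T, h25⟩ := hb
    have h := h6 (Fin 7) u hu S.bdd _ (S.vx_mem T) h25
    have ht := tau_bd.2
    have hpi := pi_gt_d6
    linarith
  · have hD : ∀ i j k, Tr i j k → Dom (TT3 u j k i) (TT3 u k i j) (TT3 u i j k) := by
      intro i j k T
      obtain ⟨a1, a2, a3, a4, a5, -⟩ := h7 (Fin 7) u Tr hu S i j k T
      refine ⟨a1, a2, a3, a5, ?_⟩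
      rw [a4]
      by_contra hc
      exact hb ⟨i, j, k, T, (not_le.1 hc).le⟩
    have hs : ∑ i, dg Tr i ≤ 30 := by
      have := h2 (Fin 7) u 1 Tr S
      rw [Fintype.card_fin] at this
      omega
    by_cases h4le : ∀ i, 4 ≤ dg Tr i
    · exact caseA_Low h1 h3 h4 hu S hD hs h4le
    · obtain ⟨i0, h0⟩ := not_forall.1 h4le
      exact caseB_Low h1 h5 hu S hD hs (i0 := i0) (by omega)

end Pool.Agent.MP_5cfbf6_gt.P7
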