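import Pool.Agent.MP_5cfbf6_gt.P7.Base

set_option autoImplicit false

namespace Pool.Agent.MP_5cfbf6_gt.P7

open Set Filter Topology Real

lemma alg_Main {V S W V₀ : ℝ} (h0 : 0 < V₀) (hW : V₀ ≤ W) (hS : 0 ≤ S)
    (h : 27 * V ^ 2 * W ≤ S ^ 3) : V ^ 2 / S ^ 3 ≤ V₀ ^ 2 / (3 * V₀) ^ 3 := by
  rcases hS.eq_or_lt with rfl | hS
  · rw [zero_pow three_ne_zero, div_zero]
    positivity
  · rw [div_le_div_iff₀ (by positivity) (by positivity)]
    have h1 : 27 * V ^ 2 * V₀ ≤ S ^ 3 :=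
      (mul_le_mul_of_nonneg_left hW (by positivity)).trans h
    calc _ = V₀ ^ 2 * (27 * V ^ 2 * V₀) := by ring
      _ ≤ _ := mul_le_mul_of_nonneg_left h1 (by positivity)

theorem main_st (h1 : WulffSt) (h2 : RepSt) (h3 : CardSt) (h4 : RedSt) (h5 : LowSt)
    (h6 : PrismSt) : IsBest prism5 ∧
      ∀ R : Set E3, IsPolytope R → (twoFaces R).ncard ≤ 7 → isoQuot R ≤ isoQuot prism5 := by
  obtain ⟨u₀, Tr, hu₀, S, e, hv⟩ := h6
  have hP : IsPolytope prism5 := e ▸ S.isPolytope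
  have hc : (twoFaces prism5).ncard = 7 := by
    rw [e, S.twoFaces_eq, ncard_range_of_injective S.face_inj]
    simp
  have p0 := S.var1_sum_pos
  rw [S.var1_sum_ar hu₀] at p0
  have key : ∀ R : Set E3, IsPolytope R → (twoFaces R).ncard ≤ 7 →
      isoQuot R ≤ isoQuot prism5 := by
    intro R hR h7
    obtain ⟨ι, _, _, u, h, hu, eR, ec, es⟩ := h2 R hR
    obtain ⟨b1, b2⟩ := h1 ι u h hu (eR ▸ hR.isCompact.isBounded) (eR ▸ hR.2)
    have b3 := h4 _ h5 ι u (ec.trans_le h7) hu b1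
    have b4 := alg_Main (by linarith : 0 < vol u₀ 1) (hv.trans b3)
      (Finset.sum_nonneg fun i _ => ENNReal.toReal_nonneg) b2
    rw [isoQuot, isoQuot, es, e, S.surfaceArea_eq, S.var1_sum_ar hu₀, eR]
    exact b4
  exact ⟨⟨hP, fun Q hQ hT => key Q hQ ((h3 _ _ hP hQ hT).symm.trans hc).le⟩, key⟩

end Pool.Agent.MP_5cfbf6_gt.P7
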