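import Pool.Agent.MP_5cfbf6_gt.P7.Base

set_option autoImplicit false

namespace Pool.Agent.MP_5cfbf6_gt.P7

open Set Real

lemma sin_Param (X : ℝ) : sin (arctan X) = X * cos (arctan X) := by
  have h := tan_mul_cos (cos_arctan_pos X).ne'
  rw [tan_arctan] at h
  exact h.symm

lemma side_Param {c E T : ℝ} (h0 : 0 < c) (hE : c ^ 2 * E = 1) (l : ℝ) :
    Hh ((E - 1) / (1 + T ^ 2)) T - l * arctan T = fr l c (arctan (c * T)) := by
  obtain ⟨X, hX⟩ : ∃ X, X = c * T := ⟨_, rfl⟩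
  have hT : T = X / c := by rw [hX]; field_simp
  have hE' : E = 1 / c ^ 2 := by field_simp; linarith
  have p1 : 0 < 1 + X ^ 2 := by positivity
  have p2 : 0 < X ^ 2 + c := by positivity
  have p3 : 0 < X ^ 2 + c ^ 2 := by positivity
  have hc : 1 + cos (2 * arctan X) = 2 / (1 + X ^ 2) := by
    rw [cos_two_mul, cos_sq_arctan]; ring
  have hs : sin (2 * arctan X) = 2 * X / (1 + X ^ 2) := by
    rw [sin_two_mul, sin_Param, mul_assoc, mul_assoc, ← sq, cos_sq_arctan]; ring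
  have hy : yy c (arctan X) = (1 - c ^ 2) / (1 + X ^ 2) := by rw [yy, hc]; ring
  have hy1 : 1 - (1 - c ^ 2) / (1 + X ^ 2) = (X ^ 2 + c ^ 2) / (1 + X ^ 2) := by
    field_simp; ring
  have hw0 : 1 - (1 - c) / 2 * (2 / (1 + X ^ 2)) = (X ^ 2 + c) / (1 + X ^ 2) := by
    field_simp; ring
  have hw : (1 - c) / 2 * (2 * X / (1 + X ^ 2)) / ((X ^ 2 + c) / (1 + X ^ 2)) =
      (1 - c) * X / (X ^ 2 + c) := by field_simp
  have hw1 : 1 - X * ((1 - c) * X / (X ^ 2 + c)) = c * (1 + X ^ 2) / (X ^ 2 + c) := by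
    field_simp; ring
  have ha : arctan X + arctan ((1 - c) * X / (X ^ 2 + c)) = arctan T := by
    rw [arctan_add (by
      have : 0 < c * (1 + X ^ 2) / (X ^ 2 + c) := by positivity
      linarith), hw1, hT]
    congr 1
    field_simp
    ring
  have hx : (E - 1) / (1 + T ^ 2) = (1 - c ^ 2) / (X ^ 2 + c ^ 2) := by
    rw [hE', hT]; field_simp; ring
  have x1 : 1 + (1 - c ^ 2) / (X ^ 2 + c ^ 2) = (1 + X ^ 2) / (X ^ 2 + c ^ 2) := by
    field_simp; ring
  have x2 : (1 - c ^ 2) / (X ^ 2 + c ^ 2) / ((1 + X ^ 2) / (X ^ 2 + c ^ 2)) =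
      (1 - c ^ 2) / (1 + X ^ 2) := by field_simp
  have x3 : (1 - c ^ 2) / (X ^ 2 + c ^ 2) * (1 + T ^ 2) = (1 - c ^ 2) / c ^ 2 := by
    rw [hT]; field_simp; ring
  have x4 : (1 - c ^ 2) / c ^ 2 / (1 + (1 - c ^ 2) / c ^ 2) = 1 - c ^ 2 := by
    have : 1 + (1 - c ^ 2) / c ^ 2 = 1 / c ^ 2 := by field_simp; ring
    rw [this]; field_simp
  rw [← hX, fr, hy, hc, hs, hy1, hw0, hw, ha, Hh, hx, x1, x2, x3, x4]
  congr 1
  generalize 1 - 9 / 8 * max 0 ((1 - c ^ 2) / (1 + X ^ 2) + 7 / 10 * (1 - c ^ 2) - 27 / 25) = Z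
  rw [hT]
  field_simp

lemma third_Param {X Y Z : ℝ} (h : 0 < X + Y) (he : X * Y + Y * Z + Z * X = 1) :
    arctan Z = π / 2 - arctan X - arctan Y := by
  have h1 : arctan (-Y) < arctan X := arctan_strictMono (by linarith)
  rw [arctan_neg] at h1
  have h2 := arctan_lt_pi_div_two X
  have h3 := arctan_lt_pi_div_two Y
  refine arctan_eq_of_tan_eq ?_ ⟨by linarith, by linarith⟩
  have p1 := cos_arctan_pos X
  have p2 := cos_arctan_pos Y
  have e : X * cos (arctan X) * cos (arctan Y) + cos (arctan X) * (Y * cos (arctan Y)) =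
    (X + Y) * (cos (arctan X) * cos (arctan Y)) := by ring
  rw [sub_sub, tan_eq_sin_div_cos, sin_pi_div_two_sub, cos_pi_div_two_sub, cos_add, sin_add,
    sin_Param, sin_Param, e, div_eq_iff (by positivity)]
  linear_combination (-(cos (arctan X) * cos (arctan Y))) * he

theorem param_st : ParamSt := by
  rintro a b d ⟨h1, -, -, h4, h5⟩
  obtain ⟨E, hE⟩ : ∃ E, E = e2 a b d := ⟨_, rfl⟩
  rw [← hE] at h4 h5
  have s1 : 1 ≤ √E := one_le_sqrt.2 h4
  have s5 : √E ≤ 5 := sqrt_le_iff.2 ⟨by norm_num, by linarith⟩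
  have s0 : 0 < √E := by linarith
  obtain ⟨c, hc⟩ : ∃ c, c = 1 / √E := ⟨_, rfl⟩
  have c0 : 0 < c := by rw [hc]; positivity
  have cE : c ^ 2 * E = 1 := by
    rw [hc, div_pow, sq_sqrt (by linarith)]
    field_simp
  have h3 : arctan (c * d) = π / 2 - arctan (c * a) - arctan (c * b) := by
    refine third_Param (by rw [← mul_add]; positivity) ?_
    rw [← cE, hE, e2]
    ring
  have ab : ∀ X, |arctan X| < π / 2 := fun X =>
    abs_lt.2 ⟨neg_pi_div_two_lt_arctan X, arctan_lt_pi_div_two X⟩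
  refine ⟨c, arctan (c * a), arctan (c * b), ⟨?_, ?_, ab _, ab _, h3 ▸ ab _⟩, ?_, ?_, ?_,
    fun l1 l2 l3 => ?_⟩
  · rw [hc]
    exact one_div_le_one_div_of_le s0 s5
  · rw [hc]
    exact (div_le_one s0).2 s1
  · rw [tan_arctan]; field_simp
  · rw [tan_arctan]; field_simp
  · rw [← h3, tan_arctan]; field_simp
  · rw [Fr, ← h3, ← side_Param c0 cE, ← side_Param c0 cE, ← side_Param c0 cE, Ftri, ← hE]
    ring

end Pool.Agent.MP_5cfbf6_gt.P7
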