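import Pool.Agent.MP_5cfbf6_gt.P7.Base

set_option autoImplicit false

namespace Pool.Agent.MP_5cfbf6_gt.P7

open Set Filter Topology Real

/-- the seven unit normals of the prism -/
noncomputable def uu_Prism (c s : ℝ) : Fin 7 → E3 :=
  ![!₂[0, 0, 1], !₂[0, 0, -1], !₂[1, 0, 0], !₂[c, s, 0], !₂[-c - 1 / 2, 2 * s * c, 0],
    !₂[-c - 1 / 2, -(2 * s * c), 0], !₂[c, -s, 0]]

/-- adjacency of the faces -/
def Q_Prism (i j : Fin 7) : Bool :=
  (i.val < 2 && 2 ≤ j.val) || (j.val < 2 && 2 ≤ i.val) ||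
    (2 ≤ i.val && 2 ≤ j.val && ((i.val + 1) % 5 == j.val % 5 || (j.val + 1) % 5 == i.val % 5))

/-- the algebraic facts used about the cosine and the sine of the angle -/
structure CS_Prism (c s : ℝ) : Prop where
  c2 : c ^ 2 = 1 / 4 - c / 2
  s2 : s ^ 2 = 3 / 4 + c / 2
  cp : 0 < c
  sp : 0 < s

namespace CS_Prism

variable {c s : ℝ}

lemma s2c (H : CS_Prism c s) : s ^ 2 * c = 1 / 8 + c / 2 := by
  rw [H.s2]; linear_combination (1 / 2) * H.c2

lemma s2c2 (H : CS_Prism c s) : s ^ 2 * c ^ 2 = 1 / 8 - c / 8 := by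
  linear_combination c * H.s2c + (1 / 2) * H.c2

lemma clt (H : CS_Prism c s) : c < 1 / 2 := by nlinarith [H.c2, H.cp]

lemma slt (H : CS_Prism c s) : 1 / 2 < s := by nlinarith [H.s2, H.cp, H.sp]

lemma unit (H : CS_Prism c s) : Unit1 (uu_Prism c s) := by
  have h1 := H.c2
  have h2 := H.s2
  have h3 := H.s2c2
  intro i
  fin_cases i <;> simp [uu_Prism, dt] <;> linarith

lemma lt_one (H : CS_Prism c s) (i j : Fin 7) (h : i ≠ j) :
    dt (uu_Prism c s i) (uu_Prism c s j) < 1 := by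
  have h1 := H.c2
  have h2 := H.s2
  have h3 := H.s2c2
  have h4 := H.s2c
  have h5 := H.clt
  have h6 := H.cp
  fin_cases i <;> fin_cases j <;> simp [uu_Prism, dt] at h ⊢ <;> linarith

lemma inj (H : CS_Prism c s) : Function.Injective (uu_Prism c s) := by
  intro i j e
  by_contra h
  have := H.lt_one i j h
  rw [← e, H.unit i] at this
  exact lt_irrefl _ this

lemma gram (H : CS_Prism c s) (i j : Fin 7) (h : Q_Prism i j = true) :
    dt (uu_Prism c s i) (uu_Prism c s j) = if i.val < 2 ∨ j.val < 2 then 0 else c := by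
  have h1 := H.c2
  have h2 := H.s2
  have h3 := H.s2c2
  have h4 := H.s2c
  fin_cases i <;> fin_cases j <;> simp [uu_Prism, dt, Q_Prism] at h ⊢ <;> linarith

lemma mem (x : E3) : x ∈ poly (uu_Prism c s) 1 ↔
    x 2 ≤ 1 ∧ -x 2 ≤ 1 ∧ x 0 ≤ 1 ∧ c * x 0 + s * x 1 ≤ 1 ∧
      (-c - 1 / 2) * x 0 + 2 * s * c * x 1 ≤ 1 ∧ (-c - 1 / 2) * x 0 + -(2 * s * c) * x 1 ≤ 1 ∧
      c * x 0 + -s * x 1 ≤ 1 := by
  simp [poly, uu_Prism, dt, Fin.forall_fin_succ]

lemma bdd (H : CS_Prism c s) : Bornology.IsBounded (poly (uu_Prism c s) 1) := by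
  refine (Metric.isBounded_closedBall (x := (0 : E3)) (r := 5)).subset fun x hx => ?_
  obtain ⟨a1, a2, a3, a4, a5, a6, a7⟩ := (mem x).1 hx
  have h5 := H.clt
  have h6 := H.cp
  have h7 := H.slt
  have b0 : -2 ≤ x 0 := by nlinarith
  have b1 : x 1 ≤ 4 := by nlinarith
  have b2 : -4 ≤ x 1 := by nlinarith
  rw [mem_closedBall_zero_iff]
  have : ‖x‖ ^ 2 ≤ 5 ^ 2 := by
    rw [← dt_self, dt]
    nlinarith
  exact (abs_le_of_sq_le_sq' this (by norm_num)).2

lemma act (H : CS_Prism c s) {x : E3} (hx : x ∈ poly (uu_Prism c s) 1) (i j : Fin 7) (h : i ≠ j)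
    (hi : dt (uu_Prism c s i) x = 1) (hj : dt (uu_Prism c s j) x = 1) : Q_Prism i j = true := by
  obtain ⟨a1, a2, a3, a4, a5, a6, a7⟩ := (mem x).1 hx
  have h5 := H.clt
  have hc : 0 ≤ 2 * c := by linarith [H.cp]
  have e0 : c ^ 2 * x 0 = (1 / 4 - c / 2) * x 0 := by rw [H.c2]
  have e1 : c ^ 2 * (s * x 1) = (1 / 4 - c / 2) * (s * x 1) := by rw [H.c2]
  have b3 := mul_le_mul_of_nonneg_left a3 hc
  have b4 := mul_le_mul_of_nonneg_left a4 hc
  have b5 := mul_le_mul_of_nonneg_left a5 hc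
  have b6 := mul_le_mul_of_nonneg_left a6 hc
  have b7 := mul_le_mul_of_nonneg_left a7 hc
  fin_cases i <;> fin_cases j <;> simp [uu_Prism, dt, Q_Prism] at h hi hj ⊢ <;> linarith

end CS_Prism

lemma k4_Prism : ∀ i j k l : Fin 7, Q_Prism i j = true → Q_Prism i k = true →
    Q_Prism i l = true → Q_Prism j k = true → Q_Prism j l = true → Q_Prism k l = true →
    False := by
  decide +kernel

lemma pole_Prism : ∀ i j k : Fin 7, Q_Prism i j = true → Q_Prism j k = true →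
    Q_Prism k i = true →
    (i.val < 2 ∧ ¬ j.val < 2 ∧ ¬ k.val < 2) ∨ (¬ i.val < 2 ∧ j.val < 2 ∧ ¬ k.val < 2) ∨
      (¬ i.val < 2 ∧ ¬ j.val < 2 ∧ k.val < 2) := by
  decide +kernel

lemma count_Prism : (∑ i : Fin 7, ∑ j : Fin 7, ∑ k : Fin 7,
    if Q_Prism i j = true ∧ Q_Prism j k = true ∧ Q_Prism k i = true then 1 else 0 : ℕ) = 60 := by
  decide +kernel

lemma det_sq_Prism (a b d : E3) : det3 a b d ^ 2 = dt a a * dt b b * dt d d
    + 2 * dt a b * dt b d * dt d a - dt a a * dt b d ^ 2 - dt b b * dt d a ^ 2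
    - dt d d * dt a b ^ 2 := by
  simp only [det3, dt, cr_0, cr_1, cr_2]
  ring

namespace CS_Prism

variable {c s : ℝ}

lemma no4 (H : CS_Prism c s) : No4 (uu_Prism c s) (poly (uu_Prism c s) 1) := by
  intro x hx i j k l hi hj hk hl
  by_contra hn
  simp only [not_or] at hn
  obtain ⟨n1, n2, n3, n4, n5, n6⟩ := hn
  exact k4_Prism i j k l (H.act hx _ _ n1 hi hj) (H.act hx _ _ n2 hi hk) (H.act hx _ _ n3 hi hl)
    (H.act hx _ _ n4 hj hk) (H.act hx _ _ n5 hj hl) (H.act hx _ _ n6 hk hl)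

lemma tri (H : CS_Prism c s) {i j k : Fin 7}
    (hd : det3 (uu_Prism c s i) (uu_Prism c s j) (uu_Prism c s k) ≠ 0)
    (hv : vx (uu_Prism c s) 1 i j k ∈ poly (uu_Prism c s) 1) :
    Q_Prism i j = true ∧ Q_Prism j k = true ∧ Q_Prism k i = true := by
  have hi : dt (uu_Prism c s i) (vx (uu_Prism c s) 1 i j k) = 1 := dt_sol1 hd _ _ _
  have hj : dt (uu_Prism c s j) (vx (uu_Prism c s) 1 i j k) = 1 := dt_sol2 hd _ _ _
  have hk : dt (uu_Prism c s k) (vx (uu_Prism c s) 1 i j k) = 1 := dt_sol3 hd _ _ _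
  refine ⟨H.act hv _ _ ?_ hi hj, H.act hv _ _ ?_ hj hk, H.act hv _ _ ?_ hk hi⟩
  · rintro rfl; exact hd (det3_same12 _ _)
  · rintro rfl; exact hd (det3_same23 _ _)
  · rintro rfl; exact hd (det3_same13 _ _)

lemma term (H : CS_Prism c s) {i j k : Fin 7} (h1 : Q_Prism i j = true) (h2 : Q_Prism j k = true)
    (h3 : Q_Prism k i = true) :
    xx (uu_Prism c s) i j * TT3 (uu_Prism c s) i j k = (1 - c) / s := by
  have g1 := H.gram i j h1
  have g2 := H.gram j k h2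
  have g3 := H.gram k i h3
  have hd := det_sq_Prism (uu_Prism c s i) (uu_Prism c s j) (uu_Prism c s k)
  rw [H.unit i, H.unit j, H.unit k] at hd
  have hc := H.cp
  have hs := H.sp
  have key : ∀ t : ℝ, t ^ 2 = 1 - c ^ 2 → |t| = s := fun t ht => by
    rw [← abs_of_pos hs, ← sq_eq_sq_iff_abs_eq_abs, ht, H.c2, H.s2]
    ring
  rcases pole_Prism i j k h1 h2 h3 with ⟨p, q, r⟩ | ⟨p, q, r⟩ | ⟨p, q, r⟩ <;>
    simp only [p, q, r, or_true, true_or, or_self, if_true, if_false] at g1 g2 g3 <;>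
    rw [g1, g2, g3] at hd <;> rw [xx, TT3, g1, g2, g3, key _ (by rw [hd]; ring)] <;>
    field_simp <;> ring

end CS_Prism

lemma cs_Prism : CS_Prism (cos (2 * π / 5)) (sin (2 * π / 5)) := by
  have h5 : √5 ^ 2 = 5 := Real.sq_sqrt (by norm_num)
  have hc : cos (2 * π / 5) = (√5 - 1) / 4 := by
    rw [mul_div_assoc, cos_two_mul, cos_pi_div_five]
    linear_combination (1 / 8) * h5
  have h2 : cos (2 * π / 5) ^ 2 = 1 / 4 - cos (2 * π / 5) / 2 := by
    rw [hc]; linear_combination (1 / 16) * h5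
  refine ⟨h2, by linarith [sin_sq_add_cos_sq (2 * π / 5)], ?_, ?_⟩
  · exact cos_pos_of_mem_Ioo ⟨by linarith [pi_pos], by linarith [pi_pos]⟩
  · exact sin_pos_of_pos_of_lt_pi (by positivity) (by linarith [pi_pos])

lemma tau_Prism : (1 - cos (2 * π / 5)) / sin (2 * π / 5) = tau := by
  have hc : 0 < cos (π / 5) := cos_pos_of_mem_Ioo ⟨by linarith [pi_pos], by linarith [pi_pos]⟩
  have hs : 0 < sin (π / 5) := sin_pos_of_pos_of_lt_pi (by positivity) (by linarith [pi_pos])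
  rw [mul_div_assoc, cos_two_mul, sin_two_mul, tau, tan_eq_sin_div_cos]
  field_simp
  linear_combination (-2) * sin_sq_add_cos_sq (π / 5)

lemma eq_Prism : prism5 = poly (uu_Prism (cos (2 * π / 5)) (sin (2 * π / 5))) 1 := by
  have H := cs_Prism
  have c2 : cos (2 * π * 2 / 5) = -cos (2 * π / 5) - 1 / 2 := by
    rw [show 2 * π * 2 / 5 = 2 * (2 * π / 5) by ring, cos_two_mul]
    linarith [H.c2]
  have s2 : sin (2 * π * 2 / 5) = 2 * sin (2 * π / 5) * cos (2 * π / 5) := by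
    rw [show 2 * π * 2 / 5 = 2 * (2 * π / 5) by ring, sin_two_mul]
  have c3 : cos (2 * π * 3 / 5) = -cos (2 * π / 5) - 1 / 2 := by
    rw [show 2 * π * 3 / 5 = 2 * π - 2 * π * 2 / 5 by ring, cos_two_pi_sub, c2]
  have s3 : sin (2 * π * 3 / 5) = -(2 * sin (2 * π / 5) * cos (2 * π / 5)) := by
    rw [show 2 * π * 3 / 5 = 2 * π - 2 * π * 2 / 5 by ring, sin_two_pi_sub, s2]
  have c4 : cos (2 * π * 4 / 5) = cos (2 * π / 5) := by
    rw [show 2 * π * 4 / 5 = 2 * π - 2 * π / 5 by ring, cos_two_pi_sub]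
  have s4 : sin (2 * π * 4 / 5) = -sin (2 * π / 5) := by
    rw [show 2 * π * 4 / 5 = 2 * π - 2 * π / 5 by ring, sin_two_pi_sub]
  ext x
  rw [CS_Prism.mem, ← s4, ← s3, ← s2, ← c2]
  constructor
  · rintro ⟨a, b⟩
    have b0 := b 0
    have b1 := b 1
    have b2 := b 2
    have b3 := b 3
    have b4 := b 4
    rw [abs_le] at a
    norm_num at b0 b1 b2 b3 b4
    rw [c3, ← c2] at b3
    rw [c4] at b4
    exact ⟨a.2, by linarith [a.1], b0, b1, b2, b3, b4⟩
  · rintro ⟨a1, a2, a3, a4, a5, a6, a7⟩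
    refine ⟨abs_le.2 ⟨by linarith, a1⟩, fun k => ?_⟩
    rw [c2, ← c3] at a6
    rw [← c4] at a7
    fin_cases k <;> norm_num <;> assumption

theorem prism_st (h1 : SimpleSt) (h2 : AreaSt) : PrismSt := by
  classical
  have H := cs_Prism
  have S := h1 (Fin 7) _ H.unit H.inj H.bdd H.no4
  refine ⟨_, _, H.unit, S, eq_Prism, ?_⟩
  have A := (h2 (Fin 7) _ _ H.unit S).2
  have C : (∑ i : Fin 7, ∑ j : Fin 7, ∑ k : Fin 7,
      if Q_Prism i j = true ∧ Q_Prism j k = true ∧ Q_Prism k i = true then tau else 0)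
      = 60 * tau := by
    have := congrArg (fun n : ℕ => (n : ℝ) * tau) count_Prism
    simpa only [Nat.cast_sum, Nat.cast_ite, Nat.cast_one, Nat.cast_zero, Nat.cast_ofNat,
      Finset.sum_mul, ite_mul, one_mul, zero_mul] using this
  suffices 6 * vol (uu_Prism (cos (2 * π / 5)) (sin (2 * π / 5))) 1 ≤ 60 * tau by linarith
  rw [A, ← C]
  refine Finset.sum_le_sum fun i _ => Finset.sum_le_sum fun j _ => Finset.sum_le_sum fun k _ => ?_
  split_ifs with T P P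
  · rw [H.term P.1 P.2.1 P.2.2, tau_Prism]
  · exact absurd (H.tri T.1 T.2) P
  · exact tau_pos.le
  · exact le_rfl

end Pool.Agent.MP_5cfbf6_gt.P7
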