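import Pool.Agent.MP_5cfbf6_gt.P7.Base

set_option autoImplicit false

namespace Pool.Agent.MP_5cfbf6_gt.P7

open Set Filter Topology MeasureTheory

lemma near_Red {ι : Type} {u w : ι → E3} {δ : ℝ} (h : ∀ i, ‖w i - u i‖ ≤ δ) {x : E3}
    (hx : x ∈ poly w 1) (i : ι) : dt (u i) x ≤ 1 + δ * ‖x‖ := by
  have h1 : dt (w i) x ≤ 1 := hx i
  have h2 : dt (u i) x = dt (w i) x + inner ℝ (u i - w i) x := by
    rw [dt_eq_inner, dt_eq_inner, inner_sub_left]
    ring
  have h3 := real_inner_le_norm (u i - w i) x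
  have h4 : ‖u i - w i‖ * ‖x‖ ≤ δ * ‖x‖ :=
    mul_le_mul_of_nonneg_right (by rw [norm_sub_rev]; exact h i) (norm_nonneg x)
  linarith

lemma bd_Red {ι : Type} {u w : ι → E3} {δ r : ℝ} (hδ : 0 ≤ δ) (hr : δ * r ≤ 1 / 2)
    (h : ∀ i, ‖w i - u i‖ ≤ δ) (hu : ∀ x ∈ poly u 1, ‖x‖ ≤ r) {x : E3} (hx : x ∈ poly w 1) :
    ‖x‖ ≤ 2 * r := by
  have h0 := norm_nonneg x
  have hp : 0 < 1 + δ * ‖x‖ := by positivity
  have h1 := hu ((1 + δ * ‖x‖)⁻¹ • x) fun i => by
    rw [dt_eq_inner, real_inner_smul_right, ← dt_eq_inner, inv_mul_le_iff₀ hp, Pi.one_apply,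
      mul_one]
    exact near_Red h hx i
  rw [norm_smul, norm_inv, Real.norm_of_nonneg hp.le, inv_mul_le_iff₀ hp] at h1
  nlinarith [mul_le_mul_of_nonneg_right hr h0]

theorem red_st (h1 : GenSt) (h2 : SimpleSt) : RedSt := by
  intro V hV ι _ _ u hc hu hb
  have hne : Nonempty ι := by
    by_contra hn
    rw [not_nonempty_iff] at hn
    have : poly u 1 = univ := eq_univ_of_forall fun x i => hn.elim i
    rw [this] at hb
    exact NormedSpace.unbounded_univ ℝ E3 hb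
  obtain ⟨e⟩ : Nonempty (ι ↪ Fin 7) :=
    Function.Embedding.nonempty_of_card_le (by rwa [Fintype.card_fin])
  have hg : Function.Surjective (Function.invFun e) := Function.invFun_surjective e.injective
  obtain ⟨r, hr0, hr⟩ := hb.exists_pos_norm_le
  have key : ∀ δ : ℝ, 0 < δ → δ * r ≤ 1 / 2 → V ≤ (1 + δ * (2 * r)) ^ 3 * vol u 1 := by
    intro δ hδ hδr
    obtain ⟨w, hw1, hw2, hw3, hw4⟩ := h1 (Fin 7) (fun i => u (Function.invFun e i))
      (fun i => hu _) δ hδ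
    have hb1 : ∀ x ∈ poly w 1, ‖x‖ ≤ 2 * r := fun x hx =>
      bd_Red hδ.le hδr hw2 (fun y hy => hr y fun i => by
        obtain ⟨j, rfl⟩ := hg i
        exact hy j) hx
    have hbw : Bornology.IsBounded (poly w 1) := isBounded_iff_forall_norm_le.2 ⟨_, hb1⟩
    have ht : 0 < 1 + δ * (2 * r) := by positivity
    refine (hV w _ hw1 (h2 (Fin 7) w hw1 hw3 hbw fun x _ => hw4 x (mem_univ x))).trans ?_
    rw [← vol_affine u 1 ht 0]
    refine ENNReal.toReal_mono ?_ (measure_mono fun x hx i => ?_)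
    · rw [aff_poly u 1 ht]
      exact ((hb.smul₀ _).vadd _).measure_lt_top.ne
    · obtain ⟨j, rfl⟩ := hg i
      have h3 := near_Red hw2 hx j
      have h4 := mul_le_mul_of_nonneg_left (hb1 x hx) hδ.le
      have h5 : dt (u (Function.invFun e j)) 0 = 0 := by simp [dt]
      simp only [Pi.one_apply, h5]
      linarith
  have hc : Continuous fun δ : ℝ => (1 + δ * (2 * r)) ^ 3 * vol u 1 := by fun_prop
  have ht : Tendsto (fun δ : ℝ => (1 + δ * (2 * r)) ^ 3 * vol u 1) (𝓝[>] 0) (𝓝 (vol u 1)) := by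
    have := (hc.tendsto 0).mono_left (nhdsWithin_le_nhds (s := Ioi 0))
    simpa using this
  refine ge_of_tendsto ht ?_
  filter_upwards [Ioo_mem_nhdsGT (show (0 : ℝ) < 1 / 2 / r by positivity)] with δ hδ
  exact key δ hδ.1 ((le_div_iff₀ hr0).1 hδ.2.le)

end Pool.Agent.MP_5cfbf6_gt.P7
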