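import Pool.Agent.MP_5cfbf6_gt.P7.Base

set_option autoImplicit false

namespace Pool.Agent.MP_5cfbf6_gt.P7

open Set Module

theorem rep_st : RepSt := by
  intro R hR
  obtain ⟨ι, i1, i2, u, h, hu, rfl, hf, hinj⟩ := exists_hrep hR
  have hr : ∀ i, fc u h {i} ∈ twoFaces (poly u h) := fun i => by
    refine ⟨isExposed_fc u h {i}, ?_⟩
    rw [(hf i).2]
    refine finrank_perp fun e => ?_
    have := hu i
    rw [e, dt_zero] at this
    exact zero_ne_one this
  have e : twoFaces (poly u h) = range fun i => fc u h {i} := by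
    refine Subset.antisymm (fun F hF => ?_) (range_subset_iff.2 hr)
    have hc := (typ_coat hR).1 hF
    obtain ⟨i, hi⟩ := typ_exists_fc hR hc.1 hc.2.1
    exact ⟨i, (hc.2.2 _ (hr i).1 hi).resolve_right ((typ_coat hR).1 (hr i)).2.1⟩
  refine ⟨ι, i1, i2, u, h, hu, rfl, ?_, ?_⟩
  · rw [e, ncard_range_of_injective hinj, Nat.card_eq_fintype_card]
  · unfold surfaceArea
    rw [e, finsum_mem_range hinj, finsum_eq_sum_of_fintype]
    rfl

theorem card_st : CardSt := by
  intro P Q hP hQ e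
  obtain ⟨φ, ψ, e⟩ := e.typIso
  rw [← (e.injOn (S := twoFaces P) fun _ hF => hF.1).ncard_image]
  congr 1
  refine Subset.antisymm ?_ fun G hG => ?_
  · rintro _ ⟨F, hF, rfl⟩
    exact (typ_coat hQ).2 (e.coat ((typ_coat hP).1 hF))
  · exact ⟨ψ G, (typ_coat hP).2 (e.symm.coat ((typ_coat hQ).1 hG)), e.l2 G hG.1⟩

end Pool.Agent.MP_5cfbf6_gt.P7
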