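import Pool.Agent.MP_5cfbf6_gt.P7.Base

set_option autoImplicit false

namespace Pool.Agent.MP_5cfbf6_gt.P7

open Set Filter Topology Real

lemma act_Simple {ι : Type} {u : ι → E3} {X : Set E3} (h4 : No4 u X) {x : E3} (hx : x ∈ X)
    {i j k l : ι} (hd : det3 (u i) (u j) (u k) ≠ 0) (hi : dt (u i) x = 1) (hj : dt (u j) x = 1)
    (hk : dt (u k) x = 1) (hl : dt (u l) x = 1) : l = i ∨ l = j ∨ l = k := by
  rcases h4 x hx i j k l hi hj hk hl with e | e | e | e | e | e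
  · subst e; exact absurd (det3_same12 _ _) hd
  · subst e; exact absurd (det3_same13 _ _) hd
  · exact Or.inl e.symm
  · subst e; exact absurd (det3_same23 _ _) hd
  · exact Or.inr (Or.inl e.symm)
  · exact Or.inr (Or.inr e.symm)

lemma cover_Simple {ι : Type} [Fintype ι] [DecidableEq ι] {u : ι → E3}
    (hb : Bornology.IsBounded (poly u 1)) (h4 : No4 u (poly u 1)) {x : E3} (hx : x ∈ poly u 1) :
    ∃ i j k, (det3 (u i) (u j) (u k) ≠ 0 ∧ vx u 1 i j k ∈ poly u 1) ∧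
      ∀ l, dt (u l) x = (1 : ι → ℝ) l → l = i ∨ l = j ∨ l = k := by
  set A : Set ι := {l | dt (u l) x = (1 : ι → ℝ) l}
  have hK : IsCompact (fc u 1 A) :=
    Metric.isCompact_of_isClosed_isBounded (isClosed_fc u 1 A) (hb.subset (fc_subset u 1 A))
  obtain ⟨y, hy⟩ := hK.extremePoints_nonempty ⟨x, hx, fun i hi => hi⟩
  have hy' := (isExtreme_fc u 1 A).extremePoints_subset_extremePoints hy
  obtain ⟨i, j, k, hi, hj, hk, hd⟩ := extreme_triple hy'
  have e : y = vx u 1 i j k := by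
    rw [vx, ← hi, ← hj, ← hk]
    exact eq_sol hd y
  refine ⟨i, j, k, ⟨hd, e ▸ hy.1.1⟩, fun l hl => ?_⟩
  exact act_Simple h4 hy.1.1 hd hi hj hk (hy.1.2 l hl)

theorem simple_st : SimpleSt := by
  intro ι _ _ u hu _ hb h4
  have s12 : ∀ i j k, (det3 (u i) (u j) (u k) ≠ 0 ∧ vx u 1 i j k ∈ poly u 1) →
      (det3 (u j) (u i) (u k) ≠ 0 ∧ vx u 1 j i k ∈ poly u 1) := fun i j k T =>
    ⟨by rw [det3_swap12]; exact neg_ne_zero.2 T.1, by rw [vx_swap12]; exact T.2⟩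
  have s23 : ∀ i j k, (det3 (u i) (u j) (u k) ≠ 0 ∧ vx u 1 i j k ∈ poly u 1) →
      (det3 (u i) (u k) (u j) ≠ 0 ∧ vx u 1 i k j ∈ poly u 1) := fun i j k T =>
    ⟨by rw [det3_swap23]; exact neg_ne_zero.2 T.1, by rw [vx_swap23]; exact T.2⟩
  refine ⟨s12, s23, fun i j k T => T.1, fun i j k T l h1 h2 h3 => ?_,
    fun x hx => cover_Simple hb h4 hx, hb, fun i => ?_, ?_⟩
  · refine lt_of_le_of_ne (T.2 l) fun e => ?_
    rcases act_Simple h4 T.2 T.1 (dt_sol1 T.1 _ _ _) (dt_sol2 T.1 _ _ _) (dt_sol3 T.1 _ _ _) e with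
      e | e | e
    exacts [h1 e, h2 e, h3 e]
  · have hm : u i ∈ poly u 1 := fun l => by
      have h := dt_sq_le (u l) (u i)
      rw [hu l, hu i] at h
      show dt (u l) (u i) ≤ 1
      nlinarith
    obtain ⟨a, b, c, T, H⟩ := cover_Simple hb h4 hm
    rcases H i (hu i) with rfl | rfl | rfl
    · exact ⟨b, c, T⟩
    · exact ⟨a, c, s12 _ _ _ T⟩
    · exact ⟨a, b, s12 _ _ _ (s23 _ _ _ T)⟩
  · have hm : (0 : E3) ∈ poly u 1 := fun l => by simp
    obtain ⟨a, b, c, T, -⟩ := cover_Simple hb h4 hm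
    exact ⟨a, b, c, T⟩

end Pool.Agent.MP_5cfbf6_gt.P7
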