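import Pool.Agent.MP_5cfbf6_gt.P7.Base

set_option autoImplicit false
set_option linter.unusedSectionVars false

namespace Pool.Agent.MP_5cfbf6_gt.P7

open Set Filter Topology Real

lemma gram_Tri (a b c : E3) :
    det3 a b c ^ 2 = dt a a * dt b b * dt c c - dt a a * dt b c ^ 2 - dt b b * dt c a ^ 2
      - dt c c * dt a b ^ 2 + 2 * (dt b c * dt c a * dt a b) := by
  simp only [det3, dt, cr_0, cr_1, cr_2]
  ring

lemma crsum_Tri (a b c : E3) :
    dt ((1 : ℝ) • cr b c + (1 : ℝ) • cr c a + (1 : ℝ) • cr a b)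
        ((1 : ℝ) • cr b c + (1 : ℝ) • cr c a + (1 : ℝ) • cr a b) =
      dt b b * dt c c + dt c c * dt a a + dt a a * dt b b
        - dt b c ^ 2 - dt c a ^ 2 - dt a b ^ 2
        + 2 * (dt b c * dt c a - dt a b * dt c c) + 2 * (dt c a * dt a b - dt b c * dt a a)
        + 2 * (dt a b * dt b c - dt c a * dt b b) := by
  simp only [one_smul, dt_add, add_dt]
  simp only [dt, cr_0, cr_1, cr_2]
  ring

lemma alg_Tri {x y z D : ℝ} (hD : 0 < D)
    (hG : D ^ 2 = 1 - x ^ 2 - y ^ 2 - z ^ 2 + 2 * (x * y * z)) (hx : x < 1) (hy : y < 1)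
    (hz : z < 1) (hz' : -1 < z) :
    0 < (1 + x - y - z) / D + (1 + y - z - x) / D ∧
    0 < (1 + y - z - x) / D + (1 + z - x - y) / D ∧
    0 < (1 + z - x - y) / D + (1 + x - y - z) / D ∧
    e2 ((1 + x - y - z) / D) ((1 + y - z - x) / D) ((1 + z - x - y) / D) =
      (3 - x ^ 2 - y ^ 2 - z ^ 2 + 2 * (x * y - z) + 2 * (y * z - x) + 2 * (z * x - y)) / D ^ 2 ∧
    1 ≤ e2 ((1 + x - y - z) / D) ((1 + y - z - x) / D) ((1 + z - x - y) / D) ∧
    0 < (1 - z) / (1 + z) ∧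
    (1 - z) / (1 + z) = (e2 ((1 + x - y - z) / D) ((1 + y - z - x) / D) ((1 + z - x - y) / D) - 1)
      / (1 + ((1 + z - x - y) / D) ^ 2) := by
  have hx1 : 0 < 1 - x := sub_pos.2 hx
  have hy1 : 0 < 1 - y := sub_pos.2 hy
  have hz1 : 0 < 1 - z := sub_pos.2 hz
  have hz2 : 0 < 1 + z := by linarith
  have hD2 : 0 < D ^ 2 := by positivity
  have e0 : e2 ((1 + x - y - z) / D) ((1 + y - z - x) / D) ((1 + z - x - y) / D) =
      (3 - x ^ 2 - y ^ 2 - z ^ 2 + 2 * (x * y - z) + 2 * (y * z - x) + 2 * (z * x - y)) / D ^ 2 := by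
    unfold e2
    field_simp
    ring
  have e1 : e2 ((1 + x - y - z) / D) ((1 + y - z - x) / D) ((1 + z - x - y) / D) - 1 =
      2 * ((1 - x) * (1 - y) * (1 - z)) / D ^ 2 := by
    rw [e0, div_sub_one hD2.ne', hG]
    congr 1
    ring
  have e3 : 1 + ((1 + z - x - y) / D) ^ 2 = 2 * ((1 - x) * (1 - y) * (1 + z)) / D ^ 2 := by
    rw [div_pow, one_add_div hD2.ne', hG]
    congr 1
    ring
  refine ⟨?_, ?_, ?_, e0, ?_, div_pos hz1 hz2, ?_⟩
  · rw [← add_div]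
    exact div_pos (by linarith) hD
  · rw [← add_div]
    exact div_pos (by linarith) hD
  · rw [← add_div]
    exact div_pos (by linarith) hD
  · rw [← sub_nonneg, e1]
    positivity
  · rw [e1, e3]
    field_simp

section

variable {ι : Type} [Fintype ι] [DecidableEq ι] {u : ι → E3} {Tr : ι → ι → ι → Prop}

lemma cos_gt_Tri (S : Sys u 1 Tr) (hu : Unit1 u) {i j : ι} (A : Adj Tr i j) :
    -1 < dt (u i) (u j) := by
  have h := S.cr_pos A
  rw [dt_cr_cr, hu, hu] at h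
  nlinarith

lemma mu_Tri (S : Sys u 1 Tr) (hu : Unit1 u) {i j : ι} (A : Adj Tr i j) :
    mu u Tr 1 i j * (1 + dt (u i) (u j)) =
      TT3 u i j (kp u Tr i j) + TT3 u i j (km u Tr i j) := by
  have h1 := cos_gt_Tri S hu A
  have h2 := S.cos_lt hu (S.adj_ne A)
  unfold mu
  rw [if_pos A, sub_dt, T_kp S hu A, T_km S hu A, dt_cr_cr, hu, hu]
  have h3 : (1 : ℝ) * 1 - dt (u i) (u j) ^ 2 = (1 - dt (u i) (u j)) * (1 + dt (u i) (u j)) := by
    ring
  have h4 : 1 - dt (u i) (u j) ≠ 0 := (sub_pos.2 h2).ne'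
  have h5 : 1 + dt (u i) (u j) ≠ 0 := by linarith
  rw [h3]
  field_simp
  ring

end

theorem tri_st : TriSt := by
  intro ι _ _ u Tr hu S i j k T
  have hd := S.det _ _ _ T
  have hD : 0 < |det3 (u i) (u j) (u k)| := abs_pos.2 hd
  have hG := gram_Tri (u i) (u j) (u k)
  rw [hu, hu, hu, ← sq_abs] at hG
  have H := alg_Tri (x := dt (u j) (u k)) (y := dt (u k) (u i)) (z := dt (u i) (u j)) hD
    (by rw [hG]; ring) (S.cos_lt hu (S.ne23 T)) (S.cos_lt hu (S.ne13 T).symm)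
    (S.cos_lt hu (S.ne12 T)) (cos_gt_Tri S hu ⟨k, T⟩)
  have r1 : det3 (u j) (u k) (u i) = det3 (u i) (u j) (u k) := det3_rot _ _ _
  have r2 : det3 (u k) (u i) (u j) = det3 (u i) (u j) (u k) := (det3_rot _ _ _).symm
  have hv : dt (vx u 1 i j k) (vx u 1 i j k) =
      (3 - dt (u j) (u k) ^ 2 - dt (u k) (u i) ^ 2 - dt (u i) (u j) ^ 2
        + 2 * (dt (u j) (u k) * dt (u k) (u i) - dt (u i) (u j))
        + 2 * (dt (u k) (u i) * dt (u i) (u j) - dt (u j) (u k))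
        + 2 * (dt (u i) (u j) * dt (u j) (u k) - dt (u k) (u i)))
        / |det3 (u i) (u j) (u k)| ^ 2 := by
    simp only [vx, sol, Pi.one_apply]
    rw [dt_smul, smul_dt, crsum_Tri, hu, hu, hu, sq_abs]
    field_simp
    ring
  unfold TT3 xx
  rw [r1, r2, hv]
  exact H

theorem area_st : AreaSt := by
  intro ι _ _ u Tr hu S
  refine ⟨fun i j A => ?_, ?_⟩
  · rw [← mu_Tri S hu A]
    exact mul_pos (S.mu_pos A) (by linarith [cos_gt_Tri S hu A])
  · have h1 := S.var1_sum_ar hu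
    rw [Finset.sum_congr rfl fun i _ => S.ar_one hu i, ← Finset.sum_div] at h1
    have h2 : 6 * vol u 1 = ∑ i, ∑ j, mu u Tr 1 i j * (1 - dt (u i) (u j)) := by linarith
    rw [h2]
    refine Finset.sum_congr rfl fun i _ => Finset.sum_congr rfl fun j _ => ?_
    rw [sum_tr S i j fun k => xx u i j * TT3 u i j k]
    by_cases A : Adj Tr i j
    · have h5 : 1 + dt (u i) (u j) ≠ 0 := by linarith [cos_gt_Tri S hu A]
      rw [if_pos A, ← mul_add, ← mu_Tri S hu A, xx]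
      field_simp
    · rw [if_neg A, mu_of_not A, zero_mul]

end Pool.Agent.MP_5cfbf6_gt.P7
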