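import Pool.Agent.MP_5cfbf6_gt.P7.Base
import Pool.Agent.MP_5f4cdd_gt.PL

set_option autoImplicit false
set_option linter.unusedSectionVars false

namespace Pool.Agent.MP_5cfbf6_gt.P7

open Set Filter Topology MeasureTheory

/-- the inequality of Brunn and Minkowski for sets of equal volume -/
lemma bm_Wulff {A B C : Set E3} (hA : MeasurableSet A) (hB : MeasurableSet B)
    (hC : MeasurableSet C) {a b : ℝ} (ha : 0 < a) (hb : 0 < b) (hab : a + b = 1)
    (H : ∀ x ∈ A, ∀ y ∈ B, a • x + b • y ∈ C) (e : volume B = volume A) :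
    volume A ≤ volume C := by
  have hφ := PiLp.volume_preserving_toLp (Fin 3)
  have m : ∀ {S : Set E3}, MeasurableSet S → MeasurableSet (WithLp.toLp 2 ⁻¹' S) := fun hS =>
    hφ.measurable hS
  have := MP_5f4cdd_gt.PL.pl ha hb hab 3 (measurable_one.indicator (m hA))
    (measurable_one.indicator (m hB)) (measurable_one.indicator (m hC)) fun x y => by
      by_cases hx : x ∈ WithLp.toLp 2 ⁻¹' A
      · by_cases hy : y ∈ WithLp.toLp 2 ⁻¹' B
        · rw [indicator_of_mem hx, indicator_of_mem hy,
            indicator_of_mem (show a • x + b • y ∈ WithLp.toLp 2 ⁻¹' C from H _ hx _ hy)]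
          simp
        · simp [indicator_of_notMem hy, hb]
      · simp [indicator_of_notMem hx, ha]
  rwa [lintegral_indicator_one (m hA), lintegral_indicator_one (m hB),
    lintegral_indicator_one (m hC), hφ.measure_preimage hA.nullMeasurableSet,
    hφ.measure_preimage hB.nullMeasurableSet, hφ.measure_preimage hC.nullMeasurableSet, e,
    ← ENNReal.rpow_add_of_nonneg _ _ ha.le hb.le, hab, ENNReal.rpow_one] at this

theorem wulff_st (h1 : SlabSt) : WulffSt := by
  intro ι _ _ u h hu hb ⟨x₀, hx₀⟩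
  have hn : ∀ i, ‖u i‖ = 1 := fun i => by
    have := hu i
    rwa [dt_self, pow_eq_one_iff_of_nonneg (norm_nonneg _) two_ne_zero] at this
  obtain ⟨η, hη, hs⟩ := Metric.nhds_basis_closedBall.mem_iff.1 (mem_interior_iff_mem_nhds.1 hx₀)
  have sl : ∀ i, dt (u i) x₀ + η ≤ h i := fun i => by
    have := hs (show x₀ + η • u i ∈ Metric.closedBall x₀ η by
      simp [norm_smul, hn, abs_of_pos hη]) i
    rwa [dt_add, dt_smul, hu i, mul_one] at this
  have bd : ∀ k : ι → ℝ, Bornology.IsBounded (poly u k) := fun k => by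
    obtain ⟨M, hM⟩ := (finite_range k).bddAbove
    have hs : 0 < (|M| + 1) / η := by positivity
    refine (aff_poly u h hs (-(((|M| + 1) / η) • x₀)) ▸ (hb.smul₀ _).vadd _ :
      Bornology.IsBounded (poly u _)).subset fun y hy i => ?_
    have h2 := mul_le_mul_of_nonneg_left (sl i) hs.le
    rw [mul_add, div_mul_cancel₀ _ hη.ne'] at h2
    rw [dt_neg, dt_smul]
    linarith [hy i, hM (mem_range_self i), le_abs_self M]
  have fin : ∀ k : ι → ℝ, volume (poly u k) ≠ ⊤ := fun k => (bd k).measure_lt_top.ne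
  have ms : ∀ k : ι → ℝ, MeasurableSet (poly u k) := fun k => (isClosed_poly u k).measurableSet
  have hV : 0 < vol u h :=
    ENNReal.toReal_pos (Measure.measure_pos_of_nonempty_interior _ ⟨x₀, hx₀⟩).ne' (fin h)
  have hW : 0 < vol u 1 := by
    refine ENNReal.toReal_pos ((Metric.measure_closedBall_pos volume (0 : E3) one_pos).trans_le
      (measure_mono ?_)).ne' (fin 1)
    refine fun x hx i => (dt_le _ _).trans ?_
    rw [hn, one_mul]
    exact mem_closedBall_zero_iff.1 hx
  refine ⟨bd 1, ?_⟩
  obtain ⟨t, ht, e3⟩ : ∃ t : ℝ, 0 < t ∧ t ^ 3 = vol u h / vol u 1 :=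
    ⟨_, by positivity, Real.rpow_inv_natCast_pow (by positivity) three_ne_zero⟩
  have key : 3 * vol u h / t ≤ ∑ i, ar u h i := by
    refine le_of_forall_gt_imp_ge_of_dense fun s hs => ?_
    obtain ⟨ε, h2, hε⟩ := ((h1 ι u h hu (bd _) s hs).and self_mem_nhdsWithin).exists
    have hε : 0 < ε := hε
    have ha : 0 < t / (t + ε) := by positivity
    have h3 := ENNReal.toReal_mono (fin _) (bm_Wulff (ms h) (ms fun l => t * 1 + dt (u l) 0)
      (ms fun l => t / (t + ε) * (h l + ε) + dt (u l) 0) ha (b := ε / (t + ε)) (by positivity)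
      (by field_simp) (fun x hx y hy i => by
        have h4 := mul_le_mul_of_nonneg_left (hx i) ha.le
        have h5 := mul_le_mul_of_nonneg_left (hy i) (show 0 ≤ ε / (t + ε) by positivity)
        have h6 : ε / (t + ε) * t = t / (t + ε) * ε := by ring
        simp only [dt_add, dt_smul, dt_zero] at h5 ⊢
        linarith) (by
        rw [← ENNReal.toReal_eq_toReal_iff' (fin _) (fin _)]
        refine (vol_affine u 1 ht 0).trans ?_
        rw [e3, div_mul_cancel₀ _ hW.ne', vol]))
    have h4 := h3.trans_eq (vol_affine u (fun l => h l + ε) ha 0)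
    have h5 : vol u h ≤ _ := h4.trans (mul_le_mul_of_nonneg_left h2 (by positivity))
    rw [div_pow, div_mul_eq_mul_div, le_div_iff₀ (by positivity)] at h5
    rw [div_le_iff₀ ht]
    refine le_of_mul_le_mul_left ?_ (show 0 < t ^ 2 * ε by positivity)
    have h6 : 0 ≤ vol u h * (3 * t * ε ^ 2 + ε ^ 3) := by positivity
    linarith
  have h2 := pow_le_pow_left₀ (by positivity) key 3
  rw [div_pow, e3] at h2
  refine le_trans (le_of_eq ?_) h2
  field_simp
  norm_num

end Pool.Agent.MP_5cfbf6_gt.P7
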