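import Pool.Agent.MP_5cfbf6_gt.P7.Slab
import Pool.Agent.MP_5cfbf6_gt.P7.Wulff
import Pool.Agent.MP_5cfbf6_gt.P7.Rep
import Pool.Agent.MP_5cfbf6_gt.P7.Simple
import Pool.Agent.MP_5cfbf6_gt.P7.Gen
import Pool.Agent.MP_5cfbf6_gt.P7.Red
import Pool.Agent.MP_5cfbf6_gt.P7.Apr
import Pool.Agent.MP_5cfbf6_gt.P7.Tri
import Pool.Agent.MP_5cfbf6_gt.P7.Cert
import Pool.Agent.MP_5cfbf6_gt.P7.Low
import Pool.Agent.MP_5cfbf6_gt.P7.Param
import Pool.Agent.MP_5cfbf6_gt.P7.Ana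
import Pool.Agent.MP_5cfbf6_gt.P7.Inner
import Pool.Agent.MP_5cfbf6_gt.P7.Angle
import Pool.Agent.MP_5cfbf6_gt.P7.Euler
import Pool.Agent.MP_5cfbf6_gt.P7.Prism
import Pool.Agent.MP_5cfbf6_gt.P7.Main
import Pool.Agent.MP_5cfbf6_gt.P7.BB
import Pool.Agent.MP_5cfbf6_gt.P7.Hess

set_option autoImplicit false

namespace Pool.Agent.MP_5cfbf6_gt.P7

open Set

theorem prism_faces : (twoFaces prism5).ncard = 7 := by
  obtain ⟨u₀, Tr, -, S, e, -⟩ := prism_st simple_st area_st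
  rw [e, S.twoFaces_eq, ncard_range_of_injective S.face_inj]
  simp

theorem all_st (hb : BipSt) : IsBest prism5 ∧
    ∀ R : Set E3, IsPolytope R → (twoFaces R).ncard ≤ 7 → isoQuot R ≤ isoQuot prism5 :=
  main_st (wulff_st slab_st) rep_st card_st (red_st gen_st simple_st)
    (low_st (cert_st tri_st area_st angle_st) euler_st hb
      (anaA_st param_st bba_st (inner_st hess_st)) (anaB_st param_st bbb_st) apr_st tri_st)
    (prism_st simple_st area_st)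

end Pool.Agent.MP_5cfbf6_gt.P7
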