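import Pool.Agent.MP_5cfbf6_gt.P7.Base

set_option autoImplicit false

namespace Pool.Agent.MP_5cfbf6_gt.P7

open Set Real

lemma le_of_tan_Ana {x y c : ℝ} (hc : 0 < c) (hx : |x| < π / 2) (hy : |y| < π / 2)
    (h : tan x / c ≤ tan y / c) : x ≤ y :=
  (strictMonoOn_tan.le_iff_le (abs_lt.1 hx) (abs_lt.1 hy)).1 ((div_le_div_iff_of_pos_right hc).1 h)

lemma inB_Ana {lo hi c x : ℝ} (hc : 0 < c) (hx : |x| < π / 2) (h : InB lo hi c x) :
    tan x / c ∈ Icc lo hi := by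
  have hcos : 0 < cos x := cos_pos_of_mem_Ioo (abs_lt.1 hx)
  obtain ⟨h1, h2⟩ := h
  rw [sin_two_mul, cos_two_mul] at h1 h2
  have hcc : 0 < cos x * c := mul_pos hcos hc
  rw [tan_eq_sin_div_cos, div_div]
  constructor
  · rw [le_div_iff₀ hcc]
    apply le_of_mul_le_mul_right _ hcos
    nlinarith
  · rw [div_le_iff₀ hcc]
    apply le_of_mul_le_mul_right _ hcos
    nlinarith

lemma hh_Ana {e T : ℝ} (he : 0 ≤ e) (he' : e ≤ 1.73) (hT : 0.7 ≤ T) :
    Hh (e / (1 + T ^ 2)) T = e * (T / (1 + T ^ 2)) := by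
  have hp : 0 < 1 + T ^ 2 := by positivity
  have hT2 : 1.49 ≤ 1 + T ^ 2 := by nlinarith
  have hx : 0 ≤ e / (1 + T ^ 2) := by positivity
  have h1 : e / (1 + T ^ 2) * (1 + T ^ 2) = e := div_mul_cancel₀ _ hp.ne'
  have hx2 : e / (1 + T ^ 2) ≤ 1.17 := by
    rw [div_le_iff₀ hp]; nlinarith
  have h2 : e / (1 + T ^ 2) / (1 + e / (1 + T ^ 2)) ≤ 0.54 := by
    rw [div_le_iff₀ (by positivity)]; nlinarith
  have h3 : e / (1 + e) ≤ 0.634 := by
    rw [div_le_iff₀ (by positivity)]; nlinarith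
  unfold Hh
  rw [h1, max_eq_left (by linarith)]
  ring

lemma par_Ana (h1 : ParamSt) {a b d : ℝ} (h : Dom a b d) (hbd : b ≤ d) :
    ∃ c a1 a2 : ℝ, DomP c a1 a2 ∧ a2 ≤ π / 2 - a1 - a2 ∧ (a ≤ b → a1 ≤ a2) ∧ a = tan a1 / c ∧
      b = tan a2 / c ∧ d = tan (π / 2 - a1 - a2) / c ∧
      ∀ l1 l2 l3 : ℝ, Ftri l1 l2 l3 a b d = Fr l1 l2 l3 c a1 a2 := by
  obtain ⟨c, a1, a2, D, ha, hb, hd, hF⟩ := h1 a b d h
  have hc : 0 < c := by linarith [D.1]
  refine ⟨c, a1, a2, D, ?_, fun hab => ?_, ha, hb, hd, hF⟩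
  · exact le_of_tan_Ana hc D.2.2.2.1 D.2.2.2.2 (by rw [← hb, ← hd]; exact hbd)
  · exact le_of_tan_Ana hc D.2.2.1 D.2.2.2.1 (by rw [← ha, ← hb]; exact hab)

lemma anaA_le_Ana (h1 : ParamSt) (h2 : BBASt) (h3 : InnerSt) {a b d : ℝ} (h : Dom a b d)
    (hbd : b ≤ d) :
    mA ≤ Ftri (5 + tau ^ 2) (4 + 2 * tau ^ 2) (4 + 2 * tau ^ 2) a b d := by
  obtain ⟨c, a1, a2, D, hle, -, ha, hb, hd, hF⟩ := par_Ana h1 h hbd
  have hc : 0 < c := by linarith [D.1]
  rcases h2 c a1 a2 D hle with g | ⟨g1, g2, g3⟩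
  · rw [hF]; exact g
  · have ia := inB_Ana hc D.2.2.1 g1
    have ib := inB_Ana hc D.2.2.2.1 g2
    have id := inB_Ana hc D.2.2.2.2 g3
    rw [← ha] at ia
    rw [← hb] at ib
    rw [← hd] at id
    have he : 0 ≤ e2 a b d - 1 := by linarith [h.2.2.2.1]
    have he' : e2 a b d - 1 ≤ 1.73 := by
      unfold e2
      have := mul_le_mul ia.2 ib.2 (by linarith [ib.1]) (by norm_num)
      have := mul_le_mul ib.2 id.2 (by linarith [id.1]) (by norm_num)
      have := mul_le_mul id.2 ia.2 (by linarith [ia.1]) (by norm_num)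
      linarith
    have := h3 a b d ia ib id
    unfold Ftri
    rw [hh_Ana he he' (by linarith [ia.1]), hh_Ana he he' ib.1, hh_Ana he he' id.1]
    linarith

theorem anaA_st (h1 : ParamSt) (h2 : BBASt) (h3 : InnerSt) : AnaASt := by
  intro a b c h
  rcases le_total b c with hbc | hbc
  · exact anaA_le_Ana h1 h2 h3 h hbc
  · rw [← Ftri_swap]
    exact anaA_le_Ana h1 h2 h3 h.swap hbc

lemma odd_Ana {m l1 l2 : ℝ}
    (H : ∀ a b d : ℝ, Dom a b d → b ≤ d → m ≤ Ftri l1 l2 l2 a b d) {a b d : ℝ} (h : Dom a b d) :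
    m ≤ Ftri l1 l2 l2 a b d := by
  rcases le_total b d with hbc | hbc
  · exact H a b d h hbc
  · rw [← Ftri_swap]
    exact H a d b h.swap hbc

lemma all_Ana {m l : ℝ}
    (H : ∀ a b d : ℝ, Dom a b d → a ≤ b → b ≤ d → m ≤ Ftri l l l a b d) {a b d : ℝ}
    (h : Dom a b d) : m ≤ Ftri l l l a b d := by
  have K : ∀ a b d : ℝ, Dom a b d → a ≤ b → a ≤ d → m ≤ Ftri l l l a b d := by
    intro a b d h hab had
    rcases le_total b d with hbc | hbc
    · exact H a b d h hab hbc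
    · rw [← Ftri_swap]
      exact H a d b h.swap had hbc
  rcases le_total a b with hab | hab
  · rcases le_total a d with had | had
    · exact K a b d h hab had
    · rw [← Ftri_rot, ← Ftri_rot]
      exact K d a b h.rot.rot had (had.trans hab)
  · rcases le_total b d with hbd | hbd
    · rw [← Ftri_rot]
      exact K b d a h.rot hbd hab
    · rw [← Ftri_rot, ← Ftri_rot]
      exact K d a b h.rot.rot (hbd.trans hab) hbd

theorem anaB_st (h1 : ParamSt) (h2 : BBBSt) : AnaBSt := by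
  have B1 : ∀ a b d : ℝ, Dom a b d → -9.9414 ≤ Ftri 5.48 5.48 5.48 a b d := fun a b d h =>
    all_Ana (fun a b d h hab hbd => by
      obtain ⟨c, a1, a2, D, hle, hs, -, -, -, hF⟩ := par_Ana h1 h hbd
      rw [hF]; exact (h2 c a1 a2 D hle).1 (hs hab)) h
  have B2 : ∀ a b d : ℝ, Dom a b d → -9.6182 ≤ Ftri 5.48 5.26 5.26 a b d := fun a b d h =>
    odd_Ana (fun a b d h hbd => by
      obtain ⟨c, a1, a2, D, hle, -, -, -, -, hF⟩ := par_Ana h1 h hbd
      rw [hF]; exact (h2 c a1 a2 D hle).2.1) h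
  have B3 : ∀ a b d : ℝ, Dom a b d → -9.295 ≤ Ftri 5.04 5.26 5.26 a b d := fun a b d h =>
    odd_Ana (fun a b d h hbd => by
      obtain ⟨c, a1, a2, D, hle, -, -, -, -, hF⟩ := par_Ana h1 h hbd
      rw [hF]; exact (h2 c a1 a2 D hle).2.2.1) h
  have B4 : ∀ a b d : ℝ, Dom a b d → -8.9718 ≤ Ftri 5.04 5.04 5.04 a b d := fun a b d h =>
    all_Ana (fun a b d h hab hbd => by
      obtain ⟨c, a1, a2, D, hle, hs, -, -, -, hF⟩ := par_Ana h1 h hbd
      rw [hF]; exact (h2 c a1 a2 D hle).2.2.2 (hs hab)) h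
  have e1 : (2.74 : ℝ) + 2.74 = 5.48 := by norm_num
  have e2' : (2.74 : ℝ) + 2.52 = 5.26 := by norm_num
  have e3 : (2.52 : ℝ) + 2.74 = 5.26 := by norm_num
  have e4 : (2.52 : ℝ) + 2.52 = 5.04 := by norm_num
  intro p q r a b c h
  have r1 := h.rot
  have r2 := h.rot.rot
  cases p <;> cases q <;> cases r <;>
    simp only [alB, gaB, Bool.false_eq_true, if_true, if_false, e1, e2', e3, e4]
  · linarith [B1 a b c h]
  · rw [← Ftri_rot, ← Ftri_rot]; linarith [B2 c a b r2]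
  · rw [← Ftri_rot]; linarith [B2 b c a r1]
  · linarith [B3 a b c h]
  · linarith [B2 a b c h]
  · rw [← Ftri_rot]; linarith [B3 b c a r1]
  · rw [← Ftri_rot, ← Ftri_rot]; linarith [B3 c a b r2]
  · linarith [B4 a b c h]

end Pool.Agent.MP_5cfbf6_gt.P7
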