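import Pool.Agent.MP_5cfbf6_gt.P7.Base

set_option autoImplicit false
set_option maxRecDepth 100000

namespace Pool.Agent.MP_5cfbf6_gt.P7

open Finset

/-- conjunction over seven indices -/
def all_Bip (f : ℕ → Bool) : Bool := f 0 && f 1 && f 2 && f 3 && f 4 && f 5 && f 6

/-- disjunction over seven indices -/
def any_Bip (f : ℕ → Bool) : Bool := f 0 || f 1 || f 2 || f 3 || f 4 || f 5 || f 6

/-- sum over seven indices -/
def sum_Bip (f : ℕ → ℕ) : ℕ :=
  Nat.add (Nat.add (Nat.add (Nat.add (Nat.add (Nat.add (f 0) (f 1)) (f 2)) (f 3)) (f 4)) (f 5)) (f 6)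

/-- evaluate the number first -/
def force_Bip (c : ℕ) (f : ℕ → Bool) : Bool :=
  match c with
  | 0 => f 0
  | m + 1 => f (Nat.succ m)

/-- the triples on a pair -/
def row_Bip (c i j : ℕ) : ℕ :=
  Nat.mod (Nat.shiftRight c (Nat.add (Nat.add 64 (Nat.mul 49 i)) (Nat.mul 7 j))) 128

/-- membership of a triple in a bit mask -/
def t_Bip (c i j k : ℕ) : Bool :=
  Nat.beq (Nat.mod
    (Nat.shiftRight c (Nat.add (Nat.add (Nat.add 64 (Nat.mul 49 i)) (Nat.mul 7 j)) k)) 2) 1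

/-- the mask of one triple -/
def b_Bip (i j k : ℕ) : ℕ :=
  Nat.pow 2 (Nat.add (Nat.add (Nat.add 64 (Nat.mul 49 i)) (Nat.mul 7 j)) k)

/-- add a triple in all orders -/
def add_Bip (c i j k : ℕ) : ℕ :=
  Nat.lor (Nat.lor (Nat.lor (Nat.lor (Nat.lor (Nat.lor (Nat.lor c (b_Bip i j k)) (b_Bip i k j))
    (b_Bip j i k)) (b_Bip j k i)) (b_Bip k i j)) (b_Bip k j i))
    (Nat.pow 2 (Nat.mod (Nat.add (Nat.add (Nat.pow 2 i) (Nat.pow 2 j)) (Nat.pow 2 k)) 64))

/-- number of bits -/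
def pc_Bip (r : ℕ) : ℕ := Nat.mod (Nat.shiftRight
  38688605477795291639177638255174619524745213742638081737860757693208305674782301095493395244431646846014899907793992
  (Nat.mul 3 r)) 8

/-- number of triples on a pair -/
def cnt_Bip (c i j : ℕ) : ℕ := pc_Bip (row_Bip c i j)

/-- number of neighbours -/
def deg_Bip (c v : ℕ) : ℕ := sum_Bip fun j => cond (Nat.beq (row_Bip c v j) 0) 0 1

/-- impossible states -/
def dead_Bip (c i j k : ℕ) : Bool :=
  Nat.ble 3 (cnt_Bip c i j) || Nat.ble 3 (cnt_Bip c i k) || Nat.ble 3 (cnt_Bip c j k) ||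
    Nat.ble 3 (sum_Bip fun v => Nat.sub (deg_Bip c v) 4)

/-- the conclusion on a mask -/
def good_Bip (c : ℕ) : Bool :=
  any_Bip fun N => any_Bip fun S => !Nat.beq N S && Nat.beq (row_Bip c N S) 0 &&
    all_Bip fun i => Nat.beq i N || Nat.beq i S || all_Bip fun j => Nat.beq j N || Nat.beq j S ||
      all_Bip fun k => Nat.beq k N || Nat.beq k S || !t_Bip c i j k

/-- the next pair -/
def sel_Bip (c : ℕ) : ℕ :=
  cond (Nat.beq (cnt_Bip c 0 1) 1) 1 <|
  cond (Nat.beq (cnt_Bip c 0 2) 1) 2 <|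
  cond (Nat.beq (cnt_Bip c 0 3) 1) 3 <|
  cond (Nat.beq (cnt_Bip c 0 4) 1) 4 <|
  cond (Nat.beq (cnt_Bip c 0 5) 1) 5 <|
  cond (Nat.beq (cnt_Bip c 0 6) 1) 6 <|
  cond (Nat.beq (cnt_Bip c 1 2) 1) 9 <|
  cond (Nat.beq (cnt_Bip c 1 3) 1) 10 <|
  cond (Nat.beq (cnt_Bip c 1 4) 1) 11 <|
  cond (Nat.beq (cnt_Bip c 1 5) 1) 12 <|
  cond (Nat.beq (cnt_Bip c 1 6) 1) 13 <|
  cond (Nat.beq (cnt_Bip c 2 3) 1) 17 <|
  cond (Nat.beq (cnt_Bip c 2 4) 1) 18 <|
  cond (Nat.beq (cnt_Bip c 2 5) 1) 19 <|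
  cond (Nat.beq (cnt_Bip c 2 6) 1) 20 <|
  cond (Nat.beq (cnt_Bip c 3 4) 1) 25 <|
  cond (Nat.beq (cnt_Bip c 3 5) 1) 26 <|
  cond (Nat.beq (cnt_Bip c 3 6) 1) 27 <|
  cond (Nat.beq (cnt_Bip c 4 5) 1) 33 <|
  cond (Nat.beq (cnt_Bip c 4 6) 1) 34 <|
  cond (Nat.beq (cnt_Bip c 5 6) 1) 41 <|
  0

/-- the search -/
def go_Bip : ℕ → ℕ → Bool
  | 0, _ => false
  | n + 1, c => force_Bip (sel_Bip c) fun s => force_Bip (Nat.mod (Nat.div s 7) 7) fun i =>
    force_Bip (Nat.mod s 7) fun j => cond (Nat.beq (cnt_Bip c i j) 1)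
      (all_Bip fun l => Nat.beq l i || Nat.beq l j || t_Bip c i j l ||
        force_Bip (add_Bip c i j l) fun c' => dead_Bip c' i j l || go_Bip n c')
      (((any_Bip fun v => Nat.ble (deg_Bip c v) 3) || good_Bip c) &&
        all_Bip fun a => all_Bip fun b => Nat.ble b a || all_Bip fun d => Nat.ble d b ||
          t_Bip c a b d || force_Bip (add_Bip c a b d) fun c' => dead_Bip c' a b d || go_Bip n c')

lemma run_Bip : force_Bip (add_Bip (add_Bip 0 0 1 2) 0 1 3) (go_Bip 12) = true := by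
  decide +kernel

lemma force_eq_Bip (c : ℕ) (f : ℕ → Bool) : force_Bip c f = f c := by cases c <;> rfl

lemma all_iff_Bip (f : ℕ → Bool) : all_Bip f = true ↔ ∀ l : Fin 7, f l.val = true := by
  simp [all_Bip, Fin.forall_fin_succ, and_assoc]

lemma any_iff_Bip (f : ℕ → Bool) : any_Bip f = true ↔ ∃ l : Fin 7, f l.val = true := by
  simp [any_Bip, Fin.exists_fin_succ, or_assoc]

lemma sum_eq_Bip (f : ℕ → ℕ) : sum_Bip f = ∑ l : Fin 7, f l.val := by
  rw [Fin.sum_univ_seven]; rfl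

lemma t_eq_Bip (c i j k : ℕ) : t_Bip c i j k = c.testBit (64 + 49 * i + 7 * j + k) := by
  rw [Bool.eq_iff_iff, t_Bip, Nat.beq_eq, Nat.testBit_eq_decide_div_mod_eq, decide_eq_true_eq,
    ← Nat.shiftRight_eq_div_pow]
  rfl

lemma row_bit_Bip (c i j k : ℕ) :
    (row_Bip c i j).testBit k = (decide (k < 7) && t_Bip c i j k) := by
  rw [t_eq_Bip, ← Nat.testBit_shiftRight, ← Nat.testBit_mod_two_pow]
  rfl

lemma pc_eq_Bip : ∀ r < 128, pc_Bip r = ∑ k : Fin 7, (r.testBit k.val).toNat := by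
  decide +kernel

lemma cnt_eq_Bip (c i j : ℕ) :
    cnt_Bip c i j = (univ.filter fun k : Fin 7 => t_Bip c i j k.val = true).card := by
  rw [cnt_Bip, pc_eq_Bip (row_Bip c i j) (Nat.mod_lt _ (by norm_num)), card_filter]
  refine sum_congr rfl fun k _ => ?_
  rw [row_bit_Bip]
  cases t_Bip c i j k.val <;> simp

lemma row_zero_Bip (c i j : ℕ) :
    row_Bip c i j = 0 ↔ ¬ ∃ k : Fin 7, t_Bip c i j k.val = true := by
  constructor
  · rintro h ⟨k, hk⟩
    have := row_bit_Bip c i j k.val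
    simp [h, hk] at this
  · intro h
    refine Nat.eq_of_testBit_eq fun k => ?_
    rw [row_bit_Bip, Nat.zero_testBit]
    by_cases a : k < 7
    · simpa [a] using fun b => h ⟨⟨k, a⟩, b⟩
    · simp [a]

lemma deg_eq_Bip (c v : ℕ) :
    deg_Bip c v = {j : Fin 7 | ∃ k : Fin 7, t_Bip c v j.val k.val = true}.ncard := by
  classical
  rw [deg_Bip, sum_eq_Bip, Set.ncard_eq_toFinset_card', Set.toFinset_setOf, card_filter]
  refine sum_congr rfl fun j _ => ?_
  split_ifs with a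
  · rw [Bool.eq_false_iff.2 fun b => (row_zero_Bip _ _ _).1 (Nat.eq_of_beq_eq_true b) a]
    rfl
  · rw [(row_zero_Bip _ _ _).2 a]
    rfl

lemma t_add_Bip {c : ℕ} {a b d i j k : Fin 7} : t_Bip (add_Bip c a b d) i j k = true ↔
    t_Bip c i j k = true ∨ (i = a ∧ j = b ∧ k = d) ∨ (i = a ∧ j = d ∧ k = b) ∨
      (i = b ∧ j = a ∧ k = d) ∨ (i = b ∧ j = d ∧ k = a) ∨ (i = d ∧ j = a ∧ k = b) ∨
      (i = d ∧ j = b ∧ k = a) := by
  have h : ∀ a b d : Fin 7, (b_Bip a b d).testBit (64 + 49 * i.val + 7 * j.val + k.val) = true ↔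
      i = a ∧ j = b ∧ k = d := by
    intro a b d
    change (2 ^ (64 + 49 * a.val + 7 * b.val + d.val)).testBit _ = true ↔ _
    simp only [Nat.testBit_two_pow, decide_eq_true_eq, Fin.ext_iff]
    omega
  have h' : ∀ x : ℕ, (Nat.pow 2 (Nat.mod x 64)).testBit (64 + 49 * i.val + 7 * j.val + k.val) =
      false := by
    intro x
    change (2 ^ (x % 64)).testBit _ = false
    exact Nat.testBit_two_pow_of_ne (by omega)
  simp only [t_eq_Bip, add_Bip, Nat.lor_eq, Nat.testBit_or, Bool.or_eq_true, h, h', or_assoc,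
    Bool.false_eq_true, or_false]

/-- the hypotheses -/
structure Hy_Bip (Tr : Fin 7 → Fin 7 → Fin 7 → Prop) : Prop where
  s1 : ∀ i j k, Tr i j k → Tr j i k
  s2 : ∀ i j k, Tr i j k → Tr i k j
  ne : ∀ i j k, Tr i j k → i ≠ j
  two : ∀ i j k, Tr i j k → ∃ k', k' ≠ k ∧ Tr i j k' ∧ ∀ l, Tr i j l → l = k ∨ l = k'
  four : ∀ i, 4 ≤ dg Tr i
  sum : ∑ i, dg Tr i ≤ 30

/-- the invariant -/
def Inv_Bip (Tr : Fin 7 → Fin 7 → Fin 7 → Prop) (c : ℕ) : Prop :=
  ∀ i j k : Fin 7, t_Bip c i j k = true → Tr i j k ∧ t_Bip c j i k = true ∧ t_Bip c i k j = true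

/-- the conclusion -/
def Gd_Bip (Tr : Fin 7 → Fin 7 → Fin 7 → Prop) : Prop :=
  ∃ N S, N ≠ S ∧ ¬ Adj Tr N S ∧
    ∀ i j k, Tr i j k → i = N ∨ i = S ∨ j = N ∨ j = S ∨ k = N ∨ k = S

variable {Tr : Fin 7 → Fin 7 → Fin 7 → Prop} {c : ℕ}

lemma inv_add_Bip (H : Hy_Bip Tr) (I : Inv_Bip Tr c) {a b d : Fin 7} (T : Tr a b d) :
    Inv_Bip Tr (add_Bip c a b d) := by
  intro i j k h
  have T1 := H.s1 _ _ _ T
  have T2 := H.s2 _ _ _ T
  have T3 := H.s2 _ _ _ T1
  have T4 := H.s1 _ _ _ T2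
  have T5 := H.s1 _ _ _ T3
  simp only [t_add_Bip] at h ⊢
  rcases h with h | ⟨rfl, rfl, rfl⟩ | ⟨rfl, rfl, rfl⟩ | ⟨rfl, rfl, rfl⟩ | ⟨rfl, rfl, rfl⟩ |
    ⟨rfl, rfl, rfl⟩ | ⟨rfl, rfl, rfl⟩
  · exact ⟨(I _ _ _ h).1, Or.inl (I _ _ _ h).2.1, Or.inl (I _ _ _ h).2.2⟩
  all_goals simp [*]

lemma cnt_le_Bip (H : Hy_Bip Tr) (I : Inv_Bip Tr c) (i j : Fin 7) : cnt_Bip c i j ≤ 2 := by
  rw [cnt_eq_Bip]
  rcases (univ.filter fun k : Fin 7 => t_Bip c i j k = true).eq_empty_or_nonempty with h | ⟨k, hk⟩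
  · simp [h]
  · obtain ⟨k', -, -, h⟩ := H.two i j k (I _ _ _ (mem_filter.1 hk).2).1
    refine (card_le_card (t := {k, k'}) fun l hl => ?_).trans card_le_two
    simpa using h l (I _ _ _ (mem_filter.1 hl).2).1

lemma not_dead_Bip (H : Hy_Bip Tr) (I : Inv_Bip Tr c) (i j k : Fin 7) :
    ¬ dead_Bip c i j k = true := by
  have h1 := cnt_le_Bip H I i j
  have h2 := cnt_le_Bip H I i k
  have h3 := cnt_le_Bip H I j k
  have h4 : ∀ v : Fin 7, deg_Bip c v - 4 + 4 ≤ dg Tr v := fun v => by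
    have a : deg_Bip c v ≤ dg Tr v := by
      rw [deg_eq_Bip]
      exact Set.ncard_le_ncard fun j ⟨k, h⟩ => ⟨k, (I _ _ _ h).1⟩
    have := H.four v
    omega
  have h5 := (sum_le_sum fun v (_ : v ∈ univ) => h4 v).trans H.sum
  rw [sum_add_distrib, sum_const, card_univ, Fintype.card_fin] at h5
  simp only [dead_Bip, Bool.or_eq_true, Nat.ble_eq, sum_eq_Bip, Nat.sub_eq, smul_eq_mul] at h5 ⊢
  omega

lemma sound_Bip (H : Hy_Bip Tr) : ∀ n c, Inv_Bip Tr c → go_Bip n c = true → Gd_Bip Tr := by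
  intro n
  induction n with
  | zero => intro c _ h; simp [go_Bip] at h
  | succ n ih =>
    intro c I h
    simp only [go_Bip, force_eq_Bip] at h
    obtain ⟨i, hi⟩ : ∃ i : Fin 7, Nat.mod (Nat.div (sel_Bip c) 7) 7 = i :=
      ⟨⟨_, Nat.mod_lt _ (by norm_num)⟩, rfl⟩
    obtain ⟨j, hj⟩ : ∃ j : Fin 7, Nat.mod (sel_Bip c) 7 = j :=
      ⟨⟨_, Nat.mod_lt _ (by norm_num)⟩, rfl⟩
    rw [hi, hj] at h
    cases hp : Nat.beq (cnt_Bip c i j) 1
    swap
    · rw [hp, cond_true, all_iff_Bip] at h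
      rw [Nat.beq_eq, cnt_eq_Bip, card_eq_one] at hp
      obtain ⟨k, hk⟩ := hp
      have h2 : ∀ l : Fin 7, t_Bip c i j l = true ↔ l = k := fun l => by
        rw [← mem_singleton (a := k), ← hk]; simp
      obtain ⟨l, hl, T, -⟩ := H.two _ _ _ (I _ _ _ ((h2 k).2 rfl)).1
      have h3 := h l
      have J := inv_add_Bip H I T
      simp only [Bool.or_eq_true, Nat.beq_eq, Fin.val_inj, h2] at h3
      rcases h3 with ((a | a) | a) | a | a
      · exact absurd a.symm (H.ne _ _ _ (H.s2 _ _ _ T))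
      · exact absurd a.symm (H.ne _ _ _ (H.s2 _ _ _ (H.s1 _ _ _ T)))
      · exact absurd a hl
      · exact absurd a (not_dead_Bip H J _ _ _)
      · exact ih _ J a
    · rw [hp, cond_false, Bool.and_eq_true] at h
      by_cases e : ∀ a b d : Fin 7, a < b → b < d → Tr a b d → t_Bip c a b d = true
      · have e' : ∀ i j k : Fin 7, Tr i j k → t_Bip c i j k = true := by
          intro i j k T
          have T1 := H.s1 _ _ _ T
          have T2 := H.s2 _ _ _ T
          have T3 := H.s2 _ _ _ T1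
          have T4 := H.s1 _ _ _ T2
          have T5 := H.s1 _ _ _ T3
          have u := fun i j k h => (I i j k h).2.1
          have w := fun i j k h => (I i j k h).2.2
          rcases lt_or_gt_of_ne (H.ne _ _ _ T) with a | a <;>
            rcases lt_or_gt_of_ne (H.ne _ _ _ T2) with b | b <;>
            rcases lt_or_gt_of_ne (H.ne _ _ _ T3) with d | d
          · exact e _ _ _ a d T
          · exact w _ _ _ (e _ _ _ b d T2)
          · exact absurd (a.trans d) (not_lt.2 b.le)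
          · exact w _ _ _ (u _ _ _ (e _ _ _ b a T4))
          · exact u _ _ _ (e _ _ _ a b T1)
          · exact absurd (d.trans a) (not_lt.2 b.le)
          · exact u _ _ _ (w _ _ _ (e _ _ _ d b T3))
          · exact u _ _ _ (w _ _ _ (u _ _ _ (e _ _ _ d a T5)))
        rcases Bool.or_eq_true_iff.1 h.1 with a | a
        · obtain ⟨v, hv⟩ := (any_iff_Bip _).1 a
          rw [Nat.ble_eq, deg_eq_Bip] at hv
          have := (H.four v).trans (Set.ncard_le_ncard
            (t := {j : Fin 7 | ∃ k : Fin 7, t_Bip c v j k = true}) fun j ⟨k, h⟩ => ⟨k, e' _ _ _ h⟩)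
          omega
        · simp only [good_Bip, any_iff_Bip, all_iff_Bip, Bool.and_eq_true, Bool.or_eq_true,
            Bool.not_eq_true', Nat.beq_eq, row_zero_Bip, Fin.val_inj] at a
          obtain ⟨N, S, ⟨a1, a2⟩, a3⟩ := a
          refine ⟨N, S, ?_, fun ⟨k, T⟩ => a2 ⟨k, e' _ _ _ T⟩, fun i j k T => ?_⟩
          · rintro rfl
            simp at a1
          · rcases a3 i with (x | x) | x
            · simp [x]
            · simp [x]
            rcases x j with (x | x) | x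
            · simp [x]
            · simp [x]
            rcases x k with (x | x) | x
            · simp [x]
            · simp [x]
            · simp [e' _ _ _ T] at x
      · push Not at e
        obtain ⟨a, b, d, h1, h2, T, h3⟩ := e
        have J := inv_add_Bip H I T
        have h4 := h.2
        simp only [all_iff_Bip, Bool.or_eq_true, Nat.ble_eq] at h4
        rcases h4 a b with x | x
        · exact absurd h1 (not_lt.2 x)
        rcases x d with (x | x) | x | x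
        · exact absurd h2 (not_lt.2 x)
        · exact absurd x h3
        · exact absurd x (not_dead_Bip H J _ _ _)
        · exact ih _ J x

theorem bip_st : BipSt := by
  intro Tr s1 s2 ne two four sum
  obtain ⟨j, k, T⟩ : {j | Adj Tr 0 j}.Nonempty :=
    Set.nonempty_of_ncard_ne_zero (by have := four 0; rw [dg] at this; omega)
  have n1 := ne _ _ _ T
  have n2 := ne _ _ _ (s2 _ _ _ T)
  have n3 := ne _ _ _ (s2 _ _ _ (s1 _ _ _ T))
  obtain ⟨l, n4, T₂, -⟩ := two _ _ _ T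
  have n5 := ne _ _ _ (s2 _ _ _ T₂)
  have n6 := ne _ _ _ (s2 _ _ _ (s1 _ _ _ T₂))
  obtain ⟨σ, hσ⟩ := Equiv.Perm.exists_extending_pair (f := (![0, 1, 2, 3] : Fin 4 → Fin 7))
    (g := ![0, j, k, l]) (by decide) (by
      intro a b
      fin_cases a <;> fin_cases b <;> simp [n1, n2, n3, n4, n5, n6, n1.symm, n2.symm, n3.symm,
        n4.symm, n5.symm, n6.symm])
  have hd : ∀ i, dg (fun a b d => Tr (σ a) (σ b) (σ d)) i = dg Tr (σ i) := by
    intro i
    rw [dg, dg, ← Set.ncard_image_of_injective _ σ.injective]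
    congr 1
    ext x
    constructor
    · rintro ⟨a, ⟨b, h⟩, rfl⟩
      exact ⟨_, h⟩
    · rintro ⟨b, h⟩
      exact ⟨σ.symm x, ⟨σ.symm b, by simpa using h⟩, by simp⟩
  have H : Hy_Bip fun a b d => Tr (σ a) (σ b) (σ d) := by
    refine ⟨fun _ _ _ => s1 _ _ _, fun _ _ _ => s2 _ _ _,
      fun _ _ _ h e => ne _ _ _ h (congrArg σ e), fun a b d h => ?_,
      fun i => by rw [hd]; exact four _, ?_⟩
    · obtain ⟨k', h1, h2, h3⟩ := two _ _ _ h
      refine ⟨σ.symm k', fun e => h1 (by rw [← e]; simp), by simpa using h2, fun l hl => ?_⟩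
      rcases h3 _ hl with e | e
      · exact Or.inl (σ.injective e)
      · exact Or.inr (by rw [← e]; simp)
    · simp only [hd]
      rwa [Equiv.sum_comp σ (dg Tr)]
  have a0 : σ 0 = 0 := hσ 0
  have a1 : σ 1 = j := hσ 1
  have a2 : σ 2 = k := hσ 2
  have a3 : σ 3 = l := hσ 3
  obtain ⟨N, S, h1, h2, h3⟩ := sound_Bip H _ _
    (inv_add_Bip H (inv_add_Bip H (c := 0) (fun i j k h => by simp [t_eq_Bip] at h)
      (a := 0) (b := 1) (d := 2) (by rwa [a0, a1, a2])) (a := 0) (b := 1) (d := 3)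
      (by rwa [a0, a1, a3])) ((force_eq_Bip _ _).symm.trans run_Bip)
  refine ⟨σ N, σ S, σ.injective.ne h1, fun ⟨l, h⟩ => h2 ⟨σ.symm l, by simpa using h⟩,
    fun a b d h => ?_⟩
  simpa [Equiv.symm_apply_eq] using h3 (σ.symm a) (σ.symm b) (σ.symm d) (by simpa using h)

end Pool.Agent.MP_5cfbf6_gt.P7
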