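import Pool.Agent.MP_5cfbf6_gt.P7.Base

set_option autoImplicit false
set_option linter.unusedSectionVars false

namespace Pool.Agent.MP_5cfbf6_gt.P7

open Set Filter Topology MeasureTheory

/-- a face of a polytope whose other planes are moved outwards -/
def fat_Slab {ι : Type} (u : ι → E3) (h : ι → ℝ) (i : ι) (e : ℝ) : Set E3 :=
  {x | dt (u i) x = h i} ∩ poly u fun l => h l + 2 * e

variable {ι : Type} [Fintype ι] [DecidableEq ι] {u : ι → E3} {h : ι → ℝ}

lemma closed_Slab (i : ι) (e : ℝ) : IsClosed (fat_Slab u h i e) :=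
  (isClosed_eq (by fun_prop) continuous_const).inter (isClosed_poly u _)

lemma mono_Slab (i : ι) {e e' : ℝ} (H : e ≤ e') : fat_Slab u h i e ⊆ fat_Slab u h i e' :=
  fun _ hx => ⟨hx.1, fun l => (hx.2 l).trans (by linarith)⟩

lemma fin_Slab (hu : Unit1 u) (hb : Bornology.IsBounded (poly u fun i => h i + 1)) (i : ι) :
    μHE[2] (fat_Slab u h i (1 / 2)) ≠ ⊤ := by
  obtain ⟨e, he, hne⟩ := exists_frame (n := u i)
  have hc : IsCompact (fat_Slab u h i (1 / 2)) :=
    Metric.isCompact_of_isClosed_isBounded (closed_Slab i _)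
      (hb.subset fun x hx l => (hx.2 l).trans (by linarith))
  rw [area_pl (b := h i • u i) (hu i) he hne fun x hx => by rw [dt_smul, hu i, mul_one, hx.1]]
  exact (isCompact_pl (hu i) he hne hc).measure_lt_top.ne

lemma lim_Slab (hu : Unit1 u) (hb : Bornology.IsBounded (poly u fun i => h i + 1)) (i : ι) :
    Tendsto (fun e => (μHE[2] (fat_Slab u h i e)).toReal) (𝓝[>] 0) (𝓝 (ar u h i)) := by
  have h1 := tendsto_measure_biInter_gt (μ := μHE[2]) (s := fat_Slab u h i) (a := 0)
    (fun r _ => (closed_Slab i r).measurableSet.nullMeasurableSet)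
    (fun _ _ _ H => mono_Slab i H) ⟨1 / 2, by norm_num, fin_Slab hu hb i⟩
  have h2 : ⋂ r > (0 : ℝ), fat_Slab u h i r = fc u h {i} := by
    ext x
    simp only [mem_iInter]
    refine ⟨fun H => ⟨fun l => le_of_forall_pos_le_add fun r hr => ?_, ?_⟩,
      fun H r hr => ⟨H.2 i rfl, fun l => (H.1 l).trans (by linarith)⟩⟩
    · exact ((H (r / 2) (half_pos hr)).2 l).trans (by linarith)
    · rintro _ rfl
      exact (H 1 one_pos).1
  rw [h2] at h1
  refine (ENNReal.tendsto_toReal (ne_top_of_le_ne_top (fin_Slab hu hb i) (measure_mono ?_))).comp h1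
  rw [← h2]
  exact biInter_subset_of_mem (show (1 / 2 : ℝ) ∈ Ioi 0 by norm_num)

lemma vol_Slab (hu : Unit1 u) (i : ι) (e : ℝ) :
    volume ({y | h i < dt (u i) y} ∩ poly u fun l => h l + e) ≤
      μHE[2] (fat_Slab u h i e) * ENNReal.ofReal e := by
  have hn : ∀ l, ‖u l‖ = 1 := fun l => by
    have := hu l
    rw [dt_self] at this
    exact (pow_eq_one_iff_of_nonneg (norm_nonneg _) two_ne_zero).1 this
  have hv : u i ≠ 0 := norm_ne_zero_iff.1 (by rw [hn i]; exact one_ne_zero)
  have hm : MeasurableSet ({y | h i < dt (u i) y} ∩ poly u fun l => h l + e) :=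
    (isOpen_lt continuous_const (by fun_prop)).measurableSet.inter (isClosed_poly u _).measurableSet
  have h1 := EuclideanGeometry.euclideanHausdorffMeasure_eq_lintegral (h i • u i) hv hm
  rw [InnerProductSpace.euclideanHausdorffMeasure_eq_volume, finrank_euclideanSpace_fin] at h1
  rw [h1, ← ofReal_norm, hn i, ENNReal.ofReal_one, one_mul]
  refine (lintegral_mono (g := (Ioc 0 e).indicator fun _ => μHE[2] (fat_Slab u h i e))
    fun t => ?_).trans ?_
  · have h3 : ∀ x : E3, x ∈ (AffineSubspace.mk' (t • u i +ᵥ h i • u i)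
        (Submodule.orthogonal (ℝ ∙ u i)) : Set E3) → dt (u i) x = h i + t := fun x hx => by
      rw [SetLike.mem_coe, AffineSubspace.mem_mk', ← perp, mem_perp, vadd_eq_add, vsub_eq_sub,
        dt_sub, dt_add, dt_smul, dt_smul, hu i] at hx
      linarith
    have h4 : ∀ x ∈ ({y | h i < dt (u i) y} ∩ poly u fun l => h l + e),
        dt (u i) x = h i + t → t ∈ Ioc 0 e := fun x hx h5 =>
      ⟨by linarith [show h i < dt (u i) x from hx.1], by linarith [hx.2 i]⟩
    by_cases ht : t ∈ Ioc 0 e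
    · rw [indicator_of_mem ht, ← (isometry_add_right (t • u i)).euclideanHausdorffMeasure_image
        (fat_Slab u h i e)]
      refine measure_mono fun x hx => ⟨x - t • u i, ⟨?_, fun l => ?_⟩, sub_add_cancel _ _⟩
      · change dt (u i) _ = _
        rw [dt_sub, dt_smul, hu i, h3 x hx.2]
        ring
      · have h5 := abs_dt_le (u l) (u i)
        rw [hn, hn, one_mul] at h5
        rw [dt_sub, dt_smul]
        nlinarith [hx.1.2 l, ht.1, ht.2, (abs_le.1 h5).1]
    · rw [indicator_of_notMem ht]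
      exact (measure_mono_null (fun x hx => (ht (h4 x hx.1 (h3 x hx.2))).elim) measure_empty).le
  · rw [lintegral_indicator measurableSet_Ioc, setLIntegral_const, Real.volume_Ioc, sub_zero]

theorem slab_st : SlabSt := by
  intro ι _ _ u h hu hb s hs
  have h1 := (tendsto_finsetSum Finset.univ fun i _ => lim_Slab hu hb i).eventually_lt_const hs
  filter_upwards [h1, Ioo_mem_nhdsGT (show (0 : ℝ) < 1 / 2 by norm_num)] with e h2 he
  have hf : ∀ i, μHE[2] (fat_Slab u h i e) ≠ ⊤ := fun i =>
    ne_top_of_le_ne_top (fin_Slab hu hb i) (measure_mono (mono_Slab i he.2.le))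
  have h3 : volume (poly u h) ≠ ⊤ :=
    (hb.subset fun x hx l => (hx l).trans (by linarith)).measure_lt_top.ne
  have h4 : volume (poly u fun i => h i + e) ≤
      volume (poly u h) + ∑ i, μHE[2] (fat_Slab u h i e) * ENNReal.ofReal e := by
    refine (measure_mono (t := poly u h ∪ ⋃ i, {y | h i < dt (u i) y} ∩ poly u fun l => h l + e)
      fun x hx => ?_).trans ((measure_union_le _ _).trans (add_le_add_right
        ((measure_iUnion_fintype_le _ _).trans (Finset.sum_le_sum fun i _ => vol_Slab hu i e)) _))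
    refine or_iff_not_imp_left.2 fun h5 => ?_
    obtain ⟨i, hi⟩ := not_forall.1 h5
    exact mem_iUnion.2 ⟨i, not_le.1 hi, hx⟩
  have h5 : ∀ i, μHE[2] (fat_Slab u h i e) * ENNReal.ofReal e ≠ ⊤ := fun i =>
    ENNReal.mul_ne_top (hf i) ENNReal.ofReal_ne_top
  have h6 := ENNReal.sum_ne_top.2 fun i (_ : i ∈ Finset.univ) => h5 i
  refine (ENNReal.toReal_mono (ENNReal.add_ne_top.2 ⟨h3, h6⟩) h4).trans ?_
  rw [ENNReal.toReal_add h3 h6, ENNReal.toReal_sum fun i _ => h5 i]
  simp only [ENNReal.toReal_mul, ENNReal.toReal_ofReal he.1.le]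
  rw [← Finset.sum_mul, mul_comm]
  exact add_le_add_right (mul_le_mul_of_nonneg_left h2.le he.1.le) _

end Pool.Agent.MP_5cfbf6_gt.P7
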